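import Pool.Agent.helper42.PD.Defs

/-!
PD-2: area of a convex pentagon, quadrilateral, triangle (lower bounds).
-/

open MeasureTheory
open scoped ENNReal

namespace Pool.Agent.helper42.PD

/-- the open standard triangle -/
def Area_T0 : Set Plane := {x | 0 < x 0 ∧ 0 < x 1 ∧ x 0 + x 1 < 1}

theorem Area_T0_vol : volume Area_T0 = ENNReal.ofReal (1 / 2) := by
  have hmp : MeasurePreserving
      ((MeasurableEquiv.finTwoArrow : (Fin 2 → ℝ) ≃ᵐ ℝ × ℝ) ∘ (@WithLp.ofLp 2 (Fin 2 → ℝ)))
      (volume : Measure Plane) (volume : Measure (ℝ × ℝ)) :=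
    (volume_preserving_finTwoArrow ℝ).comp (PiLp.volume_preserving_ofLp (Fin 2))
  have hset : Area_T0 =
      ((MeasurableEquiv.finTwoArrow : (Fin 2 → ℝ) ≃ᵐ ℝ × ℝ) ∘ (@WithLp.ofLp 2 (Fin 2 → ℝ))) ⁻¹'
        (regionBetween (fun _ => (0 : ℝ)) (fun x => 1 - x) (Set.Ioo (0 : ℝ) 1)) := by
    ext x
    change (0 < x 0 ∧ 0 < x 1 ∧ x 0 + x 1 < 1) ↔
      (x 0 ∈ Set.Ioo (0 : ℝ) 1 ∧ x 1 ∈ Set.Ioo (0 : ℝ) (1 - x 0))
    rw [Set.mem_Ioo, Set.mem_Ioo]
    constructor
    · rintro ⟨h0, h1, h2⟩
      exact ⟨⟨h0, by linarith⟩, h1, by linarith⟩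
    · rintro ⟨⟨h0, h1⟩, h2, h3⟩
      exact ⟨h0, h2, by linarith⟩
  rw [hset, hmp.measure_preimage
    (measurableSet_regionBetween measurable_const (by fun_prop) measurableSet_Ioo).nullMeasurableSet,
    Measure.volume_eq_prod, volume_regionBetween_eq_integral]
  · congr 1
    rw [← integral_Ioc_eq_integral_Ioo, ← intervalIntegral.integral_of_le (by norm_num)]
    simp only [Pi.sub_apply, sub_zero]
    rw [intervalIntegral.integral_sub (by simp) (by simp)]
    simp
    norm_num
  · exact (integrableOn_const (by simp) (by simp))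
  · exact ((by fun_prop : Continuous fun x : ℝ => 1 - x).integrableOn_Icc).mono_set
      Set.Ioo_subset_Icc_self
  · exact measurableSet_Ioo
  · intro x hx
    have h2 : x < 1 := hx.2
    change (0 : ℝ) ≤ 1 - x
    linarith

/-- the open triangle, by inequalities -/
def Area_OT (a b c : Plane) : Set Plane :=
  {z | 0 < dd a z c ∧ 0 < dd a b z ∧ dd a z c + dd a b z < dd a b c}

theorem Area_OT_open (a b c : Plane) : IsOpen (Area_OT a b c) := by
  have h1 : Continuous fun z : Plane => dd a z c := by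
    simp only [dd_eq]
    fun_prop
  have h2 : Continuous fun z : Plane => dd a b z := by
    simp only [dd_eq]
    fun_prop
  exact (isOpen_lt continuous_const h1).inter
    ((isOpen_lt continuous_const h2).inter (isOpen_lt (h1.add h2) continuous_const))

theorem Area_comb3 {K : Set Plane} (hK : Convex ℝ K) {a b c : Plane} (ha : a ∈ K) (hb : b ∈ K)
    (hc : c ∈ K) {r s t : ℝ} (hr : 0 ≤ r) (hs : 0 ≤ s) (ht : 0 ≤ t) (h : r + s + t = 1) :
    r • a + s • b + t • c ∈ K := by
  have h1 := hK.sum_mem (t := Finset.univ) (w := ![r, s, t]) (z := ![a, b, c])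
    (by intro i _; fin_cases i <;> simp [hr, hs, ht])
    (by simp [Fin.sum_univ_three, h])
    (by intro i _; fin_cases i <;> simp [ha, hb, hc])
  simpa [Fin.sum_univ_three] using h1

theorem Area_OT_subset {a b c : Plane} (h : 0 < dd a b c) {K : Set Plane}
    (hK : Convex ℝ K) (ha : a ∈ K) (hb : b ∈ K) (hc : c ∈ K) : Area_OT a b c ⊆ K := by
  rintro z ⟨h1, h2, h3⟩
  have h4 := Area_comb3 hK ha hb hc (r := 1 - dd a z c / dd a b c - dd a b z / dd a b c)
    (s := dd a z c / dd a b c) (t := dd a b z / dd a b c)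
    (by
      have : dd a z c / dd a b c + dd a b z / dd a b c < 1 := by
        rw [← add_div, div_lt_one h]
        exact h3
      linarith)
    (by positivity) (by positivity) (by ring)
  have h5 : (1 - dd a z c / dd a b c - dd a b z / dd a b c) • a + (dd a z c / dd a b c) • b +
      (dd a b z / dd a b c) • c = z := by
    ext i
    have hne : dd a b c ≠ 0 := h.ne'
    simp only [PiLp.add_apply, PiLp.smul_apply, smul_eq_mul]
    have h6 : dd a b c * z i = (dd a b c - dd a z c - dd a b z) * a i + dd a z c * b i +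
        dd a b z * c i := by
      simp only [dd_eq]
      fin_cases i
      · simp only [Fin.zero_eta, Fin.isValue]
        ring
      · simp only [Fin.mk_one, Fin.isValue]
        ring
    field_simp
    linarith
  rwa [h5] at h4

/-- the linear map with columns `u`, `w` -/
noncomputable def Area_L (u w : Plane) : Plane →ₗ[ℝ] Plane :=
  Matrix.toLin (EuclideanSpace.basisFun (Fin 2) ℝ).toBasis (EuclideanSpace.basisFun (Fin 2) ℝ).toBasis
    !![u 0, w 0; u 1, w 1]

theorem Area_L_apply (u w x : Plane) : Area_L u w x = x 0 • u + x 1 • w := by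
  unfold Area_L
  rw [Matrix.toLin_apply]
  ext i
  fin_cases i <;>
  simp [Matrix.mulVec, dotProduct, Fin.sum_univ_two] <;> ring

theorem Area_L_det (u w : Plane) : LinearMap.det (Area_L u w) = det2 u w := by
  unfold Area_L
  rw [LinearMap.det_toLin, Matrix.det_fin_two_of]
  simp only [det2]
  ring

theorem Area_OT_vol {a b c : Plane} (h : 0 < dd a b c) :
    ENNReal.ofReal (dd a b c / 2) ≤ volume (Area_OT a b c) := by
  have h1 : volume ((fun x => a + x) '' (Area_L (b - a) (c - a) '' Area_T0)) =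
      ENNReal.ofReal (dd a b c / 2) := by
    rw [Set.image_add_left, measure_preimage_add, Measure.addHaar_image_linearMap, Area_L_det,
      Area_T0_vol, ← ENNReal.ofReal_mul (abs_nonneg _)]
    congr 1
    change |dd a b c| * (1 / 2) = dd a b c / 2
    rw [abs_of_pos h]
    ring
  rw [← h1]
  apply measure_mono
  rintro _ ⟨_, ⟨x, ⟨hx0, hx1, hx2⟩, rfl⟩, rfl⟩
  have h2 : dd a (a + Area_L (b - a) (c - a) x) c = x 0 * dd a b c := by
    rw [Area_L_apply]
    simp only [dd_eq, PiLp.add_apply, PiLp.smul_apply, PiLp.sub_apply, smul_eq_mul]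
    ring
  have h3 : dd a b (a + Area_L (b - a) (c - a) x) = x 1 * dd a b c := by
    rw [Area_L_apply]
    simp only [dd_eq, PiLp.add_apply, PiLp.smul_apply, PiLp.sub_apply, smul_eq_mul]
    ring
  refine ⟨?_, ?_, ?_⟩
  · rw [h2]
    positivity
  · rw [h3]
    positivity
  · rw [h2, h3, ← add_mul]
    nlinarith

/-- The area of a (counterclockwise) triangle is at least half of the determinant. -/
theorem volume_triangle_ge {a b c : Plane} (h : 0 < dd a b c) :
    ENNReal.ofReal (dd a b c / 2) ≤ volume (convexHull ℝ ({a, b, c} : Set Plane)) :=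
  (Area_OT_vol h).trans (measure_mono (Area_OT_subset h (convex_convexHull ℝ _)
    (subset_convexHull ℝ _ (by simp)) (subset_convexHull ℝ _ (by simp))
    (subset_convexHull ℝ _ (by simp))))

/-- two triangles `a b c` and `a d e` separated by the line through `a` and `p` are disjoint -/
theorem Area_OT_disj {a b c d e p : Plane} (hb : dd a p b ≤ 0) (hc : dd a p c ≤ 0)
    (hd : 0 ≤ dd a p d) (he : 0 ≤ dd a p e) (hbc : 0 < dd a b c) (hde : 0 < dd a d e)
    (hs : dd a p b < 0 ∨ dd a p c < 0) :
    Disjoint (Area_OT a b c) (Area_OT a d e) := by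
  rw [Set.disjoint_left]
  rintro z ⟨h1, h2, _⟩ ⟨h3, h4, _⟩
  have e1 : dd a b c * dd a p z = dd a z c * dd a p b + dd a b z * dd a p c := by
    simp only [dd_eq]
    ring
  have e2 : dd a d e * dd a p z = dd a z e * dd a p d + dd a d z * dd a p e := by
    simp only [dd_eq]
    ring
  have h5 : dd a p z < 0 := by
    have h6 : dd a z c * dd a p b + dd a b z * dd a p c < 0 := by
      rcases hs with hs | hs
      · nlinarith [mul_pos_of_neg_of_neg (neg_neg_of_pos h1) hs, mul_nonneg h2.le (neg_nonneg.mpr hc)]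
      · nlinarith [mul_pos_of_neg_of_neg (neg_neg_of_pos h2) hs, mul_nonneg h1.le (neg_nonneg.mpr hb)]
    rw [← e1] at h6
    by_contra h7
    push Not at h7
    nlinarith [mul_nonneg hbc.le h7]
  have h8 : 0 ≤ dd a d e * dd a p z := by
    rw [e2]
    positivity
  nlinarith [mul_pos_of_neg_of_neg (neg_neg_of_pos hde) h5]

/-- The area of a convex quadrilateral. -/
theorem volume_quad_ge {v : Fin 4 → Plane}
    (hv : ∀ i j k : Fin 4, i < j → j < k → 0 < dd (v i) (v j) (v k)) :
    ENNReal.ofReal ((dd (v 0) (v 1) (v 2) + dd (v 0) (v 2) (v 3)) / 2) ≤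
      volume (convexHull ℝ (Set.range v)) := by
  have h012 := hv 0 1 2 (by decide) (by decide)
  have h023 := hv 0 2 3 (by decide) (by decide)
  have hK := convex_convexHull ℝ (Set.range v)
  have hm : ∀ i, v i ∈ convexHull ℝ (Set.range v) := fun i =>
    subset_convexHull ℝ _ (Set.mem_range_self i)
  have e0 : ∀ i, dd (v 0) (v i) (v i) = 0 := fun i => by simp only [dd_eq]; ring
  have e1 : dd (v 0) (v 2) (v 1) = - dd (v 0) (v 1) (v 2) := by simp only [dd_eq]; ring
  have hd : Disjoint (Area_OT (v 0) (v 1) (v 2)) (Area_OT (v 0) (v 2) (v 3)) :=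
    Area_OT_disj (p := v 2) (by rw [e1]; linarith) (by rw [e0]) (by rw [e0]) h023.le h012 h023
      (Or.inl (by rw [e1]; linarith))
  calc ENNReal.ofReal ((dd (v 0) (v 1) (v 2) + dd (v 0) (v 2) (v 3)) / 2)
      = ENNReal.ofReal (dd (v 0) (v 1) (v 2) / 2) + ENNReal.ofReal (dd (v 0) (v 2) (v 3) / 2) := by
        rw [add_div, ENNReal.ofReal_add (by positivity) (by positivity)]
    _ ≤ volume (Area_OT (v 0) (v 1) (v 2)) + volume (Area_OT (v 0) (v 2) (v 3)) :=
        add_le_add (Area_OT_vol h012) (Area_OT_vol h023)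
    _ = volume (Area_OT (v 0) (v 1) (v 2) ∪ Area_OT (v 0) (v 2) (v 3)) :=
        (measure_union hd (Area_OT_open _ _ _).measurableSet).symm
    _ ≤ _ := measure_mono (Set.union_subset (Area_OT_subset h012 hK (hm 0) (hm 1) (hm 2))
        (Area_OT_subset h023 hK (hm 0) (hm 2) (hm 3)))

/-- The area of a convex pentagon. -/
theorem volume_pentagon_ge {v : Fin 5 → Plane} (hv : ConvexPentagon v) :
    ENNReal.ofReal (AA v / 2) ≤ volume (convexHull ℝ (Set.range v)) := by
  have h012 := hv 0 1 2 (by decide) (by decide)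
  have h023 := hv 0 2 3 (by decide) (by decide)
  have h034 := hv 0 3 4 (by decide) (by decide)
  have h024 := hv 0 2 4 (by decide) (by decide)
  have hK := convex_convexHull ℝ (Set.range v)
  have hm : ∀ i, v i ∈ convexHull ℝ (Set.range v) := fun i =>
    subset_convexHull ℝ _ (Set.mem_range_self i)
  have e0 : ∀ i, dd (v 0) (v i) (v i) = 0 := fun i => by simp only [dd_eq]; ring
  have e1 : dd (v 0) (v 2) (v 1) = - dd (v 0) (v 1) (v 2) := by simp only [dd_eq]; ring
  have e2 : dd (v 0) (v 3) (v 2) = - dd (v 0) (v 2) (v 3) := by simp only [dd_eq]; ring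
  have hd : Disjoint (Area_OT (v 0) (v 1) (v 2)) (Area_OT (v 0) (v 2) (v 3)) :=
    Area_OT_disj (p := v 2) (by rw [e1]; linarith) (by rw [e0]) (by rw [e0]) h023.le h012 h023
      (Or.inl (by rw [e1]; linarith))
  have hd2 : Disjoint (Area_OT (v 0) (v 1) (v 2)) (Area_OT (v 0) (v 3) (v 4)) :=
    Area_OT_disj (p := v 2) (by rw [e1]; linarith) (by rw [e0]) h023.le h024.le h012 h034
      (Or.inl (by rw [e1]; linarith))
  have hd3 : Disjoint (Area_OT (v 0) (v 2) (v 3)) (Area_OT (v 0) (v 3) (v 4)) :=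
    Area_OT_disj (p := v 3) (by rw [e2]; linarith) (by rw [e0]) (by rw [e0]) h034.le h023 h034
      (Or.inl (by rw [e2]; linarith))
  calc ENNReal.ofReal (AA v / 2)
      = ENNReal.ofReal (dd (v 0) (v 1) (v 2) / 2) + ENNReal.ofReal (dd (v 0) (v 2) (v 3) / 2) +
          ENNReal.ofReal (dd (v 0) (v 3) (v 4) / 2) := by
        rw [← ENNReal.ofReal_add (by positivity) (by positivity),
          ← ENNReal.ofReal_add (by positivity) (by positivity)]
        congr 1
        unfold AA
        ring
    _ ≤ volume (Area_OT (v 0) (v 1) (v 2)) + volume (Area_OT (v 0) (v 2) (v 3)) +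
          volume (Area_OT (v 0) (v 3) (v 4)) :=
        add_le_add (add_le_add (Area_OT_vol h012) (Area_OT_vol h023)) (Area_OT_vol h034)
    _ = volume (Area_OT (v 0) (v 1) (v 2) ∪ Area_OT (v 0) (v 2) (v 3) ∪
          Area_OT (v 0) (v 3) (v 4)) := by
        rw [measure_union (Set.disjoint_union_left.mpr ⟨hd2, hd3⟩)
          (Area_OT_open _ _ _).measurableSet, measure_union hd (Area_OT_open _ _ _).measurableSet]
    _ ≤ _ := measure_mono (Set.union_subset (Set.union_subset
        (Area_OT_subset h012 hK (hm 0) (hm 1) (hm 2))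
        (Area_OT_subset h023 hK (hm 0) (hm 2) (hm 3)))
        (Area_OT_subset h034 hK (hm 0) (hm 3) (hm 4)))

/-- A triangle with positive determinant has nonempty interior. -/
theorem interior_nonempty_of_dd_pos {a b c : Plane} (h : 0 < dd a b c) {K : Set Plane}
    (hK : Convex ℝ K) (ha : a ∈ K) (hb : b ∈ K) (hc : c ∈ K) : (interior K).Nonempty := by
  have h1 : (Area_OT a b c).Nonempty := by
    have h2 : 0 < volume (Area_OT a b c) :=
      lt_of_lt_of_le (ENNReal.ofReal_pos.mpr (by positivity)) (Area_OT_vol h)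
    exact nonempty_of_measure_ne_zero h2.ne'
  exact h1.mono (interior_maximal (Area_OT_subset h hK ha hb hc) (Area_OT_open a b c))

end Pool.Agent.helper42.PD
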