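import Pool.Agent.helper42.PD.Defs

/-!
PD-3: from half planes to a double lattice packing.
-/

namespace Pool.Agent.helper42.PD

open Filter Topology

theorem Data_vec_pos {n : Plane} (hn : n ≠ 0) : ∃ w : Plane, 0 < det2 w n := by
  refine ⟨!₂[n 1, - n 0], ?_⟩
  have h : n 0 ≠ 0 ∨ n 1 ≠ 0 := by
    by_contra hcon
    push Not at hcon
    apply hn
    ext i
    fin_cases i
    · simpa using hcon.1
    · simpa using hcon.2
  have h2 : 0 < n 0 ^ 2 + n 1 ^ 2 := by
    rcases h with h | h
    · have := sq_pos_of_ne_zero h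
      positivity
    · have := sq_pos_of_ne_zero h
      positivity
  simp only [det2]
  simp
  nlinarith

theorem Data_lt_of_interior {K : Set Plane} {n : Plane} {c : ℝ} (hn : n ≠ 0)
    (h : ∀ z ∈ K, det2 z n ≤ c) {z : Plane} (hz : z ∈ interior K) : det2 z n < c := by
  obtain ⟨w, hw⟩ := Data_vec_pos hn
  have hcont : Tendsto (fun t : ℝ => z + t • w) (𝓝 0) (𝓝 z) := by
    have : Continuous (fun t : ℝ => z + t • w) := by fun_prop
    simpa using this.tendsto 0
  have hev : ∀ᶠ t : ℝ in 𝓝 0, z + t • w ∈ K :=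
    hcont.eventually (mem_interior_iff_mem_nhds.mp hz)
  rw [Metric.eventually_nhds_iff] at hev
  obtain ⟨ε, hε, hball⟩ := hev
  have h1 : z + (ε / 2) • w ∈ K := by
    apply hball
    rw [Real.dist_eq]
    rw [abs_of_pos] <;> linarith
  have h2 := h _ h1
  rw [det2_add_left, det2_smul_left] at h2
  nlinarith

theorem Data_gt_of_interior {K : Set Plane} {n : Plane} {c : ℝ} (hn : n ≠ 0)
    (h : ∀ z ∈ K, c ≤ det2 z n) {z : Plane} (hz : z ∈ interior K) : c < det2 z n := by
  have h' : ∀ z ∈ K, det2 z (-n) ≤ -c := by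
    intro z hz
    have := h z hz
    have e : det2 z (-n) = - det2 z n := by simp only [det2, PiLp.neg_apply]; ring
    rw [e]; linarith
  have := Data_lt_of_interior (neg_ne_zero.mpr hn) h' hz
  have e : det2 z (-n) = - det2 z n := by simp only [det2, PiLp.neg_apply]; ring
  rw [e] at this; linarith

/-- Let `e` be a vector, `K` contained in the strip `c0 ≤ det2 · n0 ≤ c0 + det2 e n0`, and write
`X z = det2 z e`.  Let `pR`, `pL` be points with `X pR = x0 + r`, `X pL = x0 - s` (`r, s > 0`)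
such that `K` lies in `x0 - 2 s ≤ X ≤ x0 + 2 r`, the line `X = X pR` meets the interior of `K`
only between `pR - e/2` and `pR` (expressed by two half planes containing `K`) and similarly for
`pL`.  Then `e`, `2 (pR - pL)`, `2 pR` is a double lattice packing of `K`. -/
theorem good_of_data {K : Set Plane} {e pR pL n0 n1 n2 m1 m2 : Plane}
    {c0 c1 c2 d1 d2 x0 : ℝ}
    (hs0 : ∀ z ∈ K, c0 ≤ det2 z n0) (hs1 : ∀ z ∈ K, det2 z n0 ≤ c0 + det2 e n0)
    (hn0 : 0 < det2 e n0)
    (hr : x0 < det2 pR e) (hl : det2 pL e < x0)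
    (hX1 : ∀ z ∈ K, det2 z e ≤ 2 * det2 pR e - x0)
    (hX2 : ∀ z ∈ K, 2 * det2 pL e - x0 ≤ det2 z e)
    (hn1 : n1 ≠ 0) (hn2 : n2 ≠ 0) (hm1 : m1 ≠ 0) (hm2 : m2 ≠ 0)
    (h1 : ∀ z ∈ K, det2 z n1 ≤ c1) (h1p : c1 ≤ det2 pR n1) (h1e : 0 ≤ det2 e n1)
    (h2 : ∀ z ∈ K, det2 z n2 ≤ c2) (h2p : c2 ≤ det2 (pR - (1 / 2 : ℝ) • e) n2)
    (h2e : det2 e n2 ≤ 0)
    (h3 : ∀ z ∈ K, det2 z m1 ≤ d1) (h3p : d1 ≤ det2 pL m1) (h3e : 0 ≤ det2 e m1)
    (h4 : ∀ z ∈ K, det2 z m2 ≤ d2) (h4p : d2 ≤ det2 (pL - (1 / 2 : ℝ) • e) m2)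
    (h4e : det2 e m2 ≤ 0) :
    Good K (2 * (det2 pR e - det2 pL e)) := by
  have hn0' : n0 ≠ 0 := by
    rintro rfl
    simp [det2] at hn0
  have he : e ≠ 0 := by
    rintro rfl
    simp [det2] at hn0
  have hee : det2 e e = 0 := det2_self e
  have hdet : det2 e ((2 : ℝ) • (pR - pL)) = - (2 * (det2 pR e - det2 pL e)) := by
    rw [det2_smul_right, det2_sub_right, det2_swap e pR, det2_swap e pL]; ring
  refine ⟨e, (2 : ℝ) • (pR - pL), (2 : ℝ) • pR, ⟨?_, ?_, ?_⟩, ?_⟩
  · rw [hdet]; apply ne_of_lt; linarith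
  · -- translations
    intro i j hij z hz hz'
    by_cases hj : j = 0
    · subst hj
      have hi : i ≠ 0 := by simpa using hij
      have a1 := Data_gt_of_interior hn0' hs0 hz
      have a2 := Data_lt_of_interior hn0' hs1 hz
      have b1 := Data_gt_of_interior hn0' hs0 hz'
      have b2 := Data_lt_of_interior hn0' hs1 hz'
      have e1 : det2 (z + ((i : ℝ) • e + ((0 : ℤ) : ℝ) • (2 : ℝ) • (pR - pL))) n0
          = det2 z n0 + i * det2 e n0 := by
        rw [det2_add_left, det2_add_left, det2_smul_left, det2_smul_left]; simp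
      rw [e1] at b1 b2
      rcases lt_or_gt_of_ne hi with h | h
      · have : (i : ℝ) ≤ -1 := by exact_mod_cast Int.le_sub_one_of_lt h
        nlinarith
      · have : (1 : ℝ) ≤ i := by exact_mod_cast h
        nlinarith
    · have a1 := Data_gt_of_interior he hX2 hz
      have a2 := Data_lt_of_interior he hX1 hz
      have b1 := Data_gt_of_interior he hX2 hz'
      have b2 := Data_lt_of_interior he hX1 hz'
      have e1 : det2 (z + ((i : ℝ) • e + (j : ℝ) • (2 : ℝ) • (pR - pL))) e
          = det2 z e + j * (2 * (det2 pR e - det2 pL e)) := by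
        simp only [det2_smul_left, det2_add_left, det2_sub_left, hee]; ring
      rw [e1] at b1 b2
      rcases lt_or_gt_of_ne hj with h | h
      · have : (j : ℝ) ≤ -1 := by exact_mod_cast Int.le_sub_one_of_lt h
        nlinarith
      · have : (1 : ℝ) ≤ j := by exact_mod_cast h
        nlinarith
  · -- reflections
    intro i j hz
    have e1 : det2 ((1 / 2 : ℝ) • ((2 : ℝ) • pR + ((i : ℝ) • e + (j : ℝ) • (2 : ℝ) • (pR - pL)))) e
        = det2 pR e + j * (det2 pR e - det2 pL e) := by
      simp only [det2_smul_left, det2_add_left, det2_sub_left, hee]; ring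
    have a1 := Data_gt_of_interior he hX2 hz
    have a2 := Data_lt_of_interior he hX1 hz
    rw [e1] at a1 a2
    have hj1 : j < 1 := by
      by_contra hcon
      have h : (1 : ℝ) ≤ j := by exact_mod_cast not_lt.mp hcon
      nlinarith
    have hj2 : -2 < j := by
      by_contra hcon
      have h : (j : ℝ) ≤ -2 := by exact_mod_cast not_lt.mp hcon
      nlinarith
    have hj : j = 0 ∨ j = -1 := by omega
    rcases hj with rfl | rfl
    · -- the line through pR
      by_cases hi : 0 ≤ i
      · have hb := Data_lt_of_interior hn1 h1 hz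
        have e2 : det2 ((1 / 2 : ℝ) • ((2 : ℝ) • pR + ((i : ℝ) • e + ((0 : ℤ) : ℝ) • (2 : ℝ) •
            (pR - pL)))) n1 = det2 pR n1 + i / 2 * det2 e n1 := by
          simp only [det2_smul_left, det2_add_left, det2_sub_left]; push_cast; ring
        rw [e2] at hb
        have hi' : (0 : ℝ) ≤ i := by exact_mod_cast hi
        have := mul_nonneg (div_nonneg hi' (by norm_num : (0 : ℝ) ≤ 2)) h1e
        linarith
      · have hb := Data_lt_of_interior hn2 h2 hz
        have e2 : det2 ((1 / 2 : ℝ) • ((2 : ℝ) • pR + ((i : ℝ) • e + ((0 : ℤ) : ℝ) • (2 : ℝ) •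
            (pR - pL)))) n2 = det2 (pR - (1 / 2 : ℝ) • e) n2 + (i + 1) / 2 * det2 e n2 := by
          simp only [det2_smul_left, det2_add_left, det2_sub_left]; push_cast; ring
        rw [e2] at hb
        have hi' : (i : ℝ) + 1 ≤ 0 := by
          have : i + 1 ≤ 0 := by omega
          exact_mod_cast this
        have := mul_nonneg (div_nonneg (neg_nonneg.mpr hi') (by norm_num : (0 : ℝ) ≤ 2))
          (neg_nonneg.mpr h2e)
        linarith
    · -- the line through pL
      by_cases hi : 0 ≤ i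
      · have hb := Data_lt_of_interior hm1 h3 hz
        have e2 : det2 ((1 / 2 : ℝ) • ((2 : ℝ) • pR + ((i : ℝ) • e + ((-1 : ℤ) : ℝ) • (2 : ℝ) •
            (pR - pL)))) m1 = det2 pL m1 + i / 2 * det2 e m1 := by
          simp only [det2_smul_left, det2_add_left, det2_sub_left]; push_cast; ring
        rw [e2] at hb
        have hi' : (0 : ℝ) ≤ i := by exact_mod_cast hi
        have := mul_nonneg (div_nonneg hi' (by norm_num : (0 : ℝ) ≤ 2)) h3e
        linarith
      · have hb := Data_lt_of_interior hm2 h4 hz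
        have e2 : det2 ((1 / 2 : ℝ) • ((2 : ℝ) • pR + ((i : ℝ) • e + ((-1 : ℤ) : ℝ) • (2 : ℝ) •
            (pR - pL)))) m2 = det2 (pL - (1 / 2 : ℝ) • e) m2 + (i + 1) / 2 * det2 e m2 := by
          simp only [det2_smul_left, det2_add_left, det2_sub_left]
          push_cast; ring
        rw [e2] at hb
        have hi' : (i : ℝ) + 1 ≤ 0 := by
          have : i + 1 ≤ 0 := by omega
          exact_mod_cast this
        have := mul_nonneg (div_nonneg (neg_nonneg.mpr hi') (by norm_num : (0 : ℝ) ≤ 2))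
          (neg_nonneg.mpr h4e)
        linarith
  · rw [hdet, abs_neg, abs_of_pos (by linarith)]

end Pool.Agent.helper42.PD
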