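import Mathlib

/-!
Packing density of plane convex bodies (MP_7b496a): definitions used by the pentagon theorem.
-/

open MeasureTheory
open scoped ENNReal

namespace Pool.Agent.helper42.PD

/-- The Euclidean plane. -/
abbrev Plane := EuclideanSpace ℝ (Fin 2)

/-- `S` is a congruent copy of `K`: the image of `K` under an isometry of the plane. -/
def IsCopy (K S : Set Plane) : Prop := ∃ g : Plane ≃ᵢ Plane, S = g '' K

/-- A packing by `K`: a family of congruent copies of `K` with pairwise disjoint interiors. -/
def IsPacking (K : Set Plane) (P : Set (Set Plane)) : Prop :=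
  (∀ S ∈ P, IsCopy K S) ∧ P.Pairwise (fun S T => Disjoint (interior S) (interior T))

/-- The (upper) density of a family of plane sets. -/
noncomputable def density (P : Set (Set Plane)) : ℝ≥0∞ :=
  Filter.limsup (fun r : ℝ => volume (Metric.closedBall (0 : Plane) r ∩ ⋃₀ P)
    / volume (Metric.closedBall (0 : Plane) r)) Filter.atTop

/-- The packing density of `K`: the supremum of the densities of all packings by `K`. -/
noncomputable def packingDensity (K : Set Plane) : ℝ≥0∞ :=
  ⨆ (P : Set (Set Plane)) (_ : IsPacking K P), density P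

/-- The determinant of two plane vectors. -/
def det2 (u w : Plane) : ℝ := u 0 * w 1 - u 1 * w 0

/-- Twice the signed area of the triangle `a b c`. -/
def dd (a b c : Plane) : ℝ := det2 (b - a) (c - a)

theorem det2_sub_left (u u' w : Plane) : det2 (u - u') w = det2 u w - det2 u' w := by
  simp only [det2, PiLp.sub_apply]; ring

theorem det2_add_left (u u' w : Plane) : det2 (u + u') w = det2 u w + det2 u' w := by
  simp only [det2, PiLp.add_apply]; ring

theorem det2_smul_left (t : ℝ) (u w : Plane) : det2 (t • u) w = t * det2 u w := by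
  simp only [det2, PiLp.smul_apply, smul_eq_mul]; ring

theorem det2_sub_right (u w w' : Plane) : det2 u (w - w') = det2 u w - det2 u w' := by
  simp only [det2, PiLp.sub_apply]; ring

theorem det2_add_right (u w w' : Plane) : det2 u (w + w') = det2 u w + det2 u w' := by
  simp only [det2, PiLp.add_apply]; ring

theorem det2_smul_right (t : ℝ) (u w : Plane) : det2 u (t • w) = t * det2 u w := by
  simp only [det2, PiLp.smul_apply, smul_eq_mul]; ring

theorem det2_swap (u w : Plane) : det2 u w = - det2 w u := by
  simp only [det2]; ring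

theorem det2_self (u : Plane) : det2 u u = 0 := by
  simp only [det2]; ring

theorem dd_eq (a b c : Plane) :
    dd a b c = (b 0 - a 0) * (c 1 - a 1) - (b 1 - a 1) * (c 0 - a 0) := by
  simp only [dd, det2, PiLp.sub_apply]

/-- `K + (i e₁ + j e₂)` and `c - K + (i e₁ + j e₂)`, `i, j` integers, form a packing
(for convex `K`): this is expressed by conditions on the interior of `K` only. -/
structure DoubleLattice (K : Set Plane) (e₁ e₂ c : Plane) : Prop where
  det_ne : det2 e₁ e₂ ≠ 0
  trans : ∀ i j : ℤ, (i ≠ 0 ∨ j ≠ 0) →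
    ∀ z ∈ interior K, z + ((i : ℝ) • e₁ + (j : ℝ) • e₂) ∉ interior K
  refl : ∀ i j : ℤ, (1 / 2 : ℝ) • (c + ((i : ℝ) • e₁ + (j : ℝ) • e₂)) ∉ interior K

/-- Some double lattice packing of `K` has a fundamental parallelogram (containing one copy of
`K` and one of its reflection) of area at most `F`. -/
def Good (K : Set Plane) (F : ℝ) : Prop :=
  ∃ e₁ e₂ c : Plane, DoubleLattice K e₁ e₂ c ∧ |det2 e₁ e₂| ≤ F

theorem Good.mono {K : Set Plane} {F F' : ℝ} (h : Good K F) (hF : F ≤ F') : Good K F' := by
  obtain ⟨e₁, e₂, c, h1, h2⟩ := h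
  exact ⟨e₁, e₂, c, h1, h2.trans hF⟩

/-- `v 0, …, v 4` are the vertices of a convex pentagon in counterclockwise order. -/
def ConvexPentagon (v : Fin 5 → Plane) : Prop :=
  ∀ i j k : Fin 5, i < j → j < k → 0 < dd (v i) (v j) (v k)

/-- Twice the area of the corner triangle at the vertex `i`. -/
def TT (v : Fin 5 → Plane) (i : Fin 5) : ℝ := dd (v (i - 1)) (v i) (v (i + 1))

/-- Twice the area of the pentagon. -/
def AA (v : Fin 5 → Plane) : ℝ :=
  dd (v 0) (v 1) (v 2) + dd (v 0) (v 2) (v 3) + dd (v 0) (v 3) (v 4)

/-- The defect attached to the side `v j, v (j+1)`. -/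
def ZZ (v : Fin 5 → Plane) (j : Fin 5) : ℝ := AA v - TT v j - TT v (j + 1) - TT v (j + 3)

end Pool.Agent.helper42.PD
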