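import Pool.Agent.helper42.PD.Defs

/-!
PD-1: a double lattice packing gives a lower bound for the packing density.
-/

open MeasureTheory
open scoped ENNReal

namespace Pool.Agent.helper42.PD

/-- The lattice vector `i e₁ + j e₂`. -/
noncomputable def latv (e₁ e₂ : Plane) (p : ℤ × ℤ) : Plane := (p.1 : ℝ) • e₁ + (p.2 : ℝ) • e₂

/-- The isometries `z ↦ z + v` and `z ↦ c + v - z`. -/
noncomputable def gmap (c v : Plane) : Bool → (Plane ≃ᵢ Plane)
  | true => IsometryEquiv.addRight v
  | false => IsometryEquiv.subLeft (c + v)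

theorem gmap_true (c v z : Plane) : gmap c v true z = z + v := rfl

theorem gmap_false (c v z : Plane) : gmap c v false z = c + v - z := rfl

theorem volume_gmap (c v : Plane) (b : Bool) {S : Set Plane} (hS : MeasurableSet S) :
    volume (gmap c v b '' S) = volume S := by
  cases b
  · have h : gmap c v false '' S = (fun t => c + v - t) ⁻¹' S := by
      ext x
      constructor
      · rintro ⟨y, hy, rfl⟩
        simpa [gmap_false] using hy
      · intro hx
        exact ⟨c + v - x, hx, by simp [gmap_false]⟩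
    rw [h]
    exact (Measure.measurePreserving_sub_left volume (c + v)).measure_preimage hS.nullMeasurableSet
  · have h : gmap c v true '' S = (fun t => t + (-v)) ⁻¹' S := by
      ext x
      constructor
      · rintro ⟨y, hy, rfl⟩
        simpa [gmap_true] using hy
      · intro hx
        exact ⟨x + (-v), hx, by simp [gmap_true]⟩
    rw [h]
    exact (measurePreserving_add_right volume (-v)).measure_preimage hS.nullMeasurableSet

theorem interior_gmap (c v : Plane) (b : Bool) (S : Set Plane) :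
    interior (gmap c v b '' S) = gmap c v b '' interior S :=
  ((gmap c v b).toHomeomorph.image_interior S).symm

theorem gmap_disj {K : Set Plane} (hconv : Convex ℝ K) {e₁ e₂ c : Plane}
    (h : DoubleLattice K e₁ e₂ c) {p q : (ℤ × ℤ) × Bool} (hpq : p ≠ q) :
    Disjoint (gmap c (latv e₁ e₂ p.1) p.2 '' interior K)
      (gmap c (latv e₁ e₂ q.1) q.2 '' interior K) := by
  rw [Set.disjoint_left]
  rintro _ ⟨a, ha, rfl⟩ ⟨b, hb, hab⟩
  obtain ⟨⟨i, j⟩, s⟩ := p
  obtain ⟨⟨i', j'⟩, s'⟩ := q
  cases s <;> cases s'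
  · -- both reflected
    have hne : i' - i ≠ 0 ∨ j' - j ≠ 0 := by
      by_contra hcon
      push Not at hcon
      apply hpq
      have h1 : i = i' := by omega
      have h2 : j = j' := by omega
      rw [h1, h2]
    apply h.trans (i' - i) (j' - j) hne a ha
    convert hb using 1
    simp only [gmap_false, latv] at hab
    push_cast
    have : b = c + ((i' : ℝ) • e₁ + (j' : ℝ) • e₂) -
        (c + ((i : ℝ) • e₁ + (j : ℝ) • e₂) - a) := by
      rw [← hab]; abel
    rw [this]
    module
  · -- first reflected, second translated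
    apply h.refl (i - i') (j - j')
    have hmid : (1 / 2 : ℝ) • a + (1 / 2 : ℝ) • b ∈ interior K :=
      hconv.interior ha hb (by norm_num) (by norm_num) (by norm_num)
    convert hmid using 1
    simp only [gmap_false, gmap_true, latv] at hab
    push_cast
    have : b = (c + ((i : ℝ) • e₁ + (j : ℝ) • e₂) - a) -
        ((i' : ℝ) • e₁ + (j' : ℝ) • e₂) := by
      rw [← hab]; abel
    rw [this]
    module
  · apply h.refl (i' - i) (j' - j)
    have hmid : (1 / 2 : ℝ) • a + (1 / 2 : ℝ) • b ∈ interior K :=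
      hconv.interior ha hb (by norm_num) (by norm_num) (by norm_num)
    convert hmid using 1
    simp only [gmap_false, gmap_true, latv] at hab
    push_cast
    have : b = (c + ((i' : ℝ) • e₁ + (j' : ℝ) • e₂)) -
        (a + ((i : ℝ) • e₁ + (j : ℝ) • e₂)) := by
      rw [← hab]; abel
    rw [this]
    module
  · have hne : i - i' ≠ 0 ∨ j - j' ≠ 0 := by
      by_contra hcon
      push Not at hcon
      apply hpq
      have h1 : i = i' := by omega
      have h2 : j = j' := by omega
      rw [h1, h2]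
    apply h.trans (i - i') (j - j') hne a ha
    convert hb using 1
    simp only [gmap_true, latv] at hab
    push_cast
    have : b = (a + ((i : ℝ) • e₁ + (j : ℝ) • e₂)) -
        ((i' : ℝ) • e₁ + (j' : ℝ) • e₂) := by
      rw [← hab]; abel
    rw [this]
    module

/-- The double lattice packing. -/
def dlp (K : Set Plane) (e₁ e₂ c : Plane) : Set (Set Plane) :=
  Set.range (fun p : (ℤ × ℤ) × Bool => gmap c (latv e₁ e₂ p.1) p.2 '' K)

theorem dlp_isPacking {K : Set Plane} (hconv : Convex ℝ K) {e₁ e₂ c : Plane}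
    (h : DoubleLattice K e₁ e₂ c) : IsPacking K (dlp K e₁ e₂ c) := by
  constructor
  · rintro _ ⟨p, rfl⟩
    exact ⟨_, rfl⟩
  · rintro _ ⟨p, rfl⟩ _ ⟨q, rfl⟩ hne
    have hpq : p ≠ q := by
      rintro rfl
      exact hne rfl
    simp only [interior_gmap]
    exact gmap_disj hconv h hpq

/-- Every point is a lattice vector plus a point of the fundamental parallelogram. -/
theorem exists_latv {e₁ e₂ : Plane} (hdet : det2 e₁ e₂ ≠ 0) (x : Plane) :
    ∃ p : ℤ × ℤ, ∃ s t : ℝ, 0 ≤ s ∧ s ≤ 1 ∧ 0 ≤ t ∧ t ≤ 1 ∧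
      x = latv e₁ e₂ p + (s • e₁ + t • e₂) := by
  set a : ℝ := det2 x e₂ / det2 e₁ e₂ with ha
  set b : ℝ := det2 e₁ x / det2 e₁ e₂ with hb
  refine ⟨(⌊a⌋, ⌊b⌋), Int.fract a, Int.fract b, Int.fract_nonneg _, (Int.fract_lt_one _).le,
    Int.fract_nonneg _, (Int.fract_lt_one _).le, ?_⟩
  have h1 : latv e₁ e₂ (⌊a⌋, ⌊b⌋) + (Int.fract a • e₁ + Int.fract b • e₂) = a • e₁ + b • e₂ := by
    simp only [latv]
    have ea : a = ⌊a⌋ + Int.fract a := (Int.floor_add_fract a).symm
    have eb : b = ⌊b⌋ + Int.fract b := (Int.floor_add_fract b).symm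
    nth_rewrite 3 [ea]
    nth_rewrite 3 [eb]
    module
  rw [h1]
  have hx : (det2 e₁ e₂) • x = (det2 x e₂) • e₁ + (det2 e₁ x) • e₂ := by
    ext k
    simp only [PiLp.add_apply, PiLp.smul_apply, smul_eq_mul, det2]
    fin_cases k
    · simp
      ring
    · simp
      ring
  have h2 : x = (det2 e₁ e₂)⁻¹ • ((det2 e₁ e₂) • x) := by
    rw [smul_smul, inv_mul_cancel₀ hdet, one_smul]
  rw [h2, hx, smul_add, smul_smul, smul_smul]
  rw [ha, hb, div_eq_inv_mul, div_eq_inv_mul]

/-- The fundamental parallelogram `{s e₁ + t e₂ : 0 ≤ s, t ≤ 1}` has area `|det (e₁, e₂)|`. -/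
theorem volume_para (e₁ e₂ : Plane) :
    ∃ F : Set Plane, volume F = ENNReal.ofReal |det2 e₁ e₂| ∧
      ∀ s t : ℝ, 0 ≤ s → s ≤ 1 → 0 ≤ t → t ≤ 1 → s • e₁ + t • e₂ ∈ F := by
  set b := EuclideanSpace.basisFun (Fin 2) ℝ with hb
  set L : Plane →ₗ[ℝ] Plane :=
    Matrix.toLin b.toBasis b.toBasis !![e₁ 0, e₂ 0; e₁ 1, e₂ 1] with hL
  have hdet : LinearMap.det L = det2 e₁ e₂ := by
    rw [hL, LinearMap.det_toLin, Matrix.det_fin_two_of, det2]
    ring
  have h0 : L (b 0) = e₁ := by
    have := Matrix.toLin_self b.toBasis b.toBasis !![e₁ 0, e₂ 0; e₁ 1, e₂ 1] 0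
    rw [OrthonormalBasis.coe_toBasis] at this
    rw [hL, this]
    ext k
    fin_cases k <;> simp [Fin.sum_univ_two, hb]
  have h1 : L (b 1) = e₂ := by
    have := Matrix.toLin_self b.toBasis b.toBasis !![e₁ 0, e₂ 0; e₁ 1, e₂ 1] 1
    rw [OrthonormalBasis.coe_toBasis] at this
    rw [hL, this]
    ext k
    fin_cases k <;> simp [Fin.sum_univ_two, hb]
  refine ⟨L '' parallelepiped b, ?_, ?_⟩
  · rw [Measure.addHaar_image_linearMap, hdet, b.volume_parallelepiped, mul_one]
  · intro s t hs0 hs1 ht0 ht1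
    refine ⟨s • b 0 + t • b 1, ?_, ?_⟩
    · rw [mem_parallelepiped_iff]
      refine ⟨![s, t], ⟨?_, ?_⟩, ?_⟩
      · intro i; fin_cases i <;> simpa
      · intro i; fin_cases i <;> simpa
      · simp [Fin.sum_univ_two]
    · rw [map_add, map_smul, map_smul, h0, h1]

theorem tsum_prod_bool {S : Type*} (a : ℝ≥0∞) :
    ∑' _ : S × Bool, a = ∑' _ : S, 2 * a := by
  rw [ENNReal.tsum_prod (f := fun (_ : S) (_ : Bool) => a)]
  congr 1
  ext s
  rw [tsum_bool]
  ring

theorem volume_iUnion_gmap {K : Set Plane} (hconv : Convex ℝ K) {e₁ e₂ c : Plane}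
    (h : DoubleLattice K e₁ e₂ c) (hKm : volume (interior K) = volume K) (S : Set (ℤ × ℤ)) :
    volume (⋃ p : S × Bool, gmap c (latv e₁ e₂ p.1.1) p.2 '' interior K) =
      ∑' _ : S × Bool, volume K := by
  have hd : Pairwise (Function.onFun Disjoint
      (fun p : S × Bool => gmap c (latv e₁ e₂ p.1.1) p.2 '' interior K)) := by
    intro p q hpq
    have h1 : ((p.1.1, p.2) : (ℤ × ℤ) × Bool) ≠ (q.1.1, q.2) := by
      intro heq
      apply hpq
      obtain ⟨⟨p1, hp1⟩, p2⟩ := p
      obtain ⟨⟨q1, hq1⟩, q2⟩ := q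
      simp only [Prod.mk.injEq] at heq
      obtain ⟨h1, h2⟩ := heq
      subst h1
      subst h2
      rfl
    have h2 := gmap_disj hconv h h1
    exact h2
  have hm : ∀ p : S × Bool, MeasurableSet (gmap c (latv e₁ e₂ p.1.1) p.2 '' interior K) := by
    intro p
    exact ((gmap c (latv e₁ e₂ p.1.1) p.2).toHomeomorph.isOpenMap _
      isOpen_interior).measurableSet
  rw [measure_iUnion hd hm]
  congr 1
  ext p
  rw [volume_gmap _ _ _ isOpen_interior.measurableSet, hKm]

/-- The basic inequality. -/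
theorem volume_ball_inter_dlp {K : Set Plane} (hconv : Convex ℝ K) {e₁ e₂ c : Plane}
    (h : DoubleLattice K e₁ e₂ c) {M : ℝ} (hM1 : ∀ z ∈ K, ‖z‖ ≤ M) (hM2 : ∀ z ∈ K, ‖c - z‖ ≤ M)
    (hKm : volume (interior K) = volume K) (r : ℝ) :
    2 * volume K * volume (Metric.closedBall (0 : Plane) (r - (M + (‖e₁‖ + ‖e₂‖)))) ≤
      volume (Metric.closedBall (0 : Plane) r ∩ ⋃₀ dlp K e₁ e₂ c) *
        ENNReal.ofReal |det2 e₁ e₂| := by
  set D : ℝ := ‖e₁‖ + ‖e₂‖ with hD
  set S : Set (ℤ × ℤ) := {p | ‖latv e₁ e₂ p‖ ≤ r - M} with hS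
  obtain ⟨F, hF, hFm⟩ := volume_para e₁ e₂
  -- covering
  have hcov : volume (Metric.closedBall (0 : Plane) (r - (M + D))) ≤
      ∑' _ : S, ENNReal.ofReal |det2 e₁ e₂| := by
    have hsub : Metric.closedBall (0 : Plane) (r - (M + D)) ⊆
        ⋃ p : S, (fun t => (latv e₁ e₂ p.1) + t) '' F := by
      intro x hx
      obtain ⟨p, s, t, hs0, hs1, ht0, ht1, hxp⟩ := exists_latv h.det_ne x
      have hx' : ‖x‖ ≤ r - (M + D) := by simpa using hx
      have hn1 : ‖s • e₁ + t • e₂‖ ≤ D := by
        calc ‖s • e₁ + t • e₂‖ ≤ ‖s • e₁‖ + ‖t • e₂‖ := norm_add_le _ _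
          _ = s * ‖e₁‖ + t * ‖e₂‖ := by
            rw [norm_smul, norm_smul, Real.norm_of_nonneg hs0, Real.norm_of_nonneg ht0]
          _ ≤ 1 * ‖e₁‖ + 1 * ‖e₂‖ := by gcongr
          _ = D := by rw [one_mul, one_mul]
      have hn2 : ‖latv e₁ e₂ p‖ ≤ r - M := by
        have : latv e₁ e₂ p = x - (s • e₁ + t • e₂) := by rw [hxp]; abel
        rw [this]
        have := norm_sub_le x (s • e₁ + t • e₂)
        linarith
      rw [Set.mem_iUnion]
      exact ⟨⟨p, hn2⟩, s • e₁ + t • e₂, hFm s t hs0 hs1 ht0 ht1, hxp.symm⟩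
    calc volume (Metric.closedBall (0 : Plane) (r - (M + D)))
        ≤ volume (⋃ p : S, (fun t => (latv e₁ e₂ p.1) + t) '' F) := measure_mono hsub
      _ ≤ ∑' p : S, volume ((fun t => (latv e₁ e₂ p.1) + t) '' F) := measure_iUnion_le _
      _ = ∑' _ : S, ENNReal.ofReal |det2 e₁ e₂| := by
        congr 1
        ext p
        rw [Set.image_add_left, measure_preimage_add, hF]
  -- packing
  have hpack : ∑' _ : S, 2 * volume K ≤
      volume (Metric.closedBall (0 : Plane) r ∩ ⋃₀ dlp K e₁ e₂ c) := by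
    rw [← tsum_prod_bool]
    have hsub : (⋃ p : S × Bool, gmap c (latv e₁ e₂ p.1.1) p.2 '' interior K) ⊆
        Metric.closedBall (0 : Plane) r ∩ ⋃₀ dlp K e₁ e₂ c := by
      intro x hx
      rw [Set.mem_iUnion] at hx
      obtain ⟨⟨⟨p, hp⟩, s⟩, z, hz, rfl⟩ := hx
      have hzK : z ∈ K := interior_subset hz
      have hp' : ‖latv e₁ e₂ p‖ ≤ r - M := hp
      constructor
      · rw [mem_closedBall_zero_iff]
        cases s
        · simp only [gmap_false]
          have : c + latv e₁ e₂ p - z = (c - z) + latv e₁ e₂ p := by abel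
          rw [this]
          have h1 := norm_add_le (c - z) (latv e₁ e₂ p)
          have h2 := hM2 z hzK
          linarith
        · simp only [gmap_true]
          have h1 := norm_add_le z (latv e₁ e₂ p)
          have h2 := hM1 z hzK
          linarith
      · exact ⟨_, ⟨(p, s), rfl⟩, z, hzK, rfl⟩
    refine le_trans (le_of_eq ?_) (measure_mono hsub)
    exact (volume_iUnion_gmap hconv h hKm S).symm
  calc 2 * volume K * volume (Metric.closedBall (0 : Plane) (r - (M + D)))
      ≤ 2 * volume K * ∑' _ : S, ENNReal.ofReal |det2 e₁ e₂| := by gcongr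
    _ = (∑' _ : S, 2 * volume K) * ENNReal.ofReal |det2 e₁ e₂| := by
      rw [← ENNReal.tsum_mul_left, ← ENNReal.tsum_mul_right]
    _ ≤ _ := by gcongr

/-- If `K` is a compact convex set with nonempty interior and the translates of `K` and of
`c - K` by the lattice spanned by `e₁, e₂` form a packing, then the packing density of `K` is at
least `2 area(K) / |det (e₁, e₂)|`. -/
theorem density_of_doubleLattice {K : Set Plane} (hconv : Convex ℝ K) (hcomp : IsCompact K)
    (hint : (interior K).Nonempty) {e₁ e₂ c : Plane} (h : DoubleLattice K e₁ e₂ c) :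
    2 * volume K / ENNReal.ofReal |det2 e₁ e₂| ≤ packingDensity K := by
  -- bounds
  obtain ⟨R, hR⟩ := hcomp.isBounded.exists_norm_le
  set M : ℝ := R + ‖c‖ with hM
  have hM1 : ∀ z ∈ K, ‖z‖ ≤ M := fun z hz => by
    have := hR z hz
    have := norm_nonneg c
    linarith
  have hM2 : ∀ z ∈ K, ‖c - z‖ ≤ M := fun z hz => by
    have h1 := hR z hz
    have h2 := norm_sub_le c z
    linarith
  have hKm : volume (interior K) = volume K := by
    apply le_antisymm (measure_mono interior_subset)
    have hsub : K ⊆ interior K ∪ frontier K := by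
      intro x hx
      by_cases hxi : x ∈ interior K
      · exact Or.inl hxi
      · exact Or.inr ⟨subset_closure hx, hxi⟩
    calc volume K ≤ volume (interior K ∪ frontier K) := measure_mono hsub
      _ ≤ volume (interior K) + volume (frontier K) := measure_union_le _ _
      _ = volume (interior K) := by rw [hconv.addHaar_frontier volume, add_zero]
  have hbasic := volume_ball_inter_dlp hconv h hM1 hM2 hKm
  set C : ℝ := M + (‖e₁‖ + ‖e₂‖) with hC
  have hdpos : 0 < |det2 e₁ e₂| := abs_pos.mpr h.det_ne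
  set d : ℝ≥0∞ := ENNReal.ofReal |det2 e₁ e₂| with hd
  have hd0 : d ≠ 0 := by rw [hd]; simpa using hdpos
  have hdt : d ≠ ⊤ := ENNReal.ofReal_ne_top
  have hdens : 2 * volume K / d ≤ density (dlp K e₁ e₂ c) := by
    -- the lower function
    have hlim : Filter.Tendsto (fun r : ℝ => (2 * volume K / d) *
        ENNReal.ofReal (((r - C) / r) ^ 2)) Filter.atTop (nhds (2 * volume K / d)) := by
      have h1 : Filter.Tendsto (fun r : ℝ => ((r - C) / r) ^ 2) Filter.atTop (nhds 1) := by
        have h2 : Filter.Tendsto (fun r : ℝ => (1 - C * r⁻¹) ^ 2) Filter.atTop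
            (nhds ((1 - C * 0) ^ 2)) :=
          ((tendsto_const_nhds (x := (1 : ℝ))).sub
            ((tendsto_const_nhds (x := C)).mul tendsto_inv_atTop_zero)).pow 2
        have h3 : ((1 : ℝ) - C * 0) ^ 2 = 1 := by ring
        rw [h3] at h2
        refine h2.congr' ?_
        filter_upwards [Filter.eventually_gt_atTop 0] with r hr
        field_simp
      have h4 : Filter.Tendsto (fun r : ℝ => ENNReal.ofReal (((r - C) / r) ^ 2)) Filter.atTop
          (nhds 1) := by
        have := ENNReal.tendsto_ofReal h1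
        simpa using this
      have h5 := ENNReal.Tendsto.const_mul (a := 2 * volume K / d) h4 (Or.inl one_ne_zero)
      simpa using h5
    rw [← hlim.limsup_eq]
    unfold density
    have hev : ∀ᶠ r : ℝ in Filter.atTop, (2 * volume K / d) *
        ENNReal.ofReal (((r - C) / r) ^ 2) ≤
        volume (Metric.closedBall (0 : Plane) r ∩ ⋃₀ dlp K e₁ e₂ c)
          / volume (Metric.closedBall (0 : Plane) r) := by
      filter_upwards [Filter.eventually_gt_atTop (max C 0)] with r hr
      have hrC : C < r := lt_of_le_of_lt (le_max_left _ _) hr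
      have hr0 : 0 < r := lt_of_le_of_lt (le_max_right _ _) hr
      have hb := hbasic r
      rw [Measure.addHaar_closedBall volume (0 : Plane) (by linarith : 0 ≤ r - C)] at hb
      rw [Measure.addHaar_closedBall volume (0 : Plane) hr0.le]
      have hfr : Module.finrank ℝ Plane = 2 := by simp
      rw [hfr] at hb ⊢
      set B1 : ℝ≥0∞ := volume (Metric.ball (0 : Plane) 1) with hB1
      have hB0 : B1 ≠ 0 := (Metric.measure_ball_pos volume (0 : Plane) one_pos).ne'
      have hBt : B1 ≠ ⊤ := measure_ball_lt_top.ne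
      have hr2 : ENNReal.ofReal (r ^ 2) ≠ 0 := (ENNReal.ofReal_pos.mpr (by positivity)).ne'
      have hr2t : ENNReal.ofReal (r ^ 2) ≠ ⊤ := ENNReal.ofReal_ne_top
      rw [ENNReal.le_div_iff_mul_le (Or.inl (mul_ne_zero hr2 hB0))
        (Or.inl (ENNReal.mul_ne_top hr2t hBt))]
      have h6 : ENNReal.ofReal (((r - C) / r) ^ 2) * ENNReal.ofReal (r ^ 2) =
          ENNReal.ofReal ((r - C) ^ 2) := by
        rw [← ENNReal.ofReal_mul (by positivity)]
        congr 1
        field_simp
      calc 2 * volume K / d * ENNReal.ofReal (((r - C) / r) ^ 2) *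
            (ENNReal.ofReal (r ^ 2) * B1)
          = (2 * volume K * ((ENNReal.ofReal (((r - C) / r) ^ 2) * ENNReal.ofReal (r ^ 2)) *
              B1)) / d := by
            generalize ENNReal.ofReal (((r - C) / r) ^ 2) = w1
            generalize ENNReal.ofReal (r ^ 2) = w2
            rw [div_eq_mul_inv, div_eq_mul_inv]; ring
        _ = (2 * volume K * (ENNReal.ofReal ((r - C) ^ 2) * B1)) / d := by rw [h6]
        _ ≤ (volume (Metric.closedBall (0 : Plane) r ∩ ⋃₀ dlp K e₁ e₂ c) * d) / d := by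
            gcongr
        _ = _ := ENNReal.mul_div_cancel_right hd0 hdt
    exact Filter.limsup_le_limsup hev
  exact hdens.trans (le_iSup₂_of_le (dlp K e₁ e₂ c) (dlp_isPacking hconv h) le_rfl)

/-- Consequence in the form used below. -/
theorem Good.packingDensity_ge {K : Set Plane} (hconv : Convex ℝ K) (hcomp : IsCompact K)
    (hint : (interior K).Nonempty) {F B : ℝ} (hF : 0 < F) (hG : Good K F)
    (hB : ENNReal.ofReal B ≤ volume K) :
    ENNReal.ofReal (2 * B / F) ≤ packingDensity K := by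
  obtain ⟨e₁, e₂, c, h, hle⟩ := hG
  refine le_trans ?_ (density_of_doubleLattice hconv hcomp hint h)
  rw [ENNReal.ofReal_div_of_pos hF, ENNReal.ofReal_mul (by norm_num : (0 : ℝ) ≤ 2)]
  have h2 : ENNReal.ofReal (2 : ℝ) = 2 := by simp
  rw [h2]
  gcongr

end Pool.Agent.helper42.PD
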