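import Mathlib

/-!
PD-7: the inequality for pentagons with a negative defect `z 2 < 0`.

`zeta = (3√5-5)/20 = 0.0854...`.  PROOF.  Put `Om = t2 t3/(-z2) > 0`, `a = t2/Om`, `b = t3/Om`,
`x = t1/t2`, `x' = t4/t3`, `y = (1 - t1 - t4)/Om`, `tau = t0/Om`, `Ya = y - a`, `Yb = y - b`,
`sa = x + Ya`, `sb = x' + Yb`, `D = 1/Om`.  From the relation one gets (polynomial identities
modulo the relation; e.g. `z1 z2 + t2 z4 = t1 t3`, `z2 z3 + t3 z0 = t2 t4`)
 `x + x' + y = 1`, `D = y + a x + b x'`, `tau = x Yb + Ya sb = x' Ya + Yb sa`,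
 `z1 = Ya/D`, `z3 = Yb/D`, `z4 = b sa/D`, `z0 = a sb/D`, `-z2 = a b/D`.
Suppose the conclusion fails and put `k = zeta D`.
 MAIN CASE `Ya >= 0`, `Yb >= 0` (then `sa, sb > 0`): `x Ya > k`, `x' Yb > k`;
 and `b sa < a x` or `a^2 x > k sa`; `a sb < b x'` or `b^2 x' > k sb`.  In all cases
 `a^2 > k + k^2/x^2` and `b^2 > k + k^2/x'^2`: if `b sa < a x` then `b < a`, the second
 alternative holds for `b`, and `a > b sa/x = b (1 + Ya/x) > b (1 + k/x^2)`.
 Then `y > k/x + a` gives `(y - k/x)^2 > k + k^2/x^2`, i.e. `k (x + 2y) < x y^2`, same for `x'`;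
 with the smaller of `x, x'` (`<= w/2`, `w = 1 - y`): `k (1 + 3y) < (1-y) y^2`.
 And `D - y = a x + b x' `, so `(D - y)^2 > k w^2 + 4 k^2` (Cauchy).
 With `D = k/zeta` this contradicts: the quadratic
 `Psi(k) = (k/zeta - y)^2 - k w^2 - 4 k^2` is negative on `[zeta y, K0]`,
 `K0 = (1-y) y^2/(1+3y)`: it is negative at `zeta y` and at `K0`
 (`y (1-y) < zeta (2 + 3y - y^2)` for all `y`) and convex.
 CASE `Ya < 0` (the case `Yb < 0` is the mirror image): `tau > 0` forces `Yb > 0`, `sa > 0`; `b < y < a`,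
 `a sb >= b x'`.  So `x' Yb > k`, `b^2 x' > k sb`, and `tau n > k Yb` with `n = - Ya > 0`
 (`tau <= x Yb < Yb`).  If `x' <= x`: `b^2 > k + k^2/x'^2`, `D >= y + b w`, same contradiction.
 If `x' > x` (so `x < 1/2`): `n (x Yb - n sb) <= x^2 Yb^2/(4 sb)`, so
 `k < x^2 Yb/(4 (x' + Yb)) <= x^2 y/(4 (1 - x))`, while `k = zeta D > zeta y (1 + x)`:
 contradiction as `x^2 <= 4 zeta (1 - x^2)` for `x <= 1/2`.
(Everything was checked numerically: the maximum of the minimum is 0.0790 < zeta.)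
-/

namespace Pool.Agent.helper42.PD

/-- the final contradiction -/
private theorem IneqN_fin {c y k D : ℝ} (hy : 0 < y) (hy1 : y < 1) (hc : 0 < c)
    (hcy : y * (1 - y) < c * (2 + 3 * y - y ^ 2)) (hk : k = c * D)
    (h1 : k * (1 + 3 * y) < (1 - y) * y ^ 2) (hD : y < D)
    (h2 : k * (1 - y) ^ 2 + 4 * k ^ 2 < (D - y) ^ 2) : False := by
  have hD0 : 0 < D := hy.trans hD
  have hk0 : 0 < k := by rw [hk]; positivity
  have hw : 0 < 1 - y := by linarith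
  -- `y (D - y) < k (1 + y)`
  have h3 : y * (D - y) < k * (1 + y) := by
    by_contra hcon
    push Not at hcon
    have e1 : y ^ 2 ≤ D * (y - c * (1 + y)) := by rw [hk] at hcon; nlinarith
    have e2 : (1 - y) * y ^ 2 ≤ (1 - y) * (D * (y - c * (1 + y))) :=
      mul_le_mul_of_nonneg_left e1 hw.le
    have e3 : c * D * (1 + 3 * y) < (1 - y) * (D * (y - c * (1 + y))) := by
      rw [hk] at h1
      linarith
    have e4 : 0 < D * ((1 - y) * (y - c * (1 + y)) - c * (1 + 3 * y)) := by nlinarith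
    have e5 : 0 < (1 - y) * (y - c * (1 + y)) - c * (1 + 3 * y) := by
      by_contra h
      push Not at h
      nlinarith [mul_nonneg hD0.le (neg_nonneg.2 h)]
    nlinarith
  have h4 : 0 < y * (D - y) := mul_pos hy (by linarith)
  have h5 : (y * (D - y)) ^ 2 < (k * (1 + y)) ^ 2 := by nlinarith
  have h6 : 0 ≤ k * (1 - y) * ((1 - y) * y ^ 2 - k * (1 + 3 * y)) :=
    mul_nonneg (mul_nonneg hk0.le hw.le) (by linarith)
  have h7 : (k * (1 - y) ^ 2 + 4 * k ^ 2) * y ^ 2 < (D - y) ^ 2 * y ^ 2 :=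
    mul_lt_mul_of_pos_right h2 (by positivity)
  nlinarith

/-- one side: lower bound for `b` -/
private theorem IneqN_side {x y b k : ℝ} (hx : 0 < x) (hk : 0 < k)
    (h1 : k < x * (y - b)) (h2 : k * (x + (y - b)) < b ^ 2 * x) :
    k * x ^ 2 + k ^ 2 < (b * x) ^ 2 := by
  have e1 : k * (x + (y - b)) * x < b ^ 2 * x * x := mul_lt_mul_of_pos_right h2 hx
  have e2 : k * k < k * (x * (y - b)) := mul_lt_mul_of_pos_left h1 hk
  nlinarith

/-- one side: `k (x + 2 y) < x y ^ 2` -/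
private theorem IneqN_side2 {x y b k : ℝ} (hx : 0 < x) (hb : 0 < b)
    (h1 : k < x * (y - b)) (h2 : k * x ^ 2 + k ^ 2 < (b * x) ^ 2) :
    k * (x + 2 * y) < x * y ^ 2 := by
  have e1 : b * x < x * y - k := by nlinarith
  have e2 : 0 < b * x := mul_pos hb hx
  have e3 : (b * x) ^ 2 < (x * y - k) ^ 2 := by nlinarith
  have e4 : x * (k * (x + 2 * y)) < x * (x * y ^ 2) := by nlinarith
  exact lt_of_mul_lt_mul_left e4 hx.le

private theorem IneqN_half {x y k : ℝ} (hx : 0 < x) (hy : 0 < y) (hk : 0 < k)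
    (h1 : k * (x + 2 * y) < x * y ^ 2) (h2 : 2 * x ≤ 1 - y) :
    k * (1 + 3 * y) < (1 - y) * y ^ 2 := by
  have e1 : 2 * k * y < x * (y ^ 2 - k) := by nlinarith
  have e2 : 0 < x * (y ^ 2 - k) := lt_trans (by positivity) e1
  have e3 : 0 < y ^ 2 - k := by
    by_contra h
    push Not at h
    nlinarith [mul_nonneg hx.le (neg_nonneg.2 h)]
  have e4 : 2 * x * (y ^ 2 - k) ≤ (1 - y) * (y ^ 2 - k) := mul_le_mul_of_nonneg_right h2 e3.le
  nlinarith

/-- main case: the bound for `a` from the two alternatives -/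
private theorem IneqN_alt {x x' y a b k : ℝ} (hx : 0 < x) (hx' : 0 < x') (ha : 0 < a)
    (hb : 0 < b) (hk : 0 < k) (h1 : k < x * (y - a)) (h2 : k < x' * (y - b))
    (h3 : b * (x + (y - a)) < a * x ∨ k * (x + (y - a)) < a ^ 2 * x)
    (h4 : a * (x' + (y - b)) < b * x' ∨ k * (x' + (y - b)) < b ^ 2 * x') :
    k * x ^ 2 + k ^ 2 < (a * x) ^ 2 := by
  have hYa : 0 < y - a := by
    by_contra h
    push Not at h
    nlinarith [mul_nonneg hx.le (neg_nonneg.2 h)]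
  have hYb : 0 < y - b := by
    by_contra h
    push Not at h
    nlinarith [mul_nonneg hx'.le (neg_nonneg.2 h)]
  rcases h3 with h3 | h3
  · have hab : b < a := by
      have e1 : b * x < a * x := by nlinarith [mul_pos hb hYa]
      exact lt_of_mul_lt_mul_right e1 hx.le
    have h4' : k * (x' + (y - b)) < b ^ 2 * x' := by
      rcases h4 with h4 | h4
      · exfalso
        have e1 : a * x' < b * x' := by nlinarith [mul_pos ha hYb]
        have := lt_of_mul_lt_mul_right e1 hx'.le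
        linarith
      · exact h4
    have hB := IneqN_side hx' hk h2 h4'
    have hb2 : k < b ^ 2 := by
      have e1 : k * x' ^ 2 < b ^ 2 * x' ^ 2 := by nlinarith [sq_nonneg k]
      exact lt_of_mul_lt_mul_right e1 (by positivity)
    -- `a x ^ 2 > b (x ^ 2 + k)`
    have e2 : b * (x ^ 2 + k) < a * x ^ 2 := by
      have e3 : b * (x + (y - a)) * x < a * x * x := mul_lt_mul_of_pos_right h3 hx
      have e4 : b * k < b * (x * (y - a)) := mul_lt_mul_of_pos_left h1 hb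
      nlinarith
    have e5 : 0 < b * (x ^ 2 + k) := by positivity
    have e6 : (b * (x ^ 2 + k)) ^ 2 < (a * x ^ 2) ^ 2 := by nlinarith
    have e7 : k * (x ^ 2 + k) ^ 2 < b ^ 2 * (x ^ 2 + k) ^ 2 :=
      mul_lt_mul_of_pos_right hb2 (by positivity)
    have e8 : 0 < k ^ 2 * (x ^ 2 + k) := by positivity
    have e9 : x ^ 2 * (k * x ^ 2 + k ^ 2) < x ^ 2 * (a * x) ^ 2 := by nlinarith
    exact lt_of_mul_lt_mul_left e9 (by positivity)
  · exact IneqN_side hx hk h1 h3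

private theorem IneqN_main {c x x' y a b k D : ℝ} (hc : 0 < c) (hx : 0 < x) (hx' : 0 < x')
    (hy : 0 < y) (hsum : x + x' + y = 1) (ha : 0 < a) (hb : 0 < b)
    (hD : D = y + a * x + b * x') (hk : k = c * D)
    (hcy : y * (1 - y) < c * (2 + 3 * y - y ^ 2))
    (h1 : k < x * (y - a)) (h2 : k < x' * (y - b))
    (h3 : b * (x + (y - a)) < a * x ∨ k * (x + (y - a)) < a ^ 2 * x)
    (h4 : a * (x' + (y - b)) < b * x' ∨ k * (x' + (y - b)) < b ^ 2 * x') : False := by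
  have hax : 0 < a * x := mul_pos ha hx
  have hbx : 0 < b * x' := mul_pos hb hx'
  have hDy : y < D := by rw [hD]; linarith
  have hk0 : 0 < k := by
    rw [hk]
    exact mul_pos hc (hy.trans hDy)
  have hA := IneqN_alt hx hx' ha hb hk0 h1 h2 h3 h4
  have hB := IneqN_alt hx' hx hb ha hk0 h2 h1 h4 h3
  have hw : 1 - y = x + x' := by linarith
  -- the first condition
  have g1 : k * (1 + 3 * y) < (1 - y) * y ^ 2 := by
    rcases le_total x x' with h | h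
    · exact IneqN_half hx hy hk0 (IneqN_side2 hx ha h1 hA) (by linarith)
    · exact IneqN_half hx' hy hk0 (IneqN_side2 hx' hb h2 hB) (by linarith)
  -- the second condition
  have e1 : k * x * x' + k ^ 2 < a * x * (b * x') := by
    have e2 : (k * x * x' + k ^ 2) ^ 2 < (a * x * (b * x')) ^ 2 := by
      have e3 : (k * x ^ 2 + k ^ 2) * (k * x' ^ 2 + k ^ 2) < (a * x) ^ 2 * (b * x') ^ 2 :=
        mul_lt_mul'' hA hB (by positivity) (by positivity)
      have e4 : 0 ≤ k ^ 3 * (x - x') ^ 2 := by positivity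
      nlinarith
    exact lt_of_pow_lt_pow_left₀ 2 (by positivity) e2
  refine IneqN_fin hy (by linarith) hc hcy hk g1 hDy ?_
  have e5 : D - y = a * x + b * x' := by rw [hD]; ring
  rw [e5, hw]
  nlinarith

/-- the case of a negative `y - a` -/
private theorem IneqN_neg {c x x' y a b k D : ℝ} (hc : 1 / 12 ≤ c) (hx : 0 < x) (hx' : 0 < x')
    (hy : 0 < y) (hsum : x + x' + y = 1) (hb : 0 < b)
    (hD : D = y + a * x + b * x') (hk : k = c * D)
    (hcy : y * (1 - y) < c * (2 + 3 * y - y ^ 2)) (hya : y < a) (hyb : b < y)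
    (h2 : k < x' * (y - b)) (h4 : k * (x' + (y - b)) < b ^ 2 * x')
    (h5 : k * (y - b) < (x * (y - b) + (y - a) * (x' + (y - b))) * (a - y)) : False := by
  have hc0 : 0 < c := by linarith
  have hax : 0 < a * x := mul_pos (hy.trans hya) hx
  have hbx : 0 < b * x' := mul_pos hb hx'
  have hDy : y < D := by rw [hD]; linarith
  have hk0 : 0 < k := by
    rw [hk]
    exact mul_pos hc0 (hy.trans hDy)
  have hYb : 0 < y - b := by linarith
  have hw : 1 - y = x + x' := by linarith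
  rcases le_total x' x with hxx | hxx
  · have hB := IneqN_side hx' hk0 h2 h4
    have g1 := IneqN_half hx' hy hk0 (IneqN_side2 hx' hb h2 hB) (by linarith)
    refine IneqN_fin hy (by linarith) hc0 hcy hk g1 hDy ?_
    -- `D - y ≥ b w`
    have e1 : b * (x + x') ≤ D - y := by
      rw [hD]
      nlinarith
    have e2 : 0 < b * (x + x') := by positivity
    have e3 : (b * (x + x')) ^ 2 ≤ (D - y) ^ 2 := by nlinarith
    rw [hw]
    -- `b ^ 2 w ^ 2 x' ^ 2 > (k x' ^ 2 + k ^ 2) w ^ 2 ≥ x' ^ 2 (k w ^ 2 + 4 k ^ 2)`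
    have e4 : (k * x' ^ 2 + k ^ 2) * (x + x') ^ 2 < (b * x') ^ 2 * (x + x') ^ 2 :=
      mul_lt_mul_of_pos_right hB (by positivity)
    have e5 : 0 ≤ k ^ 2 * ((x + x') ^ 2 - 4 * x' ^ 2) := by
      apply mul_nonneg (by positivity)
      nlinarith
    have e6 : x' ^ 2 * (k * (x + x') ^ 2 + 4 * k ^ 2) < x' ^ 2 * (b * (x + x')) ^ 2 := by nlinarith
    have e7 := lt_of_mul_lt_mul_left e6 (by positivity)
    linarith
  · -- `x < 1 / 2`
    have hx2 : x < 1 / 2 := by linarith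
    obtain ⟨Y, hY⟩ : ∃ Y, Y = y - b := ⟨_, rfl⟩
    obtain ⟨S, hS⟩ : ∃ S, S = x' + Y := ⟨_, rfl⟩
    obtain ⟨m, hm⟩ : ∃ m, m = a - y := ⟨_, rfl⟩
    have hY0 : 0 < Y := by rw [hY]; exact hYb
    have hS0 : 0 < S := by rw [hS]; linarith
    have hm0 : 0 < m := by rw [hm]; linarith
    have h5' : k * Y < (x * Y - m * S) * m := by
      have e : (y - a) = -m := by rw [hm]; ring
      rw [e, ← hY, ← hS, ← hm] at h5
      linarith
    -- `4 S m (x Y - m S) ≤ x ^ 2 Y ^ 2`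
    have e1 : 4 * S * ((x * Y - m * S) * m) ≤ x ^ 2 * Y ^ 2 := by
      nlinarith [sq_nonneg (x * Y - 2 * (m * S))]
    have e2 : 4 * S * (k * Y) < x ^ 2 * Y ^ 2 :=
      lt_of_lt_of_le (mul_lt_mul_of_pos_left h5' (by positivity)) e1
    have e3 : 4 * S * k < x ^ 2 * Y := by
      have e : Y * (4 * S * k) < Y * (x ^ 2 * Y) := by
        have e' : Y * (4 * S * k) = 4 * S * (k * Y) := by ring
        have e'' : Y * (x ^ 2 * Y) = x ^ 2 * Y ^ 2 := by ring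
        rw [e', e'']
        exact e2
      exact lt_of_mul_lt_mul_left e hY0.le
    -- `4 (1 - x) k < x ^ 2 y`
    have e4 : 4 * (1 - x) * k < x ^ 2 * y := by
      have e5 : x' * (4 * k) < (x ^ 2 - 4 * k) * Y := by
        have e' : 4 * S * k = x' * (4 * k) + 4 * k * Y := by rw [hS]; ring
        have e'' : (x ^ 2 - 4 * k) * Y = x ^ 2 * Y - 4 * k * Y := by ring
        rw [e'']
        rw [e'] at e3
        linarith
      have e6 : 0 < (x ^ 2 - 4 * k) * Y := lt_trans (by positivity) e5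
      have e7 : 0 < x ^ 2 - 4 * k := by
        rcases lt_or_ge 0 (x ^ 2 - 4 * k) with h | h
        · exact h
        · exact absurd e6 (not_lt.2 (mul_nonpos_of_nonpos_of_nonneg h hY0.le))
      have e8 : (x ^ 2 - 4 * k) * Y ≤ (x ^ 2 - 4 * k) * y :=
        mul_le_mul_of_nonneg_left (by rw [hY]; linarith) e7.le
      have e9 : 4 * (1 - x) * k = x' * (4 * k) + 4 * k * y := by
        have : 1 - x = x' + y := by linarith
        rw [this]; ring
      have e10 : (x ^ 2 - 4 * k) * y = x ^ 2 * y - 4 * k * y := by ring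
      rw [e9]
      linarith
    -- `k > c y (1 + x)`
    have e10 : c * (y * (1 + x)) < k := by
      rw [hk]
      apply mul_lt_mul_of_pos_left _ hc0
      have : y * x < a * x := mul_lt_mul_of_pos_right hya hx
      rw [hD]
      linarith
    have e11 : 4 * (1 - x) * (c * (y * (1 + x))) < x ^ 2 * y :=
      lt_trans (mul_lt_mul_of_pos_left e10 (by linarith)) e4
    have e12 : 4 * c * (1 - x ^ 2) < x ^ 2 := by
      have e : y * (4 * c * (1 - x ^ 2)) < y * x ^ 2 := by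
        have e' : y * (4 * c * (1 - x ^ 2)) = 4 * (1 - x) * (c * (y * (1 + x))) := by ring
        rw [e', mul_comm y (x ^ 2)]
        exact e11
      exact lt_of_mul_lt_mul_left e hy.le
    have e13 : x ^ 2 < 1 / 4 := by
      have : x * x < 1 / 2 * (1 / 2) := mul_lt_mul'' hx2 hx2 hx.le hx.le
      linarith [sq x]
    have e14 : 1 / 12 * (1 - x ^ 2) ≤ c * (1 - x ^ 2) :=
      mul_le_mul_of_nonneg_right hc (by linarith)
    linarith

private theorem IneqN_zeta : (1 / 12 : ℝ) ≤ (3 * Real.sqrt 5 - 5) / 20 ∧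
    ∀ y : ℝ, y * (1 - y) < (3 * Real.sqrt 5 - 5) / 20 * (2 + 3 * y - y ^ 2) := by
  have h5 : Real.sqrt 5 ^ 2 = 5 := Real.sq_sqrt (by norm_num)
  have h1 : (2236 / 1000 : ℝ) < Real.sqrt 5 := by
    apply Real.lt_sqrt_of_sq_lt
    norm_num
  have h2 : Real.sqrt 5 < 2237 / 1000 := by
    rw [Real.sqrt_lt' (by norm_num)]
    norm_num
  refine ⟨by linarith, fun y => ?_⟩
  set c : ℝ := (3 * Real.sqrt 5 - 5) / 20 with hc
  have hc1 : 854 / 10000 ≤ c := by rw [hc]; linarith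
  have hc2 : c ≤ 856 / 10000 := by rw [hc]; linarith
  -- `(1 - c) y ^ 2 + (3 c - 1) y + 2 c > 0`
  have hd : (3 * c - 1) ^ 2 < 4 * (1 - c) * (2 * c) := by nlinarith
  nlinarith [sq_nonneg (2 * (1 - c) * y + (3 * c - 1))]

private theorem IneqN_setup {t0 t1 t2 t3 t4 : ℝ} (h0 : 0 < t0) (h1 : 0 < t1) (h2 : 0 < t2)
    (h3 : 0 < t3) (h4 : 0 < t4)
    (hrel : t0 + t1 + t2 + t3 + t4 - (t0 * t1 + t1 * t2 + t2 * t3 + t3 * t4 + t4 * t0) = 1)
    (u0 : t1 + t4 < 1) (u1 : t2 + t0 < 1) (u2 : t3 + t1 < 1) (u3 : t4 + t2 < 1)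
    (u4 : t0 + t3 < 1) (hm : 0 < t0 + t2 + t3 - 1) :
    ∃ D a b x x' y : ℝ, 0 < D ∧ 0 < a ∧ 0 < b ∧ 0 < x ∧ 0 < x' ∧ 0 < y ∧ x + x' + y = 1 ∧
      D = y + a * x + b * x' ∧ y - a = (1 - t1 - t2 - t4) * D ∧ y - b = (1 - t3 - t4 - t1) * D ∧
      b * (x + (y - a)) = (1 - t4 - t0 - t2) * D ∧ a * (x' + (y - b)) = (1 - t0 - t1 - t3) * D ∧
      a * b = (t0 + t2 + t3 - 1) * D ∧ a * x = t1 * D ∧ b * x' = t4 * D ∧
      t0 * D = x * (y - b) + (y - a) * (x' + (y - b)) ∧ 0 < x + (y - a) ∧ 0 < x' + (y - b) ∧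
      t1 / t2 = x ∧ t4 / t3 = x' := by
  have h2' : t2 ≠ 0 := h2.ne'
  have h3' : t3 ≠ 0 := h3.ne'
  obtain ⟨m, hmd⟩ : ∃ m, m = t0 + t2 + t3 - 1 := ⟨_, rfl⟩
  rw [← hmd] at hm
  obtain ⟨D, hD⟩ : ∃ D, D = m / (t2 * t3) := ⟨_, rfl⟩
  have hD0 : 0 < D := by rw [hD]; positivity
  have hDm : t2 * t3 * D = m := by rw [hD]; field_simp
  obtain ⟨x, hx⟩ : ∃ x, x = t1 / t2 := ⟨_, rfl⟩
  obtain ⟨x', hx'⟩ : ∃ x', x' = t4 / t3 := ⟨_, rfl⟩
  have hx0 : 0 < x := by rw [hx]; positivity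
  have hx0' : 0 < x' := by rw [hx']; positivity
  have hxt : x * t2 = t1 := by rw [hx]; field_simp
  have hxt' : x' * t3 = t4 := by rw [hx']; field_simp
  have hp : 0 < t2 * t3 := mul_pos h2 h3
  have hsum : x + x' + (1 - t1 - t4) * D = 1 := by
    have e : t2 * t3 * (x + x' + (1 - t1 - t4) * D) = t2 * t3 * 1 := by
      have e1 : t2 * t3 * (x + x' + (1 - t1 - t4) * D) =
        (x * t2) * t3 + (x' * t3) * t2 + (1 - t1 - t4) * (t2 * t3 * D) := by ring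
      rw [e1, hxt, hxt', hDm, hmd]
      linarith
    exact mul_left_cancel₀ hp.ne' e
  have hax : t2 * D * x = t1 * D := by
    have : t2 * D * x = x * t2 * D := by ring
    rw [this, hxt]
  have hbx : t3 * D * x' = t4 * D := by
    have : t3 * D * x' = x' * t3 * D := by ring
    rw [this, hxt']
  have hsa : t2 * (t3 * (x + (1 - t1 - t2 - t4) * D)) = t2 * (1 - t4 - t0 - t2) := by
    have e1 : t2 * (t3 * (x + (1 - t1 - t2 - t4) * D)) =
      (x * t2) * t3 + (1 - t1 - t2 - t4) * (t2 * t3 * D) := by ring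
    rw [e1, hxt, hDm, hmd]
    linarith
  have hsa' := mul_left_cancel₀ h2' hsa
  have hsb : t3 * (t2 * (x' + (1 - t3 - t4 - t1) * D)) = t3 * (1 - t0 - t1 - t3) := by
    have e1 : t3 * (t2 * (x' + (1 - t3 - t4 - t1) * D)) =
      (x' * t3) * t2 + (1 - t3 - t4 - t1) * (t2 * t3 * D) := by ring
    rw [e1, hxt', hDm, hmd]
    linarith
  have hsb' := mul_left_cancel₀ h3' hsb
  have htau : t2 * (x * (1 - t3 - t4 - t1) + (1 - t1 - t2 - t4) *
      (x' + (1 - t3 - t4 - t1) * D)) = t2 * t0 := by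
    have e1 : t2 * (x * (1 - t3 - t4 - t1) + (1 - t1 - t2 - t4) *
      (x' + (1 - t3 - t4 - t1) * D)) = (x * t2) * (1 - t3 - t4 - t1) +
      (1 - t1 - t2 - t4) * (t2 * (x' + (1 - t3 - t4 - t1) * D)) := by ring
    rw [e1, hxt, hsb']
    linarith
  have htau' := mul_left_cancel₀ h2' htau
  have ha1 : t2 * D < 1 := by
    have e : t3 * (t2 * D) < t3 * 1 := by
      have e1 : t3 * (t2 * D) = t2 * t3 * D := by ring
      rw [e1, hDm, hmd]; linarith
    exact lt_of_mul_lt_mul_left e h3.le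
  have hb1 : t3 * D < 1 := by
    have e : t2 * (t3 * D) < t2 * 1 := by
      have e1 : t2 * (t3 * D) = t2 * t3 * D := by ring
      rw [e1, hDm, hmd]; linarith
    exact lt_of_mul_lt_mul_left e h2.le
  refine ⟨D, t2 * D, t3 * D, x, x', (1 - t1 - t4) * D, hD0, mul_pos h2 hD0, mul_pos h3 hD0,
    hx0, hx0', mul_pos (by linarith) hD0, hsum, ?_, by ring, by ring, ?_, ?_, ?_, hax, hbx,
    ?_, ?_, ?_, hx.symm, hx'.symm⟩
  · rw [hax, hbx]; ring
  · have e : t3 * D * (x + ((1 - t1 - t4) * D - t2 * D)) =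
      t3 * (x + (1 - t1 - t2 - t4) * D) * D := by ring
    rw [e, hsa']
  · have e : t2 * D * (x' + ((1 - t1 - t4) * D - t3 * D)) =
      t2 * (x' + (1 - t3 - t4 - t1) * D) * D := by ring
    rw [e, hsb']
  · have e : t2 * D * (t3 * D) = t2 * t3 * D * D := by ring
    rw [e, hDm, hmd]
  · have e : x * ((1 - t1 - t4) * D - t3 * D) + ((1 - t1 - t4) * D - t2 * D) *
      (x' + ((1 - t1 - t4) * D - t3 * D)) = (x * (1 - t3 - t4 - t1) + (1 - t1 - t2 - t4) *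
      (x' + (1 - t3 - t4 - t1) * D)) * D := by ring
    rw [e, htau']
  · have e1 : 0 < x * (1 - t2 * D) := mul_pos hx0 (by linarith)
    have e2 : 0 < (1 - t4 - t2) * D := mul_pos (by linarith) hD0
    have e3 : x + ((1 - t1 - t4) * D - t2 * D) = x * (1 - t2 * D) + (1 - t4 - t2) * D +
      (t2 * D * x - t1 * D) := by ring
    rw [e3, hax]
    linarith
  · have e1 : 0 < x' * (1 - t3 * D) := mul_pos hx0' (by linarith)
    have e2 : 0 < (1 - t1 - t3) * D := mul_pos (by linarith) hD0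
    have e3 : x' + ((1 - t1 - t4) * D - t3 * D) = x' * (1 - t3 * D) + (1 - t1 - t3) * D +
      (t3 * D * x' - t4 * D) := by ring
    rw [e3, hbx]
    linarith

/-- conversion of the alternatives (1), (2) -/
private theorem IneqN_conv1 {c D x y a z q k : ℝ} (hD : 0 < D) (hk : k = c * D)
    (hz : y - a = z * D) (hq : q = x) (h : c < z * q) : k < x * (y - a) := by
  rw [hz, hk, ← hq]
  have : c * D < z * q * D := mul_lt_mul_of_pos_right h hD
  linarith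

/-- conversion of the alternatives (3), (4) -/
private theorem IneqN_conv3 {c D x y a b m k t1 z4 : ℝ} (hD : 0 < D) (hb : 0 < b)
    (hk : k = c * D) (hab : a * b = m * D) (hax : a * x = t1 * D)
    (hs : b * (x + (y - a)) = z4 * D) (hs0 : 0 < x + (y - a))
    (h : ¬ (t1 ≤ z4 ∧ t1 * m / z4 ≤ c)) :
    b * (x + (y - a)) < a * x ∨ k * (x + (y - a)) < a ^ 2 * x := by
  have hz4 : 0 < z4 := by
    have e : 0 < z4 * D := by rw [← hs]; exact mul_pos hb hs0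
    exact pos_of_mul_pos_left e hD.le
  rcases lt_or_ge z4 t1 with h1 | h1
  · left
    rw [hs, hax]
    exact mul_lt_mul_of_pos_right h1 hD
  · right
    have h2 : c < t1 * m / z4 := by
      by_contra hcon
      exact h ⟨h1, not_lt.1 hcon⟩
    rw [lt_div_iff₀ hz4] at h2
    have e : b * (k * (x + (y - a))) < b * (a ^ 2 * x) := by
      have e1 : b * (k * (x + (y - a))) = k * (b * (x + (y - a))) := by ring
      have e2 : b * (a ^ 2 * x) = a * b * (a * x) := by ring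
      rw [e1, e2, hs, hab, hax, hk]
      have e3 : c * z4 * (D * D) < t1 * m * (D * D) := mul_lt_mul_of_pos_right h2 (by positivity)
      linarith
    exact lt_of_mul_lt_mul_left e hb.le

private theorem IneqN_caseNeg {c t0 t1 t2 t3 t4 : ℝ} (hc : 1 / 12 ≤ c)
    (hcy : ∀ y : ℝ, y * (1 - y) < c * (2 + 3 * y - y ^ 2))
    (h0 : 0 < t0) (h1 : 0 < t1) (h2 : 0 < t2) (h3 : 0 < t3) (h4 : 0 < t4)
    (hrel : t0 + t1 + t2 + t3 + t4 - (t0 * t1 + t1 * t2 + t2 * t3 + t3 * t4 + t4 * t0) = 1)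
    (u0 : t1 + t4 < 1) (u1 : t2 + t0 < 1) (u2 : t3 + t1 < 1) (u3 : t4 + t2 < 1)
    (u4 : t0 + t3 < 1) (hm : 0 < t0 + t2 + t3 - 1) (hz1 : 1 - t1 - t2 - t4 < 0)
    (n2 : 0 ≤ 1 - t3 - t4 - t1 → 0 ≤ 1 - t0 - t1 - t3 → c < (1 - t3 - t4 - t1) * (t4 / t3))
    (n4 : ¬ (t4 ≤ 1 - t0 - t1 - t3 ∧ t4 * (t0 + t2 + t3 - 1) / (1 - t0 - t1 - t3) ≤ c))
    (n5 : t0 ≤ 1 - t3 - t4 - t1 → c < t0 * (-(1 - t1 - t2 - t4)) / (1 - t3 - t4 - t1)) :
    False := by
  obtain ⟨D, a, b, x, x', y, hD, ha, hb, hx, hx', hy, hsum, hDD, hya, hyb, hsa, hsb, hab, hax,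
    hbx, htau, hsa0, hsb0, hxq, hxq'⟩ := IneqN_setup h0 h1 h2 h3 h4 hrel u0 u1 u2 u3 u4 hm
  have hya' : y < a := by
    have : (1 - t1 - t2 - t4) * D < 0 := mul_neg_of_neg_of_pos hz1 hD
    linarith
  have ht0D : 0 < t0 * D := mul_pos h0 hD
  have hneg : (y - a) * (x' + (y - b)) < 0 := mul_neg_of_neg_of_pos (by linarith) hsb0
  have hyb' : b < y := by
    have e : 0 < x * (y - b) := by linarith
    have := pos_of_mul_pos_right e hx.le
    linarith
  have hz3 : 0 < 1 - t3 - t4 - t1 := by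
    have e : 0 < (1 - t3 - t4 - t1) * D := by rw [← hyb]; linarith
    exact pos_of_mul_pos_left e hD.le
  have hz0 : 0 < 1 - t0 - t1 - t3 := by
    have e : 0 < (1 - t0 - t1 - t3) * D := by rw [← hsb]; exact mul_pos ha hsb0
    exact pos_of_mul_pos_left e hD.le
  have g2 : c * D < x' * (y - b) := IneqN_conv1 hD rfl hyb hxq' (n2 hz3.le hz0.le)
  have g4 := IneqN_conv3 (k := c * D) hD ha rfl (by rw [mul_comm]; exact hab) hbx hsb hsb0 n4
  have g4' : c * D * (x' + (y - b)) < b ^ 2 * x' := by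
    rcases g4 with g4 | g4
    · exfalso
      have e1 : b * x' < a * x' := mul_lt_mul_of_pos_right (by linarith) hx'
      have e2 : 0 < a * (y - b) := mul_pos ha (by linarith)
      linarith
    · exact g4
  have hx1 : x < 1 := by linarith
  have ht0 : t0 ≤ 1 - t3 - t4 - t1 := by
    have e1 : x * (y - b) < 1 * (y - b) := mul_lt_mul_of_pos_right hx1 (by linarith)
    have e : t0 * D < (1 - t3 - t4 - t1) * D := by
      rw [← hyb]
      linarith
    exact (lt_of_mul_lt_mul_right e hD.le).le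
  have g5 : c * D * (y - b) < (x * (y - b) + (y - a) * (x' + (y - b))) * (a - y) := by
    have e := n5 ht0
    rw [lt_div_iff₀ hz3] at e
    rw [← htau]
    have e1 : a - y = -(1 - t1 - t2 - t4) * D := by linarith
    rw [e1, hyb]
    have e3 : c * (1 - t3 - t4 - t1) * (D * D) < t0 * (-(1 - t1 - t2 - t4)) * (D * D) :=
      mul_lt_mul_of_pos_right e (by positivity)
    linarith
  exact IneqN_neg hc hx hx' hy hsum hb hDD rfl (hcy y) hya' hyb' g2 g4' g5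

private theorem IneqN_caseMain {c t0 t1 t2 t3 t4 : ℝ} (hc : 1 / 12 ≤ c)
    (hcy : ∀ y : ℝ, y * (1 - y) < c * (2 + 3 * y - y ^ 2))
    (h0 : 0 < t0) (h1 : 0 < t1) (h2 : 0 < t2) (h3 : 0 < t3) (h4 : 0 < t4)
    (hrel : t0 + t1 + t2 + t3 + t4 - (t0 * t1 + t1 * t2 + t2 * t3 + t3 * t4 + t4 * t0) = 1)
    (u0 : t1 + t4 < 1) (u1 : t2 + t0 < 1) (u2 : t3 + t1 < 1) (u3 : t4 + t2 < 1)
    (u4 : t0 + t3 < 1) (hm : 0 < t0 + t2 + t3 - 1) (hz1 : 0 ≤ 1 - t1 - t2 - t4)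
    (hz3 : 0 ≤ 1 - t3 - t4 - t1)
    (n1 : 0 ≤ 1 - t1 - t2 - t4 → 0 ≤ 1 - t4 - t0 - t2 → c < (1 - t1 - t2 - t4) * (t1 / t2))
    (n2 : 0 ≤ 1 - t3 - t4 - t1 → 0 ≤ 1 - t0 - t1 - t3 → c < (1 - t3 - t4 - t1) * (t4 / t3))
    (n3 : ¬ (t1 ≤ 1 - t4 - t0 - t2 ∧ t1 * (t0 + t2 + t3 - 1) / (1 - t4 - t0 - t2) ≤ c))
    (n4 : ¬ (t4 ≤ 1 - t0 - t1 - t3 ∧ t4 * (t0 + t2 + t3 - 1) / (1 - t0 - t1 - t3) ≤ c)) :
    False := by
  obtain ⟨D, a, b, x, x', y, hD, ha, hb, hx, hx', hy, hsum, hDD, hya, hyb, hsa, hsb, hab, hax,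
    hbx, htau, hsa0, hsb0, hxq, hxq'⟩ := IneqN_setup h0 h1 h2 h3 h4 hrel u0 u1 u2 u3 u4 hm
  have hz4 : 0 < 1 - t4 - t0 - t2 := by
    have e : 0 < (1 - t4 - t0 - t2) * D := by rw [← hsa]; exact mul_pos hb hsa0
    exact pos_of_mul_pos_left e hD.le
  have hz0 : 0 < 1 - t0 - t1 - t3 := by
    have e : 0 < (1 - t0 - t1 - t3) * D := by rw [← hsb]; exact mul_pos ha hsb0
    exact pos_of_mul_pos_left e hD.le
  have g1 : c * D < x * (y - a) := IneqN_conv1 hD rfl hya hxq (n1 hz1 hz4.le)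
  have g2 : c * D < x' * (y - b) := IneqN_conv1 hD rfl hyb hxq' (n2 hz3 hz0.le)
  have g3 := IneqN_conv3 (k := c * D) hD hb rfl hab hax hsa hsa0 n3
  have g4 := IneqN_conv3 (k := c * D) hD ha rfl (by rw [mul_comm]; exact hab) hbx hsb hsb0 n4
  exact IneqN_main (by linarith) hx hx' hy hsum ha hb hDD rfl (hcy y) g1 g2 g3 g4

theorem ineqN (t : Fin 5 → ℝ) (ht : ∀ i, 0 < t i)
    (hrel : ∑ i, t i - ∑ i, t i * t (i + 1) = 1) (hu : ∀ i, t (i + 1) + t (i + 4) < 1)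
    (z : Fin 5 → ℝ) (hz : ∀ j, z j = 1 - t j - t (j + 1) - t (j + 3)) (h2 : z 2 < 0) :
    (0 ≤ z 1 ∧ 0 ≤ z 4 ∧ z 1 * t 1 / t 2 ≤ (3 * Real.sqrt 5 - 5) / 20) ∨
    (0 ≤ z 3 ∧ 0 ≤ z 0 ∧ z 3 * t 4 / t 3 ≤ (3 * Real.sqrt 5 - 5) / 20) ∨
    (t 1 ≤ z 4 ∧ t 1 * (- z 2) / z 4 ≤ (3 * Real.sqrt 5 - 5) / 20) ∨
    (t 4 ≤ z 0 ∧ t 4 * (- z 2) / z 0 ≤ (3 * Real.sqrt 5 - 5) / 20) ∨
    (z 1 < 0 ∧ t 0 ≤ z 3 ∧ t 0 * (- z 1) / z 3 ≤ (3 * Real.sqrt 5 - 5) / 20) ∨
    (z 3 < 0 ∧ t 0 ≤ z 1 ∧ t 0 * (- z 3) / z 1 ≤ (3 * Real.sqrt 5 - 5) / 20) := by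
  obtain ⟨hc, hcy⟩ := IneqN_zeta
  generalize (3 * Real.sqrt 5 - 5) / 20 = c at hc hcy ⊢
  have z0 : z 0 = 1 - t 0 - t 1 - t 3 := hz 0
  have z1 : z 1 = 1 - t 1 - t 2 - t 4 := hz 1
  have z2 : z 2 = 1 - t 2 - t 3 - t 0 := hz 2
  have z3 : z 3 = 1 - t 3 - t 4 - t 1 := hz 3
  have z4 : z 4 = 1 - t 4 - t 0 - t 2 := hz 4
  have u0 : t 1 + t 4 < 1 := hu 0
  have u1 : t 2 + t 0 < 1 := hu 1
  have u2 : t 3 + t 1 < 1 := hu 2
  have u3 : t 4 + t 2 < 1 := hu 3
  have u4 : t 0 + t 3 < 1 := hu 4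
  have hrel' : t 0 + t 1 + t 2 + t 3 + t 4 -
      (t 0 * t 1 + t 1 * t 2 + t 2 * t 3 + t 3 * t 4 + t 4 * t 0) = 1 := by
    have e := hrel
    rw [Fin.sum_univ_five, Fin.sum_univ_five] at e
    exact e
  have m2 : - z 2 = t 0 + t 2 + t 3 - 1 := by rw [z2]; ring
  have hm : 0 < t 0 + t 2 + t 3 - 1 := by rw [← m2]; linarith
  rw [m2]
  by_contra hcon
  simp only [not_or] at hcon
  obtain ⟨n1, n2, n3, n4, n5, n6⟩ := hcon
  rw [z1, z4] at n1
  rw [z3, z0] at n2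
  rw [z4] at n3
  rw [z0] at n4
  rw [z1, z3] at n5
  rw [z3, z1] at n6
  have n1' : 0 ≤ 1 - t 1 - t 2 - t 4 → 0 ≤ 1 - t 4 - t 0 - t 2 →
      c < (1 - t 1 - t 2 - t 4) * (t 1 / t 2) := by
    intro e1 e2
    by_contra h
    exact n1 ⟨e1, e2, by rw [mul_div_assoc]; exact not_lt.1 h⟩
  have n2' : 0 ≤ 1 - t 3 - t 4 - t 1 → 0 ≤ 1 - t 0 - t 1 - t 3 →
      c < (1 - t 3 - t 4 - t 1) * (t 4 / t 3) := by
    intro e1 e2
    by_contra h
    exact n2 ⟨e1, e2, by rw [mul_div_assoc]; exact not_lt.1 h⟩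
  rcases lt_or_ge (1 - t 1 - t 2 - t 4) 0 with hz1 | hz1
  · refine IneqN_caseNeg hc hcy (ht 0) (ht 1) (ht 2) (ht 3) (ht 4) hrel' u0 u1 u2 u3 u4 hm hz1
      n2' n4 ?_
    intro e
    by_contra h
    exact n5 ⟨hz1, e, not_lt.1 h⟩
  · rcases lt_or_ge (1 - t 3 - t 4 - t 1) 0 with hz3 | hz3
    · have r1 : 1 - t 4 - t 3 - t 1 = 1 - t 3 - t 4 - t 1 := by ring
      have r2 : 1 - t 2 - t 1 - t 4 = 1 - t 1 - t 2 - t 4 := by ring
      have r3 : 1 - t 0 - t 4 - t 2 = 1 - t 4 - t 0 - t 2 := by ring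
      have r4 : t 0 + t 3 + t 2 - 1 = t 0 + t 2 + t 3 - 1 := by ring
      refine IneqN_caseNeg (t0 := t 0) (t1 := t 4) (t2 := t 3) (t3 := t 2) (t4 := t 1) hc hcy
        (ht 0) (ht 4) (ht 3) (ht 2) (ht 1) (by linarith) (by linarith) (by linarith)
        (by linarith) (by linarith) (by linarith) (by linarith) (by linarith) ?_ ?_ ?_
      · rw [r2, r3]
        exact n1'
      · rw [r3, r4]
        exact n3
      · rw [r1, r2]
        intro e
        by_contra h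
        exact n6 ⟨hz3, e, not_lt.1 h⟩
    · exact IneqN_caseMain hc hcy (ht 0) (ht 1) (ht 2) (ht 3) (ht 4) hrel' u0 u1 u2 u3 u4 hm hz1
        hz3 n1' n2' n3 n4

end Pool.Agent.helper42.PD
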