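import Mathlib

/-!
PD-6: the inequality for pentagons all of whose defects are positive.

`t i` = corner areas divided by the area, `z j = 1 - t j - t (j+1) - t (j+3)`, `zeta = (3√5-5)/20`.
PROOF.  Suppose all the numbers `E_i` (minimum over `lam` of the left side, i.e.
`al*be/(al+be)`, `al = z(i+1) t(i+2)/t(i+1)`, `be = z(i+3) t(i+3)/t(i+4)`, attained at
`lam = be/(al+be)`) are `> zeta`; i.e. `1/al + 1/be < 1/zeta` for all `i`:
`t(i+1)/(t(i+2) z(i+1)) + t(i+4)/(t(i+3) z(i+3)) < 1/zeta`.  (*)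
 (a) `z j > zeta` for all `j`: (*) for `i = j-1` and `i = j+2` contain the terms
 `t j/(t(j+1) z j)` and `t(j+1)/(t j z j)`; one of the two ratios is `>= 1`.
 (b) Summing (*) over `i`: the sum is `Σ_j (t j/t(j+1) + t(j+1)/t j)/z j >= 2 Σ 1/z j`; so
 `Σ 1/z j < 5/(2 zeta)`.
 (c) Put `u j = z j/zeta` (`> 1`), `c = 5 + 3√5 = 1/zeta`, `V = Σ u`.  From
 `t k = (1 + Σz)/3 - z(k-1) - z k` the relation `Σ t - Σ t_k t_{k+1} = 1` becomes
 `9 Σ u_k u_{k+2} = (2V - c)(V + c)`.
 Claim: `Σ 1/u_k >= 5/2`, contradiction with (b).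
  If `V <= 10`: AM-HM.  If `V > 10`: `Σ u_k u_{k+2} <= 5 + 2 (V-5) + (V-5)^2/4` (write `u = 1 + w`,
  `Σ w_k w_{k+2} <= (Σ w)^2/4` for a 5-cycle with `w >= 0`), hence `V < 11.04` (other root of the
  quadratic is > 53 and `V <= 2 c` because `Σ z <= 2`, from `Σ t >= 1`... `Σz = 5 - 3Σt`, `Σt > 1`).
  All `u_k <= 5`: if `w_0 >= 4` then `Σ w_k w_{k+2} <= w_0 (W - w_0) <= 4 (W - 4)` for `W < 8`
  (5-cycle: `Σ w_k w_{k+2} <= w_0 (W - w_0)` when `w_0 >= W/2`), contradiction with the relation.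
  For `0 < u <= 5`: `1/u >= 1/2 - (u-2)/4 + (u-2)^2/20`.  With `d = V - 10 > 0`, `eps = u - 2`:
  relation: `9 Σ eps_k eps_{k+2} = (c + 4) d + 2 d^2` and the 5-cycle form satisfies
  `Σ eps_k eps_{k+2} <= d^2/5 + cos(72°)(Σ eps^2 - d^2/5)`, `cos 72° = (√5-1)/4`; so
  `Σ eps^2 >= 5 d` and `Σ 1/u >= 5/2 - d/4 + 5 d/20 = 5/2`.
-/

namespace Pool.Agent.helper42.PD

/-- minimising over `lam` -/
private lemma IneqP_min {al be c : ℝ} (hal : 0 < al) (hbe : 0 < be) (hc : 0 < c)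
    (h : ∀ lam : ℝ, 0 ≤ lam → lam ≤ 1 → 1 / c < lam ^ 2 * al + (1 - lam) ^ 2 * be) :
    1 / al + 1 / be < c := by
  have hs : 0 < al + be := by linarith
  have h1 := h (be / (al + be)) (by positivity) ((div_le_one hs).2 (by linarith))
  have h2 : (be / (al + be)) ^ 2 * al + (1 - be / (al + be)) ^ 2 * be = al * be / (al + be) := by
    field_simp
    ring
  rw [h2, div_lt_div_iff₀ hc hs] at h1
  have h3 : 1 / al + 1 / be = (al + be) / (al * be) := by
    field_simp
    ring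
  rw [h3, div_lt_iff₀ (mul_pos hal hbe)]
  linarith

/-- two ratios and a defect -/
private lemma IneqP_pair {p q z : ℝ} (hp : 0 < p) (hq : 0 < q) (hz : 0 < z) :
    2 / z ≤ p / (q * z) + q / (p * z) := by
  have h : p / (q * z) + q / (p * z) - 2 / z = (p - q) ^ 2 / (p * q * z) := by
    field_simp
    ring
  have h2 : 0 ≤ (p - q) ^ 2 / (p * q * z) := by positivity
  linarith

private lemma IneqP_big {p q z c : ℝ} (hp : 0 < p) (hq : 0 < q) (hz : 0 < z)
    (h1 : p / (q * z) < c) (h2 : q / (p * z) < c) : 1 < c * z := by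
  rw [div_lt_iff₀ (by positivity)] at h1 h2
  rcases le_total p q with h | h
  · have : p * 1 < p * (c * z) := by nlinarith
    exact lt_of_mul_lt_mul_left this hp.le
  · have : q * 1 < q * (c * z) := by nlinarith
    exact lt_of_mul_lt_mul_left this hq.le

private lemma IneqP_c5a {a b c d e : ℝ} (ha : 0 ≤ a) (hb : 0 ≤ b) (he : 0 ≤ e)
    (h : e ≤ d) :
    4 * (a * b + b * c + c * d + d * e + e * a) ≤ (a + b + c + d + e) ^ 2 := by
  nlinarith [sq_nonneg (a - b + c - d + e), mul_nonneg ha (sub_nonneg.2 h), mul_nonneg hb he]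

/-- the quadratic form of the five cycle on nonnegative vectors -/
private lemma IneqP_c5 {a b c d e : ℝ} (ha : 0 ≤ a) (hb : 0 ≤ b) (hc : 0 ≤ c) (hd : 0 ≤ d)
    (he : 0 ≤ e) :
    4 * (a * b + b * c + c * d + d * e + e * a) ≤ (a + b + c + d + e) ^ 2 := by
  rcases le_total e d with h | h
  · exact IneqP_c5a ha hb he h
  rcases le_total a e with h' | h'
  · have := IneqP_c5a (a := b) (b := c) (c := d) (d := e) (e := a) hb hc ha h'
    linarith
  rcases le_total b a with h'' | h''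
  · have := IneqP_c5a (a := c) (b := d) (c := e) (d := a) (e := b) hc hd hb h''
    linarith
  rcases le_total c b with h3 | h3
  · have := IneqP_c5a (a := d) (b := e) (c := a) (d := b) (e := c) hd he hc h3
    linarith
  · have := IneqP_c5a (a := e) (b := a) (c := b) (d := c) (e := d) he ha hd (by linarith)
    linarith

/-- one large entry (cyclic order `a b c d e`) -/
private lemma IneqP_large {a b c d e : ℝ} (hb : 0 ≤ b) (hc : 0 ≤ c) (hd : 0 ≤ d)
    (he : 0 ≤ e) (ha : 4 ≤ a) (hW : a + b + c + d + e < 8) :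
    a * b + b * c + c * d + d * e + e * a ≤ 4 * (a + b + c + d + e - 4) := by
  have h1 : b + c + d + e ≤ a := by linarith
  have h2 : a * b + b * c + c * d + d * e + e * a ≤ a * (b + c + d + e) := by
    nlinarith [mul_nonneg hb hd, mul_nonneg hb he, mul_nonneg hc he, mul_nonneg hb hc,
      mul_nonneg hd he, mul_nonneg hc hc, mul_nonneg hd hd, mul_nonneg hc hd,
      mul_nonneg hc (sub_nonneg.2 h1), mul_nonneg hd (sub_nonneg.2 h1)]
  nlinarith [mul_nonneg (sub_nonneg.2 ha) (sub_nonneg.2 (by linarith : b + c + d + e ≤ 4))]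

/-- the reciprocal is above its interpolation -/
private lemma IneqP_recip {u : ℝ} (h0 : 0 < u) (h5 : u ≤ 5) :
    1 / 2 - (u - 2) / 4 + (u - 2) ^ 2 / 20 ≤ 1 / u := by
  rw [le_div_iff₀ h0]
  nlinarith [mul_nonneg (sq_nonneg (u - 2)) (sub_nonneg.2 h5)]

private lemma IneqP_recip' {u : ℝ} (h0 : 0 < u) : 1 / 2 - (u - 2) / 4 ≤ 1 / u := by
  rw [le_div_iff₀ h0]
  nlinarith [sq_nonneg (u - 2)]

/-- the spectral inequality -/
private lemma IneqP_spec {s a b c d e : ℝ} (hs : s ^ 2 = 5) (hs0 : 0 < s) :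
    a * c + b * d + c * e + d * a + e * b ≤
      (s - 1) / 4 * ((a ^ 2 + b ^ 2 + c ^ 2 + d ^ 2 + e ^ 2) - (a + b + c + d + e) ^ 2 / 5)
        + (a + b + c + d + e) ^ 2 / 5 := by
  have h : s * ((s - 1) / 4 * ((a ^ 2 + b ^ 2 + c ^ 2 + d ^ 2 + e ^ 2) - (a + b + c + d + e) ^ 2 / 5)
        + (a + b + c + d + e) ^ 2 / 5 - (a * c + b * d + c * e + d * a + e * b))
      = (a + (s - 1) / 4 * (b + e) - (s + 1) / 4 * (c + d)) ^ 2
        + (5 + s) / 8 * (b - e + (s - 1) / 2 * (c - d)) ^ 2 := by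
    linear_combination ((-1/10)*a*b + (-1/10)*a*c + (-1/10)*a*d + (-1/10)*a*e + (1/5)*a^2
      + (-1/10)*b*c + (3/20)*b*d + (-9/40)*b*e + (11/80)*b^2 + (-3/80)*c*d + (1/16)*c*d*s
      + (3/20)*c*e + (7/160)*c^2 + (-1/32)*c^2*s + (-1/10)*d*e + (7/160)*d^2 + (-1/32)*d^2*s
      + (11/80)*e^2) * hs
  have h2 : 0 ≤ (a + (s - 1) / 4 * (b + e) - (s + 1) / 4 * (c + d)) ^ 2
        + (5 + s) / 8 * (b - e + (s - 1) / 2 * (c - d)) ^ 2 := by positivity
  rw [← h] at h2
  have h3 := nonneg_of_mul_nonneg_right h2 hs0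
  linarith

/-- the inequality for the scaled defects -/
private lemma IneqP_main {s a b c d e : ℝ} (hs : s ^ 2 = 5) (hs0 : 0 < s)
    (ha : 1 < a) (hb : 1 < b) (hc : 1 < c) (hd : 1 < d) (he : 1 < e)
    (hV : a + b + c + d + e ≤ 2 * (5 + 3 * s))
    (hrel : 9 * (a * c + b * d + c * e + d * a + e * b)
      = (2 * (a + b + c + d + e) - (5 + 3 * s)) * (a + b + c + d + e + (5 + 3 * s))) :
    5 / 2 ≤ 1 / a + 1 / b + 1 / c + 1 / d + 1 / e := by
  have hs1 : 2.236 < s := by nlinarith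
  have hs2 : s < 2.2361 := by nlinarith
  obtain ⟨V, hVd⟩ : ∃ V, V = a + b + c + d + e := ⟨_, rfl⟩
  rw [← hVd] at hV hrel
  rcases le_or_gt V 10 with hV10 | hV10
  · have h1 := IneqP_recip' (u := a) (by linarith)
    have h2 := IneqP_recip' (u := b) (by linarith)
    have h3 := IneqP_recip' (u := c) (by linarith)
    have h4 := IneqP_recip' (u := d) (by linarith)
    have h5 := IneqP_recip' (u := e) (by linarith)
    linarith
  -- upper bound for `V`
  have hV11 : V < 11.04 := by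
    by_contra hcon
    push Not at hcon
    have h1 := IneqP_c5 (a := a - 1) (b := c - 1) (c := e - 1) (d := b - 1) (e := d - 1)
      (by linarith) (by linarith) (by linarith) (by linarith) (by linarith)
    have h2 : a * c + b * d + c * e + d * a + e * b ≤ 5 + 2 * (V - 5) + (V - 5) ^ 2 / 4 := by
      rw [hVd]
      nlinarith
    have h3 : 0 ≤ (V - 11.04) * (2 * (5 + 3 * s) - V) :=
      mul_nonneg (by linarith) (by linarith)
    nlinarith [mul_nonneg (by linarith : (0:ℝ) ≤ V - 11.04) hs0.le]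
  -- all entries are at most `5`
  have hlarge : ∀ x y z t r : ℝ, 1 < x → 1 < y → 1 < z → 1 < t → 1 < r →
      x + y + z + t + r = V → x * y + y * z + z * t + t * r + r * x
        = a * c + b * d + c * e + d * a + e * b → x ≤ 5 := by
    intro x y z t r hx hy hz ht hr hsum hq
    by_contra hcon
    push Not at hcon
    have h1 := IneqP_large (a := x - 1) (b := y - 1) (c := z - 1) (d := t - 1) (e := r - 1)
      (by linarith) (by linarith) (by linarith) (by linarith) (by linarith) (by linarith)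
    have h2 : x * y + y * z + z * t + t * r + r * x ≤ 5 + 2 * (V - 5) + 4 * (V - 9) := by
      nlinarith
    rw [hq] at h2
    nlinarith [sq_nonneg (V - 10.5)]
  have ha5 : a ≤ 5 := hlarge a c e b d ha hc he hb hd (by linarith) (by ring)
  have hb5 : b ≤ 5 := hlarge b d a c e hb hd ha hc he (by linarith) (by ring)
  have hc5 : c ≤ 5 := hlarge c e b d a hc he hb hd ha (by linarith) (by ring)
  have hd5 : d ≤ 5 := hlarge d a c e b hd ha hc he hb (by linarith) (by ring)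
  have he5 : e ≤ 5 := hlarge e b d a c he hb hd ha hc (by linarith) (by ring)
  have h1 := IneqP_recip (u := a) (by linarith) ha5
  have h2 := IneqP_recip (u := b) (by linarith) hb5
  have h3 := IneqP_recip (u := c) (by linarith) hc5
  have h4 := IneqP_recip (u := d) (by linarith) hd5
  have h5 := IneqP_recip (u := e) (by linarith) he5
  have hsp := IneqP_spec (a := a - 2) (b := b - 2) (c := c - 2) (d := d - 2) (e := e - 2) hs hs0
  obtain ⟨N, hN⟩ : ∃ N, N = (a - 2) ^ 2 + (b - 2) ^ 2 + (c - 2) ^ 2 + (d - 2) ^ 2 + (e - 2) ^ 2 :=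
    ⟨_, rfl⟩
  obtain ⟨D, hD⟩ : ∃ D, D = V - 10 := ⟨_, rfl⟩
  have hD0 : 0 < D := by linarith
  have hsum : (a - 2) + (b - 2) + (c - 2) + (d - 2) + (e - 2) = D := by
    rw [hD, hVd]
    ring
  rw [hsum, ← hN] at hsp
  have hrel2 : 9 * ((a - 2) * (c - 2) + (b - 2) * (d - 2) + (c - 2) * (e - 2) + (d - 2) * (a - 2)
      + (e - 2) * (b - 2)) = (9 + 3 * s) * D + 2 * D ^ 2 := by
    have hV2 : V = D + 10 := by linarith
    rw [hV2] at hrel
    have hq : (a - 2) * (c - 2) + (b - 2) * (d - 2) + (c - 2) * (e - 2) + (d - 2) * (a - 2)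
      + (e - 2) * (b - 2) = (a * c + b * d + c * e + d * a + e * b) - 4 * (D + 10) + 20 := by
      have : a + b + c + d + e = D + 10 := by linarith
      linear_combination (-4 : ℝ) * this
    rw [hq]
    linear_combination hrel - 9 * hs
  have hNd : 5 * D ≤ N := by
    by_contra hcon
    push Not at hcon
    have hg : 0 < (s - 1) / 4 := by linarith
    have h6 : (s - 1) / 4 * N < (s - 1) / 4 * (5 * D) := mul_lt_mul_of_pos_left hcon hg
    nlinarith [mul_pos hD0 hD0, mul_pos hD0 hs0]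
  have hfin : 5 / 2 - D / 4 + N / 20 ≤ 1 / a + 1 / b + 1 / c + 1 / d + 1 / e := by
    rw [hN, hD, hVd]
    linarith
  linarith

theorem ineqP (t : Fin 5 → ℝ) (ht : ∀ i, 0 < t i)
    (hrel : ∑ i, t i - ∑ i, t i * t (i + 1) = 1)
    (z : Fin 5 → ℝ) (hz : ∀ j, z j = 1 - t j - t (j + 1) - t (j + 3)) (hzpos : ∀ j, 0 < z j) :
    ∃ i : Fin 5, ∃ lam : ℝ, 0 ≤ lam ∧ lam ≤ 1 ∧
      lam ^ 2 * (z (i + 1) * t (i + 2) / t (i + 1))
        + (1 - lam) ^ 2 * (z (i + 3) * t (i + 3) / t (i + 4)) ≤ (3 * Real.sqrt 5 - 5) / 20 := by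
  by_contra hcon
  push Not at hcon
  obtain ⟨s, hsd⟩ : ∃ s, s = Real.sqrt 5 := ⟨_, rfl⟩
  have hs : s ^ 2 = 5 := by rw [hsd, Real.sq_sqrt (by norm_num)]
  have hs0 : 0 < s := by rw [hsd]; positivity
  rw [← hsd] at hcon
  obtain ⟨c, hcd⟩ : ∃ c, c = 5 + 3 * s := ⟨_, rfl⟩
  have hc0 : 0 < c := by rw [hcd]; positivity
  have hzeta : (3 * s - 5) / 20 = 1 / c := by
    rw [hcd, eq_div_iff (by positivity)]
    linear_combination (9 / 20 : ℝ) * hs
  rw [hzeta] at hcon
  have hstar : ∀ i : Fin 5, t (i + 1) / (t (i + 2) * z (i + 1)) + t (i + 4) / (t (i + 3) * z (i + 3))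
      < c := by
    intro i
    have h1 := IneqP_min (al := z (i + 1) * t (i + 2) / t (i + 1))
      (be := z (i + 3) * t (i + 3) / t (i + 4))
      (div_pos (mul_pos (hzpos _) (ht _)) (ht _)) (div_pos (mul_pos (hzpos _) (ht _)) (ht _)) hc0
      (hcon i)
    rw [one_div_div, one_div_div, mul_comm (z (i + 1)), mul_comm (z (i + 3))] at h1
    exact h1
  have f0 := hstar 0
  have f1 := hstar 1
  have f2 := hstar 2
  have f3 := hstar 3
  have f4 := hstar 4
  have z0 := hz 0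
  have z1 := hz 1
  have z2 := hz 2
  have z3 := hz 3
  have z4 := hz 4
  simp only [Fin.sum_univ_five] at hrel
  simp only [show (0 : Fin 5) + 1 = 1 from rfl, show (0 : Fin 5) + 2 = 2 from rfl,
    show (0 : Fin 5) + 3 = 3 from rfl, show (0 : Fin 5) + 4 = 4 from rfl,
    show (1 : Fin 5) + 1 = 2 from rfl, show (1 : Fin 5) + 2 = 3 from rfl,
    show (1 : Fin 5) + 3 = 4 from rfl, show (1 : Fin 5) + 4 = 0 from rfl,
    show (2 : Fin 5) + 1 = 3 from rfl, show (2 : Fin 5) + 2 = 4 from rfl,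
    show (2 : Fin 5) + 3 = 0 from rfl, show (2 : Fin 5) + 4 = 1 from rfl,
    show (3 : Fin 5) + 1 = 4 from rfl, show (3 : Fin 5) + 2 = 0 from rfl,
    show (3 : Fin 5) + 3 = 1 from rfl, show (3 : Fin 5) + 4 = 2 from rfl,
    show (4 : Fin 5) + 1 = 0 from rfl, show (4 : Fin 5) + 2 = 1 from rfl,
    show (4 : Fin 5) + 3 = 2 from rfl, show (4 : Fin 5) + 4 = 3 from rfl]
    at f0 f1 f2 f3 f4 z0 z1 z2 z3 z4 hrel
  have t0 := ht 0
  have t1 := ht 1
  have t2 := ht 2
  have t3 := ht 3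
  have t4 := ht 4
  have p0 := hzpos 0
  have p1 := hzpos 1
  have p2 := hzpos 2
  have p3 := hzpos 3
  have p4 := hzpos 4
  have hpos : ∀ i j k : Fin 5, 0 < t i / (t j * z k) := fun i j k =>
    div_pos (ht i) (mul_pos (ht j) (hzpos k))
  have g0 := IneqP_pair t0 t1 p0
  have g1 := IneqP_pair t1 t2 p1
  have g2 := IneqP_pair t2 t3 p2
  have g3 := IneqP_pair t3 t4 p3
  have g4 := IneqP_pair t4 t0 p4
  have b0 := IneqP_big (c := c) t0 t1 p0 (by linarith [hpos 3 2 2]) (by linarith [hpos 3 4 3])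
  have b1 := IneqP_big (c := c) t1 t2 p1 (by linarith [hpos 4 3 3]) (by linarith [hpos 4 0 4])
  have b2 := IneqP_big (c := c) t2 t3 p2 (by linarith [hpos 0 4 4]) (by linarith [hpos 0 1 0])
  have b3 := IneqP_big (c := c) t3 t4 p3 (by linarith [hpos 1 0 0]) (by linarith [hpos 1 2 1])
  have b4 := IneqP_big (c := c) t4 t0 p4 (by linarith [hpos 2 1 1]) (by linarith [hpos 2 3 2])
  have hsumlt : 2 / z 0 + 2 / z 1 + 2 / z 2 + 2 / z 3 + 2 / z 4 < 5 * c := by linarith
  have hV : c * z 0 + c * z 1 + c * z 2 + c * z 3 + c * z 4 ≤ 2 * (5 + 3 * s) := by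
    rw [← hcd]
    have h1 : z 0 + z 1 + z 2 + z 3 + z 4 ≤ 2 := by
      nlinarith [mul_pos t0 t1, mul_pos t1 t2, mul_pos t2 t3, mul_pos t3 t4, mul_pos t4 t0]
    nlinarith
  have hmain := IneqP_main hs hs0 b0 b1 b2 b3 b4 hV (by
    rw [← hcd, z0, z1, z2, z3, z4]
    linear_combination (9 * c ^ 2) * hrel)
  have hinv : ∀ x : ℝ, 0 < x → 1 / (c * x) = (2 / x) / (2 * c) := by
    intro x hx
    field_simp
  rw [hinv _ p0, hinv _ p1, hinv _ p2, hinv _ p3, hinv _ p4, ← add_div, ← add_div, ← add_div,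
    ← add_div, le_div_iff₀ (by positivity)] at hmain
  linarith

end Pool.Agent.helper42.PD
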