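import Pool.Agent.helper42.PD.Defs

/-!
PD-8: every convex polygon (convex hull of a finite set, with nonempty interior) has
counterclockwise labelled vertices.

PROOF.  Take a subset `E` of `S` of minimal cardinality `n` with the same convex hull; then no
point of `E` is in the convex hull of the others (otherwise remove it), and `n >= 3` because the
hull has nonempty interior (the hull of at most two points lies on a line; such a set has empty
interior).  Choose `a` in `E`.  For distinct `p, q` in `E \ {a}` one has `dd a p q ≠ 0` (three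
distinct points of `E` on a line: one is between the other two).  The relation
`p < q :<-> 0 < dd a p q` on `E \ {a}` is total and transitive: if `dd a p q > 0`,
`dd a q r > 0` and `dd a r p > 0` then `a` is a convex combination of `p, q, r` (weights
`dd a q r`, `dd a r p`, `dd a p q` up to scaling), contradiction.  List `E \ {a}` in increasing
order `w 1 < ... < w (n-1)` and put `w 0 = a`.  For `1 <= i < j < k`: if `dd (w i) (w j) (w k) <= 0`
then, with `p = w i`, `q = w j`, `r = w k`, from the identity
`dd a p q + dd a q r - dd a p r = dd p q r` (signs: `dd p q r = dd a p q + dd a q r + dd a r p`) the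
point `q` is a convex combination of `a, p, r` with weights
`- dd p q r / dd a p r >= 0`, `dd a q r/dd a p r > 0`, `dd a p q/dd a p r > 0`: contradiction.
-/

namespace Pool.Agent.helper42.PD

theorem Label_mem3 {C : Set Plane} (hC : Convex ℝ C) {x y z q : Plane} (hx : x ∈ C) (hy : y ∈ C)
    (hz : z ∈ C) {α β γ : ℝ} (hα : 0 ≤ α) (hβ : 0 ≤ β) (hγ : 0 ≤ γ) (hs : 0 < α + β + γ)
    (h : ∀ i : Fin 2, (α + β + γ) * q i = α * x i + β * y i + γ * z i) : q ∈ C := by
  have h1 : q = ∑ i : Fin 3, (![α / (α + β + γ), β / (α + β + γ), γ / (α + β + γ)] i) •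
      (![x, y, z] i) := by
    rw [Fin.sum_univ_three]
    ext i
    simp only [Matrix.cons_val_zero, Matrix.cons_val_one, Matrix.cons_val,
      PiLp.add_apply, PiLp.smul_apply, smul_eq_mul]
    have := h i
    field_simp
    linarith
  rw [h1]
  refine hC.sum_mem ?_ ?_ ?_
  · intro i _
    fin_cases i <;> simp <;> positivity
  · rw [Fin.sum_univ_three]
    simp only [Matrix.cons_val_zero, Matrix.cons_val_one, Matrix.cons_val]
    field_simp
  · intro i _
    fin_cases i <;> simp <;> assumption

/-- Minimal subset with the same hull. -/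
theorem Label_min (S : Finset Plane) :
    ∃ E : Finset Plane, E ⊆ S ∧ convexHull ℝ (E : Set Plane) = convexHull ℝ (S : Set Plane) ∧
      ∀ x ∈ E, x ∉ convexHull ℝ ((E : Set Plane) \ {x}) := by
  classical
  obtain ⟨E, hE, hmin⟩ := Finset.exists_min_image
    (S.powerset.filter fun E : Finset Plane =>
      convexHull ℝ (E : Set Plane) = convexHull ℝ (S : Set Plane)) Finset.card
    ⟨S, by simp⟩
  rw [Finset.mem_filter, Finset.mem_powerset] at hE
  refine ⟨E, hE.1, hE.2, ?_⟩
  intro x hx hx2
  have h1 : ((E.erase x : Finset Plane) : Set Plane) = (E : Set Plane) \ {x} := Finset.coe_erase x E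
  have h2 : convexHull ℝ ((E.erase x : Finset Plane) : Set Plane) = convexHull ℝ (E : Set Plane) := by
    rw [h1]
    apply subset_antisymm
    · exact convexHull_mono Set.sdiff_subset
    · refine convexHull_min ?_ (convex_convexHull ℝ _)
      intro y hy
      by_cases hyx : y = x
      · rw [hyx]; exact hx2
      · exact subset_convexHull ℝ _ ⟨hy, hyx⟩
  have h3 := hmin (E.erase x) (by
    rw [Finset.mem_filter, Finset.mem_powerset]
    exact ⟨(Finset.erase_subset _ _).trans hE.1, h2.trans hE.2⟩)
  rw [Finset.card_erase_of_mem hx] at h3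
  have h4 : 0 < E.card := Finset.card_pos.2 ⟨x, hx⟩
  omega

theorem Label_card (E : Finset Plane) (h : (interior (convexHull ℝ (E : Set Plane))).Nonempty) :
    3 ≤ E.card := by
  classical
  rw [interior_convexHull_nonempty_iff_affineSpan_eq_top] at h
  by_contra hc
  push Not at hc
  have h1 : vectorSpan ℝ (E : Set Plane) = ⊤ := by
    rw [← direction_affineSpan, h, AffineSubspace.direction_top]
  rcases Nat.eq_zero_or_pos E.card with h0 | h0
  · rw [Finset.card_eq_zero] at h0
    rw [h0] at h
    simp at h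
  · obtain ⟨n, hn⟩ : ∃ n, E.card = n + 1 := ⟨E.card - 1, by omega⟩
    have h2 := finrank_vectorSpan_image_finset_le ℝ (id : Plane → Plane) E hn
    rw [Finset.image_id, h1, finrank_top] at h2
    simp at h2
    omega

theorem Label_collinear {a p q : Plane} (h : dd a p q = 0) : Collinear ℝ ({a, p, q} : Set Plane) := by
  by_cases hpa : p = a
  · rw [hpa]
    simp only [Set.insert_eq_of_mem, Set.mem_insert_iff, true_or]
    exact collinear_pair ℝ a q
  rw [collinear_iff_of_mem (p₀ := a) (by simp)]
  refine ⟨p - a, ?_⟩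
  have hne : p 0 - a 0 ≠ 0 ∨ p 1 - a 1 ≠ 0 := by
    by_contra hh
    push Not at hh
    apply hpa
    ext i
    fin_cases i
    · simp only [Fin.zero_eta]; linarith [hh.1]
    · simp only [Fin.mk_one]; linarith [hh.2]
  rw [dd_eq] at h
  intro x hx
  simp only [Set.mem_insert_iff, Set.mem_singleton_iff] at hx
  rcases hx with rfl | rfl | rfl
  · exact ⟨0, by simp⟩
  · exact ⟨1, by simp⟩
  · rcases hne with h0 | h0
    · refine ⟨(x 0 - a 0) / (p 0 - a 0), ?_⟩
      ext i
      fin_cases i
      · simp only [Fin.zero_eta, vadd_eq_add, PiLp.add_apply, PiLp.smul_apply, PiLp.sub_apply,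
          smul_eq_mul]
        field_simp
        ring
      · simp only [Fin.mk_one, vadd_eq_add, PiLp.add_apply, PiLp.smul_apply, PiLp.sub_apply,
          smul_eq_mul]
        field_simp
        linarith
    · refine ⟨(x 1 - a 1) / (p 1 - a 1), ?_⟩
      ext i
      fin_cases i
      · simp only [Fin.zero_eta, vadd_eq_add, PiLp.add_apply, PiLp.smul_apply, PiLp.sub_apply,
          smul_eq_mul]
        field_simp
        linarith
      · simp only [Fin.mk_one, vadd_eq_add, PiLp.add_apply, PiLp.smul_apply, PiLp.sub_apply,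
          smul_eq_mul]
        field_simp
        ring

theorem Label_wbtw {E : Set Plane} (hE : ∀ x ∈ E, x ∉ convexHull ℝ (E \ {x})) {x y z : Plane}
    (hx : x ∈ E) (hy : y ∈ E) (hz : z ∈ E) (hxy : x ≠ y) (hyz : y ≠ z) (h : Wbtw ℝ x y z) : False := by
  apply hE y hy
  have h1 : y ∈ segment ℝ x z := by
    rw [← affineSegment_eq_segment]
    exact h
  rw [← convexHull_pair] at h1
  refine convexHull_mono ?_ h1
  intro w hw
  simp only [Set.mem_insert_iff, Set.mem_singleton_iff] at hw
  rcases hw with rfl | rfl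
  · exact ⟨hx, hxy⟩
  · exact ⟨hz, fun hh => hyz hh.symm⟩

theorem Label_ne {E : Set Plane} (hE : ∀ x ∈ E, x ∉ convexHull ℝ (E \ {x})) {a p q : Plane}
    (ha : a ∈ E) (hp : p ∈ E) (hq : q ∈ E) (hap : a ≠ p) (hpq : p ≠ q) (haq : a ≠ q) :
    dd a p q ≠ 0 := by
  intro h
  rcases (Label_collinear h).wbtw_or_wbtw_or_wbtw with h1 | h1 | h1
  · exact Label_wbtw hE ha hp hq hap hpq h1
  · exact Label_wbtw hE hp hq ha hpq haq.symm h1
  · exact Label_wbtw hE hq ha hp haq.symm hap h1

theorem Label_trans {E : Set Plane} (hE : ∀ x ∈ E, x ∉ convexHull ℝ (E \ {x})) {a p q r : Plane}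
    (ha : a ∈ E) (hp : p ∈ E) (hq : q ∈ E) (hr : r ∈ E) (hap : a ≠ p) (haq : a ≠ q) (har : a ≠ r)
    (h1 : 0 < dd a p q) (h2 : 0 < dd a q r) : 0 < dd a p r := by
  by_contra h3
  push Not at h3
  have hpr : p ≠ r := by
    rintro rfl
    rw [dd_eq] at h1 h2
    linarith
  have h4 : dd a p r ≠ 0 := Label_ne hE ha hp hr hap hpr har
  have h5 : dd a p r < 0 := lt_of_le_of_ne h3 h4
  apply hE a ha
  refine Label_mem3 (convex_convexHull ℝ _) (x := p) (y := q) (z := r)
    (subset_convexHull ℝ _ ⟨hp, fun h => hap h.symm⟩)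
    (subset_convexHull ℝ _ ⟨hq, fun h => haq h.symm⟩)
    (subset_convexHull ℝ _ ⟨hr, fun h => har h.symm⟩)
    (α := dd a q r) (β := - dd a p r) (γ := dd a p q) h2.le (by linarith) h1.le (by linarith) ?_
  intro i
  rw [dd_eq, dd_eq, dd_eq]
  fin_cases i
  · simp only [Fin.zero_eta]; ring
  · simp only [Fin.mk_one]; ring

theorem Label_pos {E : Set Plane} (hE : ∀ x ∈ E, x ∉ convexHull ℝ (E \ {x})) {a p q r : Plane}
    (ha : a ∈ E) (hp : p ∈ E) (hq : q ∈ E) (hr : r ∈ E) (haq : a ≠ q) (hpq : p ≠ q) (hqr : q ≠ r)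
    (h1 : 0 < dd a p q) (h2 : 0 < dd a q r) (h3 : 0 < dd a p r) : 0 < dd p q r := by
  by_contra h4
  push Not at h4
  have h5 : dd p q r = dd a p q + dd a q r - dd a p r := by
    simp only [dd_eq]; ring
  apply hE q hq
  refine Label_mem3 (convex_convexHull ℝ _) (x := a) (y := p) (z := r)
    (subset_convexHull ℝ _ ⟨ha, haq⟩)
    (subset_convexHull ℝ _ ⟨hp, hpq⟩)
    (subset_convexHull ℝ _ ⟨hr, fun h => hqr h.symm⟩)
    (α := - dd p q r) (β := dd a q r) (γ := dd a p q) (by linarith) h2.le h1.le (by linarith) ?_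
  intro i
  simp only [dd_eq]
  fin_cases i
  · simp only [Fin.zero_eta]; ring
  · simp only [Fin.mk_one]; ring

theorem exists_ccw (S : Finset Plane)
    (hne : (interior (convexHull ℝ (S : Set Plane))).Nonempty) :
    ∃ (n : ℕ) (v : Fin n → Plane), 3 ≤ n ∧ n ≤ S.card ∧
      convexHull ℝ (Set.range v) = convexHull ℝ (S : Set Plane) ∧
      ∀ i j k : Fin n, i < j → j < k → 0 < dd (v i) (v j) (v k) := by
  classical
  obtain ⟨E, hES, hEhull, hirr⟩ := Label_min S
  have hirr' : ∀ x ∈ (E : Set Plane), x ∉ convexHull ℝ ((E : Set Plane) \ {x}) := fun x hx =>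
    hirr x (by exact_mod_cast hx)
  have hcard : 3 ≤ E.card := Label_card E (by rw [hEhull]; exact hne)
  obtain ⟨a, ha⟩ : E.Nonempty := by
    rw [← Finset.card_pos]; omega
  let X := {x : Plane // x ∈ E.erase a}
  have hXmem : ∀ x : X, (x : Plane) ∈ E ∧ a ≠ (x : Plane) := by
    intro x
    have := Finset.mem_erase.1 x.2
    exact ⟨this.2, fun h => this.1 h.symm⟩
  let rel : X → X → Prop := fun p q => 0 < dd a (p : Plane) (q : Plane)
  have hirrefl : ∀ p : X, ¬ rel p p := by
    intro p h
    change 0 < dd a (p : Plane) (p : Plane) at h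
    rw [dd_eq] at h
    linarith
  have htrans : ∀ p q r : X, rel p q → rel q r → rel p r := by
    intro p q r h1 h2
    exact Label_trans hirr' (by exact_mod_cast ha) (by exact_mod_cast (hXmem p).1)
      (by exact_mod_cast (hXmem q).1) (by exact_mod_cast (hXmem r).1) (hXmem p).2 (hXmem q).2
      (hXmem r).2 h1 h2
  have htri : ∀ p q : X, ¬ rel p q → ¬ rel q p → p = q := by
    intro p q h1 h2
    by_contra hpq
    have hne' : (p : Plane) ≠ q := fun h => hpq (Subtype.ext h)
    have h3 := Label_ne hirr' (a := a) (p := (p : Plane)) (q := (q : Plane))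
      (by exact_mod_cast ha) (by exact_mod_cast (hXmem p).1) (by exact_mod_cast (hXmem q).1)
      (hXmem p).2 hne' (hXmem q).2
    change ¬ 0 < dd a (p : Plane) (q : Plane) at h1
    change ¬ 0 < dd a (q : Plane) (p : Plane) at h2
    apply h3
    push Not at h1 h2
    rw [dd_eq] at h1 h2 ⊢
    linarith
  have hsto : IsStrictTotalOrder X rel := 
    { irrefl := hirrefl
      trans := htrans
      trichotomous := htri }
  let lo : LinearOrder X := @linearOrderOfSTO X rel hsto (Classical.decRel _)
  have hcX : Fintype.card X = E.card - 1 := by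
    rw [Fintype.card_coe, Finset.card_erase_of_mem ha]
  let w : Fin (E.card - 1) ≃o X := @Fintype.orderIsoFinOfCardEq X lo _ (E.card - 1) hcX
  have hw : ∀ i j : Fin (E.card - 1), i < j → 0 < dd a (w i : Plane) (w j : Plane) := by
    intro i j hij
    exact (w.lt_iff_lt.2 hij)
  have hn : E.card - 1 + 1 = E.card := by omega
  refine ⟨E.card - 1 + 1, Fin.cons a (fun i => (w i : Plane)), by omega, ?_, ?_, ?_⟩
  · rw [hn]; exact Finset.card_le_card hES
  · rw [← hEhull]
    congr 1
    rw [Fin.range_cons]
    ext x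
    simp only [Set.mem_insert_iff, Set.mem_range, Finset.mem_coe]
    constructor
    · rintro (rfl | ⟨i, rfl⟩)
      · exact ha
      · exact (hXmem _).1
    · intro hx
      by_cases hxa : x = a
      · exact Or.inl hxa
      · right
        obtain ⟨i, hi⟩ := w.surjective ⟨x, Finset.mem_erase.2 ⟨hxa, hx⟩⟩
        exact ⟨i, by rw [hi]⟩
  · intro i j k hij hjk
    obtain ⟨j', rfl⟩ := Fin.exists_succ_eq.2 (Fin.ne_zero_of_lt hij)
    obtain ⟨k', rfl⟩ := Fin.exists_succ_eq.2 (Fin.ne_zero_of_lt hjk)
    have hjk' : j' < k' := by simpa using hjk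
    rcases Fin.eq_zero_or_eq_succ i with rfl | ⟨i', rfl⟩
    · simp only [Fin.cons_zero, Fin.cons_succ]
      exact hw _ _ hjk'
    · have hij' : i' < j' := by simpa using hij
      simp only [Fin.cons_succ]
      have e1 : (w i' : Plane) ≠ w j' := fun h => hij'.ne (w.injective (Subtype.ext h))
      have e2 : (w j' : Plane) ≠ w k' := fun h => hjk'.ne (w.injective (Subtype.ext h))
      exact Label_pos hirr' (a := a) (by exact_mod_cast ha) (by exact_mod_cast (hXmem _).1)
        (by exact_mod_cast (hXmem _).1) (by exact_mod_cast (hXmem _).1) (hXmem _).2 e1 e2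
        (hw _ _ hij') (hw _ _ hjk') (hw _ _ (hij'.trans hjk'))

end Pool.Agent.helper42.PD
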