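import Pool.Agent.helper42.PD.Data

/-!
PD-9: triangles and quadrilaterals have double lattice packings of density 1.

TRIANGLE `v0 v1 v2`: use `good_of_data` with `e = v0 - m`, `m` the midpoint of `v1 v2`, strip between
the line `v1 v2` and its parallel through `v0`; `pR = (v0 + v2)/2` (on the side `v0 v2`),
`pR - e/2 = (m + v2)/2` on the side `v1 v2`; `pL = (v0 + v1)/2`, `pL - e/2 = (m + v1)/2`.
QUADRILATERAL `v0 v1 v2 v3`: `e = v0 - v2` (a diagonal), strip between the parallels to the other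
diagonal `v1 v3` through `v0` and `v2`; `pR = (v0 + v3)/2`, `pR - e/2 = (v2 + v3)/2`,
`pL = (v0 + v1)/2`, `pL - e/2 = (v1 + v2)/2`.
-/

set_option linter.unusedSimpArgs false

namespace Pool.Agent.helper42.PD

private lemma Small_hull_le {m : ℕ} {v : Fin m → Plane} {n : Plane} {c : ℝ}
    (h : ∀ i, det2 (v i) n ≤ c) : ∀ z ∈ convexHull ℝ (Set.range v), det2 z n ≤ c := by
  have hconv : Convex ℝ {z : Plane | det2 z n ≤ c} := by
    intro a ha b hb s t hs ht hst
    simp only [Set.mem_ofPred_eq] at ha hb ⊢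
    rw [det2_add_left, det2_smul_left, det2_smul_left]
    have h1 := mul_le_mul_of_nonneg_left ha hs
    have h2 := mul_le_mul_of_nonneg_left hb ht
    have h3 : s * c + t * c = c := by rw [← add_mul, hst, one_mul]
    linarith
  have hsub : convexHull ℝ (Set.range v) ⊆ {z : Plane | det2 z n ≤ c} := by
    apply convexHull_min _ hconv
    rintro _ ⟨i, rfl⟩
    exact h i
  exact fun z hz => hsub hz

private lemma Small_hull_ge {m : ℕ} {v : Fin m → Plane} {n : Plane} {c : ℝ}
    (h : ∀ i, c ≤ det2 (v i) n) : ∀ z ∈ convexHull ℝ (Set.range v), c ≤ det2 z n := by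
  intro z hz
  have e : ∀ u : Plane, det2 u (-n) = - det2 u n := by
    intro u; simp only [det2, PiLp.neg_apply]; ring
  have := Small_hull_le (n := -n) (c := -c) (fun i => by rw [e]; linarith [h i]) z hz
  rw [e] at this
  linarith

private lemma Small_ne {u n : Plane} (h : det2 u n ≠ 0) : n ≠ 0 := by
  rintro rfl
  exact h (by simp [det2])

theorem good_triangle {v : Fin 3 → Plane} (hv : 0 < dd (v 0) (v 1) (v 2)) :
    Good (convexHull ℝ (Set.range v)) (dd (v 0) (v 1) (v 2)) := by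
  rw [dd_eq] at hv ⊢
  have hF : (v 1 0 - v 0 0) * (v 2 1 - v 0 1) - (v 1 1 - v 0 1) * (v 2 0 - v 0 0)
      = 2 * (det2 ((1 / 2 : ℝ) • (v 0 + v 2)) (v 0 - (1 / 2 : ℝ) • (v 1 + v 2))
        - det2 ((1 / 2 : ℝ) • (v 0 + v 1)) (v 0 - (1 / 2 : ℝ) • (v 1 + v 2))) := by
    simp only [det2, PiLp.sub_apply, PiLp.add_apply, PiLp.smul_apply, smul_eq_mul]
    ring
  rw [hF]
  refine good_of_data (n0 := v 1 - v 2) (n1 := v 0 - v 2) (n2 := v 2 - v 1)
    (m1 := v 1 - v 0) (m2 := v 2 - v 1) (c0 := det2 (v 1) (v 1 - v 2))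
    (c1 := det2 (v 2) (v 0 - v 2)) (c2 := det2 (v 1) (v 2 - v 1))
    (d1 := det2 (v 0) (v 1 - v 0)) (d2 := det2 (v 1) (v 2 - v 1))
    (x0 := det2 (v 0) (v 0 - (1 / 2 : ℝ) • (v 1 + v 2)))
    ?_ ?_ ?_ ?_ ?_ ?_ ?_ ?_ ?_ ?_ ?_ ?_ ?_ ?_ ?_ ?_ ?_ ?_ ?_ ?_ ?_ ?_ ?_
  · apply Small_hull_ge
    intro i
    fin_cases i <;> simp only [det2, PiLp.sub_apply, PiLp.add_apply, PiLp.smul_apply,
      smul_eq_mul, Fin.mk_one, Fin.zero_eta, Fin.reduceFinMk] <;> linarith
  · apply Small_hull_le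
    intro i
    fin_cases i <;> simp only [det2, PiLp.sub_apply, PiLp.add_apply, PiLp.smul_apply,
      smul_eq_mul, Fin.mk_one, Fin.zero_eta, Fin.reduceFinMk] <;> linarith
  · simp only [det2, PiLp.sub_apply, PiLp.add_apply, PiLp.smul_apply, smul_eq_mul]
    linarith
  · simp only [det2, PiLp.sub_apply, PiLp.add_apply, PiLp.smul_apply, smul_eq_mul]
    linarith
  · simp only [det2, PiLp.sub_apply, PiLp.add_apply, PiLp.smul_apply, smul_eq_mul]
    linarith
  · apply Small_hull_le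
    intro i
    fin_cases i <;> simp only [det2, PiLp.sub_apply, PiLp.add_apply, PiLp.smul_apply,
      smul_eq_mul, Fin.mk_one, Fin.zero_eta, Fin.reduceFinMk] <;> linarith
  · apply Small_hull_ge
    intro i
    fin_cases i <;> simp only [det2, PiLp.sub_apply, PiLp.add_apply, PiLp.smul_apply,
      smul_eq_mul, Fin.mk_one, Fin.zero_eta, Fin.reduceFinMk] <;> linarith
  · refine Small_ne (u := v 1 - v 2) (ne_of_lt ?_)
    simp only [det2, PiLp.sub_apply]
    linarith
  · refine Small_ne (u := v 1 - v 0) (ne_of_gt ?_)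
    simp only [det2, PiLp.sub_apply]
    linarith
  · refine Small_ne (u := v 0 - v 2) (ne_of_gt ?_)
    simp only [det2, PiLp.sub_apply]
    linarith
  · refine Small_ne (u := v 1 - v 0) (ne_of_gt ?_)
    simp only [det2, PiLp.sub_apply]
    linarith
  all_goals first
    | (apply Small_hull_le
       intro i
       fin_cases i <;> simp only [det2, PiLp.sub_apply, PiLp.add_apply, PiLp.smul_apply,
         smul_eq_mul, Fin.mk_one, Fin.zero_eta, Fin.reduceFinMk] <;> linarith)
    | (simp only [det2, PiLp.sub_apply, PiLp.add_apply, PiLp.smul_apply, smul_eq_mul]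
       linarith)

theorem good_quad {v : Fin 4 → Plane}
    (hv : ∀ i j k : Fin 4, i < j → j < k → 0 < dd (v i) (v j) (v k)) :
    Good (convexHull ℝ (Set.range v)) (dd (v 0) (v 1) (v 2) + dd (v 0) (v 2) (v 3)) := by
  have d012 := hv 0 1 2 (by decide) (by decide)
  have d013 := hv 0 1 3 (by decide) (by decide)
  have d023 := hv 0 2 3 (by decide) (by decide)
  have d123 := hv 1 2 3 (by decide) (by decide)
  rw [dd_eq] at d012 d013 d023 d123
  have hF : dd (v 0) (v 1) (v 2) + dd (v 0) (v 2) (v 3)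
      = 2 * (det2 ((1 / 2 : ℝ) • (v 0 + v 3)) (v 0 - v 2)
        - det2 ((1 / 2 : ℝ) • (v 0 + v 1)) (v 0 - v 2)) := by
    simp only [dd, det2, PiLp.sub_apply, PiLp.add_apply, PiLp.smul_apply, smul_eq_mul]
    ring
  rw [hF]
  refine good_of_data (n0 := v 1 - v 3) (n1 := v 0 - v 3) (n2 := v 3 - v 2)
    (m1 := v 1 - v 0) (m2 := v 2 - v 1) (c0 := det2 (v 2) (v 1 - v 3))
    (c1 := det2 (v 3) (v 0 - v 3)) (c2 := det2 (v 2) (v 3 - v 2))
    (d1 := det2 (v 0) (v 1 - v 0)) (d2 := det2 (v 1) (v 2 - v 1))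
    (x0 := det2 (v 0) (v 0 - v 2))
    ?_ ?_ ?_ ?_ ?_ ?_ ?_ ?_ ?_ ?_ ?_ ?_ ?_ ?_ ?_ ?_ ?_ ?_ ?_ ?_ ?_ ?_ ?_
  · apply Small_hull_ge
    intro i
    fin_cases i <;> simp only [det2, PiLp.sub_apply, PiLp.add_apply, PiLp.smul_apply,
      smul_eq_mul, Fin.mk_one, Fin.zero_eta, Fin.reduceFinMk] <;> linarith
  · apply Small_hull_le
    intro i
    fin_cases i <;> simp only [det2, PiLp.sub_apply, PiLp.add_apply, PiLp.smul_apply,
      smul_eq_mul, Fin.mk_one, Fin.zero_eta, Fin.reduceFinMk] <;> linarith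
  · simp only [det2, PiLp.sub_apply, PiLp.add_apply, PiLp.smul_apply, smul_eq_mul]
    linarith
  · simp only [det2, PiLp.sub_apply, PiLp.add_apply, PiLp.smul_apply, smul_eq_mul]
    linarith
  · simp only [det2, PiLp.sub_apply, PiLp.add_apply, PiLp.smul_apply, smul_eq_mul]
    linarith
  · apply Small_hull_le
    intro i
    fin_cases i <;> simp only [det2, PiLp.sub_apply, PiLp.add_apply, PiLp.smul_apply,
      smul_eq_mul, Fin.mk_one, Fin.zero_eta, Fin.reduceFinMk] <;> linarith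
  · apply Small_hull_ge
    intro i
    fin_cases i <;> simp only [det2, PiLp.sub_apply, PiLp.add_apply, PiLp.smul_apply,
      smul_eq_mul, Fin.mk_one, Fin.zero_eta, Fin.reduceFinMk] <;> linarith
  · refine Small_ne (u := v 2 - v 0) (ne_of_lt ?_)
    simp only [det2, PiLp.sub_apply]
    linarith
  · refine Small_ne (u := v 0 - v 2) (ne_of_lt ?_)
    simp only [det2, PiLp.sub_apply]
    linarith
  · refine Small_ne (u := v 0 - v 2) (ne_of_gt ?_)
    simp only [det2, PiLp.sub_apply]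
    linarith
  · refine Small_ne (u := v 0 - v 2) (ne_of_lt ?_)
    simp only [det2, PiLp.sub_apply]
    linarith
  all_goals first
    | (apply Small_hull_le
       intro i
       fin_cases i <;> simp only [det2, PiLp.sub_apply, PiLp.add_apply, PiLp.smul_apply,
         smul_eq_mul, Fin.mk_one, Fin.zero_eta, Fin.reduceFinMk] <;> linarith)
    | (simp only [det2, PiLp.sub_apply, PiLp.add_apply, PiLp.smul_apply, smul_eq_mul]
       linarith)

end Pool.Agent.helper42.PD
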