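import Pool.Agent.helper42.PD.Data

/-!
PD-4: double lattice packings of a pentagon in a direction `v 0 - m`, `m` on the side `v 2 v 3`.

Notation (all areas doubled): `T_i = TT v i`, `A = AA v`, `Z_j = ZZ v j`.
Identities (polynomial, `ring` after unfolding): `dd v0 v2 v3 = A - T_1 - T_4`,
`dd v0 v2 v4 = A - T_1 - T_3`, `dd v0 v1 v3 = A - T_2 - T_4`,
so `dd v0 v2 v4 - T_4 = Z_3`, `dd v0 v1 v3 - T_1 = Z_1`.

PROOF.  `m = mu • v2 + lam • v3`, `mu = 1 - lam`, `e = v0 - m`, `X z = det2 z e` (so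
`X v0 = X m = x0`).  Strip: `n0 = v3 - v2` up to sign: `det2 z (v2 - v3)`: value at `v0` minus
value at `m` is `dd v0 v2 v3 > 0`; the values of `v1`, `v4` lie between because
`dd v1 v2 v3 = T_2 <= dd v0 v2 v3` iff `Z_1 >= 0`, and `T_3 <= dd v0 v2 v3` iff `Z_3 >= 0`.
RIGHT SIDE (`X > x0`): `S = X v3 - x0 = mu * dd v0 v2 v3`, `P = X v4 - x0 =
mu * dd v0 v2 v4 + lam * T_4 = T_4 + mu * Z_3`, `P - S = T_4 - mu * T_3`.
 Case `S <= P`: `pR = v4 + ((P - S)/(2 T_4)) • (v0 - v4)`, then `pR - e/2 = v4 +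
 (P/(2 T_4)) • (v3 - v4)`; half planes: the sides `v0 v4` and `v3 v4`;
 `X pR - x0 = P (2 T_4 - P + S)/(2 T_4)`; `P <= 2 (X pR - x0)` because `P - S <= T_4`.
 Case `P < S`: put `T' = S + T_4 - P > 0` (twice the area of `m v3 v4`);
 `pR = v3 + (S/(2 T')) • (v4 - v3)`, `pR - e/2 = v3 + ((S - P)/(2 T')) • (m - v3)`; half planes:
 the sides `v3 v4` and `v2 v3`; `X pR - x0 = S (2 T_4 - P + S)/(2 T')`, which is at most
 `P (2 T_4 - P + S)/(2 T_4)` because `S T_4 <= P T'`, i.e. `(S - P)(T_4 - P) <= 0`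
 (`T_4 <= P` since `Z_3 >= 0`).
LEFT SIDE: the mirror image (`v1`, `v2` instead of `v4`, `v3`; `lam` instead of `mu`):
 `S' = lam * dd v0 v2 v3`, `P' = T_1 + lam * Z_1`, `P' - S' = T_1 - lam * T_2`.
SUM: `2 (X pR - X pL) <= P (2 T_4 - P + S)/T_4 + P' (2 T_1 - P' + S')/T_1
 = (T_4 + mu Z_3)(T_4 + mu T_3)/T_4 + (T_1 + lam Z_1)(T_1 + lam T_2)/T_1
 = A + lam^2 Z_1 T_2/T_1 + mu^2 Z_3 T_3/T_4` (use `Z_1 + T_2 = Z_3 + T_3 = A - T_1 - T_4`).
If `mu = 0` (so `S = 0`) or `lam = 0` everything stays valid (`P = T_4 > 0`).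
-/

namespace Pool.Agent.helper42.PD

lemma Type1_TT1 (v : Fin 5 → Plane) : TT v 1 = dd (v 0) (v 1) (v 2) := rfl
lemma Type1_TT2 (v : Fin 5 → Plane) : TT v 2 = dd (v 1) (v 2) (v 3) := rfl
lemma Type1_TT3 (v : Fin 5 → Plane) : TT v 3 = dd (v 2) (v 3) (v 4) := rfl
lemma Type1_TT4 (v : Fin 5 → Plane) : TT v 4 = dd (v 3) (v 4) (v 0) := rfl
lemma Type1_ZZ1 (v : Fin 5 → Plane) : ZZ v 1 = AA v - TT v 1 - TT v 2 - TT v 4 := rfl
lemma Type1_ZZ3 (v : Fin 5 → Plane) : ZZ v 3 = AA v - TT v 3 - TT v 4 - TT v 1 := rfl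

/-- the data on the right side -/
lemma Type1_right {v : Fin 5 → Plane} (hv : ConvexPentagon v) (h3 : 0 ≤ ZZ v 3)
    {mu lam : ℝ} (hm0 : 0 ≤ mu) (hl0 : 0 ≤ lam) (hml : mu + lam = 1) {e : Plane}
    (he : e = v 0 - (mu • v 2 + lam • v 3)) :
    ∃ (pR n1 n2 : Plane) (c1 c2 : ℝ), det2 (v 0) e < det2 pR e ∧
      (∀ i, det2 (v i) e ≤ 2 * det2 pR e - det2 (v 0) e) ∧ n1 ≠ 0 ∧ n2 ≠ 0 ∧
      (∀ i, det2 (v i) n1 ≤ c1) ∧ c1 ≤ det2 pR n1 ∧ 0 ≤ det2 e n1 ∧
      (∀ i, det2 (v i) n2 ≤ c2) ∧ c2 ≤ det2 (pR - (1 / 2 : ℝ) • e) n2 ∧ det2 e n2 ≤ 0 ∧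
      det2 pR e - det2 (v 0) e ≤
        (TT v 4 + mu * ZZ v 3) * (TT v 4 + mu * TT v 3) / (2 * TT v 4) := by
  obtain rfl : lam = 1 - mu := by linarith
  have h012 := hv 0 1 2 (by decide) (by decide)
  have h013 := hv 0 1 3 (by decide) (by decide)
  have h014 := hv 0 1 4 (by decide) (by decide)
  have h023 := hv 0 2 3 (by decide) (by decide)
  have h024 := hv 0 2 4 (by decide) (by decide)
  have h034 := hv 0 3 4 (by decide) (by decide)
  have h123 := hv 1 2 3 (by decide) (by decide)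
  have h124 := hv 1 2 4 (by decide) (by decide)
  have h134 := hv 1 3 4 (by decide) (by decide)
  have h234 := hv 2 3 4 (by decide) (by decide)
  set D : ℝ := dd (v 0) (v 2) (v 3) with hD
  set T4 : ℝ := dd (v 0) (v 3) (v 4) with hT4
  set T3 : ℝ := dd (v 2) (v 3) (v 4) with hT3
  set D4 : ℝ := dd (v 0) (v 2) (v 4) with hD4
  have eT4 : TT v 4 = T4 := by
    rw [Type1_TT4, hT4, dd_eq, dd_eq]; ring
  have eT3 : TT v 3 = T3 := Type1_TT3 v
  -- values of `X`
  have x1 : det2 (v 1) e = det2 (v 0) e - (mu * dd (v 0) (v 1) (v 2)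
      + (1 - mu) * dd (v 0) (v 1) (v 3)) := by
    rw [he]; simp only [dd_eq, det2, PiLp.sub_apply, PiLp.add_apply, PiLp.smul_apply, smul_eq_mul]
    ring
  have x2 : det2 (v 2) e = det2 (v 0) e - (1 - mu) * D := by
    rw [he, hD]; simp only [dd_eq, det2, PiLp.sub_apply, PiLp.add_apply, PiLp.smul_apply, smul_eq_mul]
    ring
  have x3 : det2 (v 3) e = det2 (v 0) e + mu * D := by
    rw [he, hD]; simp only [dd_eq, det2, PiLp.sub_apply, PiLp.add_apply, PiLp.smul_apply, smul_eq_mul]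
    ring
  have x4 : det2 (v 4) e = det2 (v 0) e + (mu * D4 + (1 - mu) * T4) := by
    rw [he, hD4, hT4]
    simp only [dd_eq, det2, PiLp.sub_apply, PiLp.add_apply, PiLp.smul_apply, smul_eq_mul]
    ring
  have eD4 : D4 = T4 + ZZ v 3 := by
    rw [Type1_ZZ3, hD4, hT4, AA, Type1_TT1, Type1_TT3, Type1_TT4]
    simp only [dd_eq]
    ring
  have eD : D = T3 + ZZ v 3 := by
    rw [Type1_ZZ3, hD, hT3, AA, Type1_TT1, Type1_TT3, Type1_TT4]
    simp only [dd_eq]
    ring
  set Z3 : ℝ := ZZ v 3 with hZ3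
  set S : ℝ := mu * D with hS
  set P : ℝ := T4 + mu * Z3 with hP
  have x4' : det2 (v 4) e = det2 (v 0) e + P := by
    rw [x4, eD4, hP]; ring
  have hPS : P - S = T4 - mu * T3 := by
    rw [hP, hS, eD]; ring
  have hP0 : 0 < P := by
    have := mul_nonneg hm0 h3
    rw [hP]; linarith
  have hS0 : 0 ≤ S := mul_nonneg hm0 h023.le
  have hmT3 : 0 ≤ mu * T3 := mul_nonneg hm0 h234.le
  have hx1 : det2 (v 1) e ≤ det2 (v 0) e := by
    rw [x1]
    have := mul_nonneg hm0 h012.le
    have := mul_nonneg hl0 h013.le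
    linarith
  have hx2 : det2 (v 2) e ≤ det2 (v 0) e := by
    rw [x2]
    have := mul_nonneg hl0 h023.le
    linarith
  -- the values of the normals
  have en34 : det2 e (v 4 - v 3) = S - P := by
    have : det2 e (v 4 - v 3) = det2 (v 3) e - det2 (v 4) e := by
      simp only [det2, PiLp.sub_apply]; ring
    rw [this, x3, x4']; ring
  have en40 : det2 e (v 0 - v 4) = P := by
    have : det2 e (v 0 - v 4) = det2 (v 4) e - det2 (v 0) e := by
      simp only [det2, PiLp.sub_apply]; ring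
    rw [this, x4']; ring
  have en23 : det2 e (v 3 - v 2) = - D := by
    have : det2 e (v 3 - v 2) = det2 (v 2) e - det2 (v 3) e := by
      simp only [det2, PiLp.sub_apply]; ring
    rw [this, x3, x2, hS]; ring
  have side34 : ∀ i, det2 (v i) (v 4 - v 3) ≤ det2 (v 3) (v 4 - v 3) := by
    intro i
    have key : ∀ z : Plane, det2 z (v 4 - v 3) = det2 (v 3) (v 4 - v 3) - dd (v 3) (v 4) z := by
      intro z; simp only [dd_eq, det2, PiLp.sub_apply]; ring
    rw [key (v i)]
    have h5 : 0 ≤ dd (v 3) (v 4) (v i) := by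
      fin_cases i
      · show 0 ≤ dd (v 3) (v 4) (v 0)
        have : dd (v 3) (v 4) (v 0) = T4 := by rw [← eT4]; rfl
        linarith
      · show 0 ≤ dd (v 3) (v 4) (v 1)
        have : dd (v 3) (v 4) (v 1) = dd (v 1) (v 3) (v 4) := by simp only [dd_eq]; ring
        linarith
      · show 0 ≤ dd (v 3) (v 4) (v 2)
        have : dd (v 3) (v 4) (v 2) = dd (v 2) (v 3) (v 4) := by simp only [dd_eq]; ring
        linarith
      · show 0 ≤ dd (v 3) (v 4) (v 3)
        have : dd (v 3) (v 4) (v 3) = 0 := by simp only [dd_eq]; ring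
        linarith
      · show 0 ≤ dd (v 3) (v 4) (v 4)
        have : dd (v 3) (v 4) (v 4) = 0 := by simp only [dd_eq]; ring
        linarith
    linarith
  have side40 : ∀ i, det2 (v i) (v 0 - v 4) ≤ det2 (v 4) (v 0 - v 4) := by
    intro i
    have key : ∀ z : Plane, det2 z (v 0 - v 4) = det2 (v 4) (v 0 - v 4) - dd (v 4) (v 0) z := by
      intro z; simp only [dd_eq, det2, PiLp.sub_apply]; ring
    rw [key (v i)]
    have h5 : 0 ≤ dd (v 4) (v 0) (v i) := by
      fin_cases i
      · show 0 ≤ dd (v 4) (v 0) (v 0)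
        have : dd (v 4) (v 0) (v 0) = 0 := by simp only [dd_eq]; ring
        linarith
      · show 0 ≤ dd (v 4) (v 0) (v 1)
        have : dd (v 4) (v 0) (v 1) = dd (v 0) (v 1) (v 4) := by simp only [dd_eq]; ring
        linarith
      · show 0 ≤ dd (v 4) (v 0) (v 2)
        have : dd (v 4) (v 0) (v 2) = dd (v 0) (v 2) (v 4) := by simp only [dd_eq]; ring
        linarith
      · show 0 ≤ dd (v 4) (v 0) (v 3)
        have : dd (v 4) (v 0) (v 3) = dd (v 0) (v 3) (v 4) := by simp only [dd_eq]; ring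
        linarith
      · show 0 ≤ dd (v 4) (v 0) (v 4)
        have : dd (v 4) (v 0) (v 4) = 0 := by simp only [dd_eq]; ring
        linarith
    linarith
  have side23 : ∀ i, det2 (v i) (v 3 - v 2) ≤ det2 (v 2) (v 3 - v 2) := by
    intro i
    have key : ∀ z : Plane, det2 z (v 3 - v 2) = det2 (v 2) (v 3 - v 2) - dd (v 2) (v 3) z := by
      intro z; simp only [dd_eq, det2, PiLp.sub_apply]; ring
    rw [key (v i)]
    have h5 : 0 ≤ dd (v 2) (v 3) (v i) := by
      fin_cases i
      · show 0 ≤ dd (v 2) (v 3) (v 0)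
        have : dd (v 2) (v 3) (v 0) = dd (v 0) (v 2) (v 3) := by simp only [dd_eq]; ring
        linarith
      · show 0 ≤ dd (v 2) (v 3) (v 1)
        have : dd (v 2) (v 3) (v 1) = dd (v 1) (v 2) (v 3) := by simp only [dd_eq]; ring
        linarith
      · show 0 ≤ dd (v 2) (v 3) (v 2)
        have : dd (v 2) (v 3) (v 2) = 0 := by simp only [dd_eq]; ring
        linarith
      · show 0 ≤ dd (v 2) (v 3) (v 3)
        have : dd (v 2) (v 3) (v 3) = 0 := by simp only [dd_eq]; ring
        linarith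
      · show 0 ≤ dd (v 2) (v 3) (v 4)
        linarith
    linarith
  have e34 : det2 (v 0 - v 4) (v 4 - v 3) = - T4 := by
    rw [hT4]; simp only [dd_eq, det2, PiLp.sub_apply]; ring
  have e3 : det2 (v 4 - v 3) (v 3 - v 2) = - T3 := by
    rw [hT3]; simp only [dd_eq, det2, PiLp.sub_apply]; ring
  have ne34 : v 4 - v 3 ≠ 0 := by
    intro h
    rw [h] at e34
    have : det2 (v 0 - v 4) (0 : Plane) = 0 := by simp [det2]
    linarith
  have ne40 : v 0 - v 4 ≠ 0 := by
    intro h
    rw [h] at e34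
    have : det2 (0 : Plane) (v 4 - v 3) = 0 := by simp [det2]
    linarith
  have ne23 : v 3 - v 2 ≠ 0 := by
    intro h
    rw [h] at e3
    have : det2 (v 4 - v 3) (0 : Plane) = 0 := by simp [det2]
    linarith
  rw [eT4, eT3]
  rcases le_or_gt S P with hSP | hSP
  · -- case `S ≤ P`
    set t : ℝ := (P - S) / (2 * T4) with ht
    have ht0 : 0 ≤ t := div_nonneg (by linarith) (by linarith)
    have htT : t * (2 * T4) = P - S := by
      rw [ht]; field_simp
    have ht1 : t ≤ 1 / 2 := by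
      rw [ht, div_le_iff₀ (by linarith)]
      linarith
    have xp : det2 (v 4 + t • (v 0 - v 4)) e = det2 (v 0) e + P * (1 - t) := by
      have : det2 (v 4 + t • (v 0 - v 4)) e = det2 (v 4) e + t * (det2 (v 0) e - det2 (v 4) e) := by
        rw [det2_add_left, det2_smul_left, det2_sub_left]
      rw [this, x4']; ring
    have hPt : 0 < P * (1 - t) := mul_pos hP0 (by linarith)
    have hP2 : P ≤ 2 * (P * (1 - t)) := by nlinarith
    refine ⟨v 4 + t • (v 0 - v 4), v 0 - v 4, v 4 - v 3, det2 (v 4) (v 0 - v 4),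
      det2 (v 3) (v 4 - v 3), ?_, ?_, ne40, ne34, side40, ?_, ?_, side34, ?_, ?_, ?_⟩
    · rw [xp]; linarith
    · intro i
      rw [xp]
      fin_cases i
      · show det2 (v 0) e ≤ _
        linarith
      · show det2 (v 1) e ≤ _
        linarith
      · show det2 (v 2) e ≤ _
        linarith
      · show det2 (v 3) e ≤ _
        rw [x3]; linarith
      · show det2 (v 4) e ≤ _
        rw [x4']; linarith
    · rw [det2_add_left, det2_smul_left, det2_self]
      linarith
    · rw [en40]; exact hP0.le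
    · have h6 : det2 (v 4 + t • (v 0 - v 4) - (1 / 2 : ℝ) • e) (v 4 - v 3) =
          det2 (v 4) (v 4 - v 3) + t * det2 (v 0 - v 4) (v 4 - v 3)
            - 1 / 2 * det2 e (v 4 - v 3) := by
        rw [det2_sub_left, det2_add_left, det2_smul_left, det2_smul_left]
      have h7 : det2 (v 4) (v 4 - v 3) = det2 (v 3) (v 4 - v 3) := by
        simp only [det2, PiLp.sub_apply]; ring
      rw [h6, e34, en34, h7]
      nlinarith
    · rw [en34]; linarith
    · rw [xp]
      apply le_of_eq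
      rw [eq_div_iff (by linarith)]
      have h8 : mu * T3 = T4 - (P - S) := by linarith
      rw [h8]
      have : (1 - t) * (2 * T4) = 2 * T4 - (P - S) := by linarith
      calc (det2 (v 0) e + P * (1 - t) - det2 (v 0) e) * (2 * T4)
          = P * ((1 - t) * (2 * T4)) := by ring
        _ = _ := by rw [this]; ring
  · -- case `P < S`
    have hmu : 0 < mu := by
      rcases hm0.eq_or_lt with h | h
      · exfalso
        rw [hS, ← h] at hSP
        linarith
      · exact h
    have hT' : mu * T3 = S + T4 - P := by linarith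
    have hT'0 : 0 < mu * T3 := mul_pos hmu h234
    set t : ℝ := S / (2 * (mu * T3)) with ht
    have htT : t * (2 * (mu * T3)) = S := by
      rw [ht]; field_simp
    have ht0 : 0 ≤ t := div_nonneg hS0 (by linarith)
    have htT' : t * T3 = D / 2 := by
      have : mu * (t * T3) = mu * (D / 2) := by
        have := htT
        rw [hS] at this
        linarith
      exact mul_left_cancel₀ hmu.ne' this
    have xp : det2 (v 3 + t • (v 4 - v 3)) e = det2 (v 0) e + (S + t * (P - S)) := by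
      have : det2 (v 3 + t • (v 4 - v 3)) e = det2 (v 3) e + t * (det2 (v 4) e - det2 (v 3) e) := by
        rw [det2_add_left, det2_smul_left, det2_sub_left]
      rw [this, x4', x3]; ring
    -- `(S + t (P - S)) * (2 mu T3) = S * (T4 + mu T3)`
    have hval : (S + t * (P - S)) * (2 * (mu * T3)) = S * (T4 + mu * T3) := by
      have : (S + t * (P - S)) * (2 * (mu * T3)) =
          S * (2 * (mu * T3)) + (P - S) * (t * (2 * (mu * T3))) := by ring
      rw [this, htT, hT']; ring
    have hhalf : S ≤ 2 * (S + t * (P - S)) := by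
      have h9 : S * (2 * (mu * T3)) ≤ 2 * (S + t * (P - S)) * (2 * (mu * T3)) := by
        have : 2 * (S + t * (P - S)) * (2 * (mu * T3)) = 2 * (S * (T4 + mu * T3)) := by
          rw [← hval]; ring
        rw [this]
        have := mul_nonneg hS0 h034.le
        nlinarith
      exact le_of_mul_le_mul_right h9 (by linarith)
    have hpos : 0 < S + t * (P - S) := by linarith
    refine ⟨v 3 + t • (v 4 - v 3), v 4 - v 3, v 3 - v 2, det2 (v 3) (v 4 - v 3),
      det2 (v 2) (v 3 - v 2), ?_, ?_, ne34, ne23, side34, ?_, ?_, side23, ?_, ?_, ?_⟩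
    · rw [xp]; linarith
    · intro i
      rw [xp]
      fin_cases i
      · show det2 (v 0) e ≤ _
        linarith
      · show det2 (v 1) e ≤ _
        linarith
      · show det2 (v 2) e ≤ _
        linarith
      · show det2 (v 3) e ≤ _
        rw [x3]; linarith
      · show det2 (v 4) e ≤ _
        rw [x4']; linarith
    · rw [det2_add_left, det2_smul_left, det2_self]
      linarith
    · rw [en34]; linarith
    · have h6 : det2 (v 3 + t • (v 4 - v 3) - (1 / 2 : ℝ) • e) (v 3 - v 2) =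
          det2 (v 3) (v 3 - v 2) + t * det2 (v 4 - v 3) (v 3 - v 2)
            - 1 / 2 * det2 e (v 3 - v 2) := by
        rw [det2_sub_left, det2_add_left, det2_smul_left, det2_smul_left]
      have h7 : det2 (v 3) (v 3 - v 2) = det2 (v 2) (v 3 - v 2) := by
        simp only [det2, PiLp.sub_apply]; ring
      rw [h6, e3, en23, h7]
      linarith
    · rw [en23]; linarith
    · rw [xp, le_div_iff₀ (by linarith)]
      -- `S T4 ≤ P mu T3`
      have h10 : S * T4 ≤ P * (mu * T3) := by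
        rw [hT']
        have h11 : 0 ≤ P - T4 := by
          have := mul_nonneg hm0 h3
          rw [hP]; linarith
        nlinarith [mul_nonneg (by linarith : (0 : ℝ) ≤ S - P) h11]
      have h12 : ((S + t * (P - S)) * (2 * T4)) * (mu * T3) ≤
          (P * (T4 + mu * T3)) * (mu * T3) := by
        calc ((S + t * (P - S)) * (2 * T4)) * (mu * T3)
            = ((S + t * (P - S)) * (2 * (mu * T3))) * T4 := by ring
          _ = (S * T4) * (T4 + mu * T3) := by rw [hval]; ring
          _ ≤ (P * (mu * T3)) * (T4 + mu * T3) :=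
              mul_le_mul_of_nonneg_right h10 (by linarith)
          _ = (P * (T4 + mu * T3)) * (mu * T3) := by ring
      have h13 := le_of_mul_le_mul_right h12 hT'0
      linarith

/-- reflection of the plane -/
noncomputable def Type1_sig (z : Plane) : Plane := !₂[-(z 0), z 1]

lemma Type1_sig0 (z : Plane) : Type1_sig z 0 = - z 0 := rfl
lemma Type1_sig1 (z : Plane) : Type1_sig z 1 = z 1 := rfl

lemma Type1_sig_det (u w : Plane) : det2 (Type1_sig u) (Type1_sig w) = - det2 u w := by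
  simp only [det2, Type1_sig0, Type1_sig1]; ring

lemma Type1_sig_det' (u w : Plane) : det2 (Type1_sig u) w = - det2 u (Type1_sig w) := by
  simp only [det2, Type1_sig0, Type1_sig1]; ring

lemma Type1_sig_dd (a b c : Plane) :
    dd (Type1_sig a) (Type1_sig b) (Type1_sig c) = - dd a b c := by
  simp only [dd_eq, Type1_sig0, Type1_sig1]; ring

/-- the data on the left side -/
lemma Type1_left {v : Fin 5 → Plane} (hv : ConvexPentagon v) (h1 : 0 ≤ ZZ v 1)
    {mu lam : ℝ} (hm0 : 0 ≤ mu) (hl0 : 0 ≤ lam) (hml : mu + lam = 1) {e : Plane}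
    (he : e = v 0 - (mu • v 2 + lam • v 3)) :
    ∃ (pL m1 m2 : Plane) (d1 d2 : ℝ), det2 pL e < det2 (v 0) e ∧
      (∀ i, 2 * det2 pL e - det2 (v 0) e ≤ det2 (v i) e) ∧ m1 ≠ 0 ∧ m2 ≠ 0 ∧
      (∀ i, det2 (v i) m1 ≤ d1) ∧ d1 ≤ det2 pL m1 ∧ 0 ≤ det2 e m1 ∧
      (∀ i, det2 (v i) m2 ≤ d2) ∧ d2 ≤ det2 (pL - (1 / 2 : ℝ) • e) m2 ∧ det2 e m2 ≤ 0 ∧
      det2 (v 0) e - det2 pL e ≤
        (TT v 1 + lam * ZZ v 1) * (TT v 1 + lam * TT v 2) / (2 * TT v 1) := by
  have h012 := hv 0 1 2 (by decide) (by decide)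
  have h013 := hv 0 1 3 (by decide) (by decide)
  have h014 := hv 0 1 4 (by decide) (by decide)
  have h023 := hv 0 2 3 (by decide) (by decide)
  have h024 := hv 0 2 4 (by decide) (by decide)
  have h034 := hv 0 3 4 (by decide) (by decide)
  have h123 := hv 1 2 3 (by decide) (by decide)
  have h124 := hv 1 2 4 (by decide) (by decide)
  have h134 := hv 1 3 4 (by decide) (by decide)
  have h234 := hv 2 3 4 (by decide) (by decide)
  set w : Fin 5 → Plane := fun i => Type1_sig (v (-i)) with hw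
  have w0 : w 0 = Type1_sig (v 0) := rfl
  have w1 : w 1 = Type1_sig (v 4) := rfl
  have w2 : w 2 = Type1_sig (v 3) := rfl
  have w3 : w 3 = Type1_sig (v 2) := rfl
  have w4 : w 4 = Type1_sig (v 1) := rfl
  have hcw : ConvexPentagon w := by
    intro i j k hij hjk
    have key : ∀ a b c : Fin 5, dd (w a) (w b) (w c) = dd (v (-c)) (v (-b)) (v (-a)) := by
      intro a b c
      simp only [hw]
      rw [Type1_sig_dd]
      simp only [dd_eq]; ring
    rw [key]
    have cyc : ∀ a b c : Plane, dd a b c = dd c a b := by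
      intro a b c; simp only [dd_eq]; ring
    fin_cases i <;> fin_cases j <;> fin_cases k <;>
      first
        | exact absurd hij (by decide)
        | exact absurd hjk (by decide)
        | exact h012
        | exact h013
        | exact h014
        | exact h023
        | exact h024
        | exact h034
        | exact h123
        | exact h124
        | exact h134
        | exact h234
        | (rw [cyc]; exact h012)
        | (rw [cyc]; exact h013)
        | (rw [cyc]; exact h014)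
        | (rw [cyc]; exact h023)
        | (rw [cyc]; exact h024)
        | (rw [cyc]; exact h034)
  have tw4 : TT w 4 = TT v 1 := by
    rw [Type1_TT4, Type1_TT1, w3, w4, w0, Type1_sig_dd]; simp only [dd_eq]; ring
  have tw3 : TT w 3 = TT v 2 := by
    rw [Type1_TT3, Type1_TT2, w3, w4, w2, Type1_sig_dd]; simp only [dd_eq]; ring
  have tw1 : TT w 1 = TT v 4 := by
    rw [Type1_TT1, Type1_TT4, w0, w1, w2, Type1_sig_dd]; simp only [dd_eq]; ring
  have aw : AA w = AA v := by
    rw [AA, AA, w0, w1, w2, w3, w4, Type1_sig_dd, Type1_sig_dd, Type1_sig_dd]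
    simp only [dd_eq]; ring
  have zw : ZZ w 3 = ZZ v 1 := by
    rw [Type1_ZZ3, Type1_ZZ1, tw4, tw3, tw1, aw]; ring
  have hsig : ∀ z : Plane, Type1_sig (Type1_sig z) = z := by
    intro z
    ext i
    fin_cases i
    · show - (- z 0) = z 0
      ring
    · rfl
  obtain ⟨pR, n1, n2, c1, c2, a1, a2, a3, a4, a5, a6, a7, a8, a9, a10, a11⟩ :=
    Type1_right (e := Type1_sig e) hcw (by rw [zw]; exact h1) hl0 hm0 (by linarith : lam + mu = 1)
      (by
        rw [w0, w2, w3, he]
        ext i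
        fin_cases i
        · show - ((v 0) 0 - (mu * (v 2) 0 + lam * (v 3) 0)) =
            - (v 0) 0 - (lam * (- (v 3) 0) + mu * (- (v 2) 0))
          ring
        · show (v 0) 1 - (mu * (v 2) 1 + lam * (v 3) 1) =
            (v 0) 1 - (lam * (v 3) 1 + mu * (v 2) 1)
          ring)
  have sneg : ∀ u z : Plane, det2 u (Type1_sig (- z)) = det2 (Type1_sig u) z := by
    intro u z
    simp only [det2, Type1_sig0, Type1_sig1, PiLp.neg_apply]; ring
  have sne : ∀ z : Plane, z ≠ 0 → Type1_sig (- z) ≠ 0 := by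
    intro z hz h
    apply hz
    have h5 : Type1_sig (Type1_sig (- z)) = Type1_sig 0 := by rw [h]
    rw [hsig] at h5
    have h6 : Type1_sig (0 : Plane) = 0 := by
      ext i
      fin_cases i
      · show - (0 : ℝ) = 0
        ring
      · rfl
    rw [h6] at h5
    simpa using h5
  have hwi : ∀ i, Type1_sig (v i) = w (-i) := by
    intro i
    simp only [hw, neg_neg]
  rw [w0, Type1_sig_det] at a1
  rw [tw4, zw, tw3, w0, Type1_sig_det] at a11
  have xe : det2 pR (Type1_sig e) = - det2 (Type1_sig pR) e := by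
    rw [Type1_sig_det', neg_neg]
  refine ⟨Type1_sig pR, Type1_sig (-n1), Type1_sig (-n2), c1, c2, ?_, ?_, sne _ a3, sne _ a4,
    ?_, ?_, ?_, ?_, ?_, ?_, ?_⟩
  · rw [xe] at a1; linarith
  · intro i
    have h5 := a2 (-i)
    rw [← hwi, w0, Type1_sig_det, Type1_sig_det, xe] at h5
    linarith
  · intro i
    rw [sneg, hwi]
    exact a5 _
  · rw [sneg, hsig]
    exact a6
  · rw [sneg]
    exact a7
  · intro i
    rw [sneg, hwi]
    exact a8 _
  · rw [sneg]
    have h5 : Type1_sig (Type1_sig pR - (1 / 2 : ℝ) • e) = pR - (1 / 2 : ℝ) • Type1_sig e := by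
      ext i
      fin_cases i
      · show - (- pR 0 - 1 / 2 * e 0) = pR 0 - 1 / 2 * (- e 0)
        ring
      · rfl
    rw [h5]
    exact a9
  · rw [sneg]
    exact a10
  · rw [xe] at a11
    linarith

lemma Type1_hull {v : Fin 5 → Plane} {n : Plane} {c : ℝ} (h : ∀ i, det2 (v i) n ≤ c) :
    ∀ z ∈ convexHull ℝ (Set.range v), det2 z n ≤ c := by
  have hconv : Convex ℝ {z : Plane | det2 z n ≤ c} := by
    intro x hx y hy a b ha hb hab
    simp only [Set.mem_ofPred_eq] at hx hy ⊢
    rw [det2_add_left, det2_smul_left, det2_smul_left]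
    calc a * det2 x n + b * det2 y n ≤ a * c + b * c :=
          add_le_add (mul_le_mul_of_nonneg_left hx ha) (mul_le_mul_of_nonneg_left hy hb)
      _ = c := by rw [← add_mul, hab, one_mul]
  have hsub : Set.range v ⊆ {z : Plane | det2 z n ≤ c} := by
    rintro _ ⟨i, rfl⟩
    exact h i
  exact fun z hz => convexHull_min hsub hconv hz

lemma Type1_hull' {v : Fin 5 → Plane} {n : Plane} {c : ℝ} (h : ∀ i, c ≤ det2 (v i) n) :
    ∀ z ∈ convexHull ℝ (Set.range v), c ≤ det2 z n := by
  intro z hz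
  have neg : ∀ u : Plane, det2 u (-n) = - det2 u n := by
    intro u; simp only [det2, PiLp.neg_apply]; ring
  have h5 := Type1_hull (v := v) (n := -n) (c := -c) (fun i => by rw [neg]; linarith [h i]) z hz
  rw [neg] at h5
  linarith

theorem type1 {v : Fin 5 → Plane} (hv : ConvexPentagon v) (h1 : 0 ≤ ZZ v 1) (h3 : 0 ≤ ZZ v 3)
    {lam : ℝ} (hl0 : 0 ≤ lam) (hl1 : lam ≤ 1) :
    Good (convexHull ℝ (Set.range v))
      (AA v + lam ^ 2 * (ZZ v 1 * TT v 2 / TT v 1)
        + (1 - lam) ^ 2 * (ZZ v 3 * TT v 3 / TT v 4)) := by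
  obtain ⟨pR, n1, n2, c1, c2, a1, a2, a3, a4, a5, a6, a7, a8, a9, a10, a11⟩ :=
    Type1_right (mu := 1 - lam) (lam := lam) hv h3 (by linarith) hl0 (by ring) rfl
  obtain ⟨pL, m1, m2, d1, d2, b1, b2, b3, b4, b5, b6, b7, b8, b9, b10, b11⟩ :=
    Type1_left (mu := 1 - lam) (lam := lam) hv h1 (by linarith) hl0 (by ring) rfl
  set e : Plane := v 0 - ((1 - lam) • v 2 + lam • v 3) with he
  have h012 := hv 0 1 2 (by decide) (by decide)
  have h023 := hv 0 2 3 (by decide) (by decide)
  have h034 := hv 0 3 4 (by decide) (by decide)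
  have h123 := hv 1 2 3 (by decide) (by decide)
  have h234 := hv 2 3 4 (by decide) (by decide)
  have eT4 : TT v 4 = dd (v 0) (v 3) (v 4) := by
    rw [Type1_TT4, dd_eq, dd_eq]; ring
  have hT1 : 0 < TT v 1 := h012
  have hT2 : 0 < TT v 2 := h123
  have hT3 : 0 < TT v 3 := h234
  have hT4 : 0 < TT v 4 := by rw [eT4]; exact h034
  -- the strip
  have key : ∀ z : Plane, det2 z (v 2 - v 3) = det2 (v 2) (v 2 - v 3) + dd (v 2) (v 3) z := by
    intro z; simp only [dd_eq, det2, PiLp.sub_apply]; ring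
  have een : det2 e (v 2 - v 3) = dd (v 0) (v 2) (v 3) := by
    rw [he]
    simp only [dd_eq, det2, PiLp.sub_apply, PiLp.add_apply, PiLp.smul_apply, smul_eq_mul]
    ring
  have hD : dd (v 0) (v 2) (v 3) = AA v - TT v 1 - TT v 4 := by
    rw [eT4, AA, Type1_TT1]; ring
  have hZ1 := Type1_ZZ1 v
  have hZ3 := Type1_ZZ3 v
  have f0 : dd (v 2) (v 3) (v 0) = dd (v 0) (v 2) (v 3) := by simp only [dd_eq]; ring
  have f1 : dd (v 2) (v 3) (v 1) = TT v 2 := by rw [Type1_TT2]; simp only [dd_eq]; ring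
  have f2 : dd (v 2) (v 3) (v 2) = 0 := by simp only [dd_eq]; ring
  have f3 : dd (v 2) (v 3) (v 3) = 0 := by simp only [dd_eq]; ring
  have f4 : dd (v 2) (v 3) (v 4) = TT v 3 := rfl
  have s0 : ∀ i, det2 (v 2) (v 2 - v 3) ≤ det2 (v i) (v 2 - v 3) := by
    intro i
    rw [key (v i)]
    fin_cases i
    · show _ ≤ _ + dd (v 2) (v 3) (v 0)
      rw [f0]; linarith
    · show _ ≤ _ + dd (v 2) (v 3) (v 1)
      rw [f1]; linarith
    · show _ ≤ _ + dd (v 2) (v 3) (v 2)
      rw [f2]; linarith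
    · show _ ≤ _ + dd (v 2) (v 3) (v 3)
      rw [f3]; linarith
    · show _ ≤ _ + dd (v 2) (v 3) (v 4)
      rw [f4]; linarith
  have s1 : ∀ i, det2 (v i) (v 2 - v 3) ≤ det2 (v 2) (v 2 - v 3) + det2 e (v 2 - v 3) := by
    intro i
    rw [key (v i), een]
    fin_cases i
    · show _ + dd (v 2) (v 3) (v 0) ≤ _
      rw [f0]
    · show _ + dd (v 2) (v 3) (v 1) ≤ _
      rw [f1]; linarith
    · show _ + dd (v 2) (v 3) (v 2) ≤ _
      rw [f2]; linarith
    · show _ + dd (v 2) (v 3) (v 3) ≤ _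
      rw [f3]; linarith
    · show _ + dd (v 2) (v 3) (v 4) ≤ _
      rw [f4]; linarith
  have hG := good_of_data (K := convexHull ℝ (Set.range v)) (x0 := det2 (v 0) e)
    (Type1_hull' s0) (Type1_hull s1) (by rw [een]; exact h023) a1 b1
    (Type1_hull a2) (Type1_hull' b2) a3 a4 b3 b4 (Type1_hull a5) a6 a7 (Type1_hull a8) a9 a10
    (Type1_hull b5) b6 b7 (Type1_hull b8) b9 b10
  refine hG.mono ?_
  have hR : (TT v 4 + (1 - lam) * ZZ v 3) * (TT v 4 + (1 - lam) * TT v 3) / (2 * TT v 4) =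
      (TT v 4 + (1 - lam) * (ZZ v 3 + TT v 3)
        + (1 - lam) ^ 2 * (ZZ v 3 * TT v 3 / TT v 4)) / 2 := by
    field_simp
    ring
  have hL : (TT v 1 + lam * ZZ v 1) * (TT v 1 + lam * TT v 2) / (2 * TT v 1) =
      (TT v 1 + lam * (ZZ v 1 + TT v 2) + lam ^ 2 * (ZZ v 1 * TT v 2 / TT v 1)) / 2 := by
    field_simp
    ring
  rw [hR] at a11
  rw [hL] at b11
  have g1 : ZZ v 3 + TT v 3 = AA v - TT v 1 - TT v 4 := by linarith
  have g2 : ZZ v 1 + TT v 2 = AA v - TT v 1 - TT v 4 := by linarith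
  rw [g1] at a11
  rw [g2] at b11
  linarith

end Pool.Agent.helper42.PD
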