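import Pool.Agent.helper42.PD.Data

/-!
PD-5: double lattice packings of a pentagon in the direction `p - v 2`, `p` on the side `v 3 v 4`,
when `Z_2 < 0` (the lines `v2 v1` and `v3 v4` meet on the side of `v 0`).

Notation (all areas doubled): `T_i = TT v i`, `A = AA v`, `Z_j = ZZ v j`.
PROOF of `type2`.  `k = T_1/Z_4` (in `(0,1]`), `p = v4 + k • (v3 - v4)`, `e = p - v2`,
`X z = det2 z e`, `x0 = X v2 = X p`.  `pR = (1/2) • (v3 + p)`, `pL = (1/2) • (v0 + v4)`.
Key identity: `v0 - v2 = k • (v4 - v3) + k' • (v0 - v1)` with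
`k' = det2 (v0 - v2) (v4 - v3) / Z_4`; here `det2 (v0 - v1) (v4 - v3) = Z_4` up to sign and
`det2 (v0 - v2) (v0 - v1) = - T_1` up to sign (two linear equations, Cramer).  Hence
`pL - e/2 = v0 + (k'/2) • (v1 - v0)` lies on the side line `v0 v1`.
 Strip: direction `n0` of the side `v4 v3` or `v1 v2`?: since `Z_2 < 0` the lines `v2 v1` and
 `v3 v4` converge towards `v0`, so the chords in direction `e` get shorter above `v2 p`, and below
 `v2 p` there is only the triangle `v2 v3 p`: take the strip between the line `v3 v4` and its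
 parallel through `v2`: `n0 = v3 - v4` or `v4 - v3` (sign such that `det2 e n0 > 0`); `v1` and
 `v0` have to be inside: `v1` because `Z_2 < 0` (distance of `v1` to the line `v3 v4` is at most
 the distance of `v2`), `v0` similarly (it is inside the triangle `W v2 v3`).
 Right side (`X > x0`): only `v3` has `X > x0`, `X pR - x0 = (X v3 - x0)/2`; half planes: sides
 `v3 v4` (through `pR`) and `v2 v3` (through `pR - e/2 = (v2 + v3)/2`).
 Left side: `X pL - x0 = ((X v0 - x0) + (X v4 - x0))/2`; half planes: sides `v4 v0` (through `pL`)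
 and `v0 v1` (through `pL - e/2`); with `delta = x0 - X v0`, `beta = x0 - X v4 >= 0`,
 `alpha = x0 - X v1`, one has `delta - alpha = T_0 > 0`, `delta - beta > 0`, so all vertices
 satisfy `x0 - X <= delta <= delta + beta = 2 (x0 - X pL)`.
 AREA: `2 (X pR - X pL) = A + T_1 (- Z_2)/Z_4` (identity after clearing denominators; it is best
 to put coordinates `v i 0`, `v i 1` and use `field_simp; ring`, or `linear_combination`).
The identity was checked numerically.  Useful: `Z_1 Z_2 + T_2 Z_4 = T_1 T_3` (polynomial identity).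
`type2'` is the mirror image (reflect the plane and reverse the labels, or repeat the proof):
`k = T_4/Z_0`, `p = v1 + k • (v2 - v1)`, `e = p - v3` (or `v3 - p`),
`(1/2) • (v2 + p)`, `(1/2) • (v0 + v1)`.
-/

namespace Pool.Agent.helper42.PD

private lemma Type2_hull_le {v : Fin 5 → Plane} {n : Plane} {c : ℝ}
    (h0 : det2 (v 0) n ≤ c) (h1 : det2 (v 1) n ≤ c) (h2 : det2 (v 2) n ≤ c)
    (h3 : det2 (v 3) n ≤ c) (h4 : det2 (v 4) n ≤ c) :
    ∀ z ∈ convexHull ℝ (Set.range v), det2 z n ≤ c := by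
  have hconv : Convex ℝ {z : Plane | det2 z n ≤ c} := by
    intro a ha b hb s t hs ht hst
    simp only [Set.mem_ofPred_eq] at ha hb ⊢
    rw [det2_add_left, det2_smul_left, det2_smul_left]
    have h1 := mul_le_mul_of_nonneg_left ha hs
    have h2 := mul_le_mul_of_nonneg_left hb ht
    have h3 : s * c + t * c = c := by rw [← add_mul, hst, one_mul]
    linarith
  have hsub : convexHull ℝ (Set.range v) ⊆ {z : Plane | det2 z n ≤ c} := by
    apply convexHull_min _ hconv
    rintro _ ⟨i, rfl⟩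
    fin_cases i <;> assumption
  exact fun z hz => hsub hz

private lemma Type2_hull_ge {v : Fin 5 → Plane} {n : Plane} {c : ℝ}
    (h0 : c ≤ det2 (v 0) n) (h1 : c ≤ det2 (v 1) n) (h2 : c ≤ det2 (v 2) n)
    (h3 : c ≤ det2 (v 3) n) (h4 : c ≤ det2 (v 4) n) :
    ∀ z ∈ convexHull ℝ (Set.range v), c ≤ det2 z n := by
  have hconv : Convex ℝ {z : Plane | c ≤ det2 z n} := by
    intro a ha b hb s t hs ht hst
    simp only [Set.mem_ofPred_eq] at ha hb ⊢
    rw [det2_add_left, det2_smul_left, det2_smul_left]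
    have h1 := mul_le_mul_of_nonneg_left ha hs
    have h2 := mul_le_mul_of_nonneg_left hb ht
    have h3 : s * c + t * c = c := by rw [← add_mul, hst, one_mul]
    linarith
  have hsub : convexHull ℝ (Set.range v) ⊆ {z : Plane | c ≤ det2 z n} := by
    apply convexHull_min _ hconv
    rintro _ ⟨i, rfl⟩
    fin_cases i <;> assumption
  exact fun z hz => hsub hz

private lemma Type2_ne {u w : Plane} (h : det2 u w ≠ 0) : w ≠ 0 := by
  rintro rfl
  apply h
  simp [det2]

theorem type2 {v : Fin 5 → Plane} (hv : ConvexPentagon v) (h2 : ZZ v 2 < 0)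
    (h4 : TT v 1 ≤ ZZ v 4) :
    Good (convexHull ℝ (Set.range v)) (AA v + TT v 1 * (- ZZ v 2) / ZZ v 4) := by
  have d012 := hv 0 1 2 (by decide) (by decide)
  have d013 := hv 0 1 3 (by decide) (by decide)
  have d014 := hv 0 1 4 (by decide) (by decide)
  have d023 := hv 0 2 3 (by decide) (by decide)
  have d024 := hv 0 2 4 (by decide) (by decide)
  have d034 := hv 0 3 4 (by decide) (by decide)
  have d123 := hv 1 2 3 (by decide) (by decide)
  have d124 := hv 1 2 4 (by decide) (by decide)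
  have d134 := hv 1 3 4 (by decide) (by decide)
  have d234 := hv 2 3 4 (by decide) (by decide)
  -- corner areas
  have eT0 : TT v 0 = dd (v 4) (v 0) (v 1) := rfl
  have eT1 : TT v 1 = dd (v 0) (v 1) (v 2) := rfl
  have eT2 : TT v 2 = dd (v 1) (v 2) (v 3) := rfl
  have eT3 : TT v 3 = dd (v 2) (v 3) (v 4) := rfl
  have eT4 : TT v 4 = dd (v 3) (v 4) (v 0) := rfl
  have eZ2 : ZZ v 2 = AA v - TT v 2 - TT v 3 - TT v 0 := rfl
  have eZ4 : ZZ v 4 = AA v - TT v 4 - TT v 0 - TT v 2 := rfl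
  have eA : AA v = dd (v 0) (v 1) (v 2) + dd (v 0) (v 2) (v 3) + dd (v 0) (v 3) (v 4) := rfl
  simp only [dd_eq] at eT0 eT1 eT2 eT3 eT4 eA d012 d013 d014 d023 d024 d034 d123 d124 d134 d234
  have pT0 : 0 < TT v 0 := by rw [eT0]; linarith
  have pT1 : 0 < TT v 1 := by rw [eT1]; linarith
  have pT2 : 0 < TT v 2 := by rw [eT2]; linarith
  have pT3 : 0 < TT v 3 := by rw [eT3]; linarith
  have pT4 : 0 < TT v 4 := by rw [eT4]; linarith
  have pZ4 : 0 < ZZ v 4 := by linarith
  obtain ⟨k, hkd⟩ : ∃ k, k = TT v 1 / ZZ v 4 := ⟨_, rfl⟩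
  have hk : k * ZZ v 4 = TT v 1 := by rw [hkd]; exact div_mul_cancel₀ _ pZ4.ne'
  have hk0 : 0 < k := by rw [hkd]; positivity
  have hk1 : k ≤ 1 := by rw [hkd]; exact (div_le_one pZ4).2 h4
  have eL : TT v 3 + ZZ v 2 = TT v 4 + ZZ v 4 := by
    rw [eZ2, eZ4, eA, eT0, eT2, eT3, eT4]; ring
  obtain ⟨e, he⟩ : ∃ e : Plane, e = v 4 + k • (v 3 - v 4) - v 2 := ⟨_, rfl⟩
  have e0 : e 0 = v 4 0 + k * (v 3 0 - v 4 0) - v 2 0 := by
    rw [he]; simp [PiLp.sub_apply, PiLp.add_apply, PiLp.smul_apply]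
  have e1 : e 1 = v 4 1 + k * (v 3 1 - v 4 1) - v 2 1 := by
    rw [he]; simp [PiLp.sub_apply, PiLp.add_apply, PiLp.smul_apply]
  have hk' := hk
  rw [eZ4, eA, eT0, eT1, eT2, eT4] at hk'
  -- the `X` coordinates
  have X10 : det2 (v 1) e - det2 (v 0) e = TT v 0 := by
    simp only [det2, e0, e1, eT0]
    linear_combination hk'
  have X40 : (det2 (v 4) e - det2 (v 0) e) * ZZ v 4 = TT v 0 * (ZZ v 4 - ZZ v 2) := by
    have : (det2 (v 4) e - det2 (v 0) e) * ZZ v 4
        = (det2 (v 4 - v 0) (v 4 - v 2) + TT v 4 * 0) * ZZ v 4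
          + det2 (v 4 - v 0) (v 3 - v 4) * TT v 1 := by
      rw [← hk]
      simp only [det2, e0, e1, PiLp.sub_apply]
      ring
    rw [this, eZ4, eZ2, eA, eT0, eT1, eT2, eT3, eT4]
    simp only [det2, PiLp.sub_apply]
    ring
  have X24 : det2 (v 2) e - det2 (v 4) e = k * TT v 3 := by
    simp only [det2, e0, e1, eT3]
    ring
  have X32 : det2 (v 3) e - det2 (v 2) e = (1 - k) * TT v 3 := by
    simp only [det2, e0, e1, eT3]
    ring
  have q1 : TT v 0 ≤ det2 (v 4) e - det2 (v 0) e := by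
    have h := X40
    have h5 : TT v 0 * ZZ v 4 ≤ (det2 (v 4) e - det2 (v 0) e) * ZZ v 4 := by
      rw [h]
      have : 0 < TT v 0 * (-ZZ v 2) := mul_pos pT0 (by linarith)
      linarith
    exact le_of_mul_le_mul_right h5 pZ4
  have q2 : 0 < k * TT v 3 := mul_pos hk0 pT3
  have q3 : 0 ≤ (1 - k) * TT v 3 := mul_nonneg (by linarith) pT3.le
  -- area
  have harea : 2 * (det2 ((1 / 2 : ℝ) • (v 3 + (v 2 + e))) e - det2 ((1 / 2 : ℝ) • (v 0 + v 4)) e)
      = AA v + TT v 1 * (- ZZ v 2) / ZZ v 4 := by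
    have h5 : 2 * (det2 ((1 / 2 : ℝ) • (v 3 + (v 2 + e))) e
        - det2 ((1 / 2 : ℝ) • (v 0 + v 4)) e)
        = TT v 3 + k * TT v 3 + (det2 (v 4) e - det2 (v 0) e) := by
      rw [det2_smul_left, det2_smul_left, det2_add_left, det2_add_left, det2_add_left, det2_self]
      linarith
    rw [h5]
    have h6 : (TT v 3 + k * TT v 3 + (det2 (v 4) e - det2 (v 0) e)) * ZZ v 4
        = (AA v + TT v 1 * (- ZZ v 2) / ZZ v 4) * ZZ v 4 := by
      have h7 : (AA v + TT v 1 * (- ZZ v 2) / ZZ v 4) * ZZ v 4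
          = AA v * ZZ v 4 + TT v 1 * (- ZZ v 2) := by
        rw [add_mul, div_mul_cancel₀ _ pZ4.ne']
      rw [h7]
      have h8 : (TT v 3 + k * TT v 3 + (det2 (v 4) e - det2 (v 0) e)) * ZZ v 4
          = TT v 3 * ZZ v 4 + TT v 1 * TT v 3 + TT v 0 * (ZZ v 4 - ZZ v 2) := by
        rw [← X40, ← hk]
        ring
      rw [h8, eZ4, eZ2, eA, eT0, eT1, eT2, eT3, eT4]
      ring
    exact mul_right_cancel₀ pZ4.ne' h6
  rw [← harea]
  have hen0 : det2 e (v 4 - v 3) = TT v 3 := by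
    simp only [det2, e0, e1, eT3, PiLp.sub_apply]
    ring
  have hem1 : det2 e (v 0 - v 4) = det2 (v 4) e - det2 (v 0) e := by
    simp only [det2, PiLp.sub_apply]
    ring
  have hen2 : det2 e (v 3 - v 2) = - ((1 - k) * TT v 3) := by
    simp only [det2, e0, e1, eT3, PiLp.sub_apply]
    ring
  have hem2 : det2 e (v 1 - v 0) = - TT v 0 := by
    rw [← X10]
    simp only [det2, PiLp.sub_apply]
    ring
  have hA0 : AA v = dd (v 0) (v 1) (v 2) + dd (v 0) (v 2) (v 3) + dd (v 0) (v 3) (v 4) := rfl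
  refine good_of_data (n0 := v 4 - v 3) (n1 := v 4 - v 3) (n2 := v 3 - v 2)
    (m1 := v 0 - v 4) (m2 := v 1 - v 0) (c0 := det2 (v 2) (v 4 - v 3))
    (c1 := det2 (v 3) (v 4 - v 3)) (c2 := det2 (v 2) (v 3 - v 2))
    (d1 := det2 (v 4) (v 0 - v 4)) (d2 := det2 (v 0) (v 1 - v 0)) (x0 := det2 (v 4) e)
    ?_ ?_ ?_ ?_ ?_ ?_ ?_ ?_ ?_ ?_ ?_ ?_ ?_ ?_ ?_ ?_ ?_ ?_ ?_ ?_ ?_ ?_ ?_
  · rw [eZ2, eA, eT0, eT2, eT3] at h2
    apply Type2_hull_ge <;> simp only [det2, PiLp.sub_apply] <;> linarith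
  · rw [hen0, eT3]
    rw [eZ2, eA, eT0, eT2, eT3] at h2
    apply Type2_hull_le <;> simp only [det2, PiLp.sub_apply] <;> linarith
  · rw [hen0]
    exact pT3
  · rw [det2_smul_left, det2_add_left, det2_add_left, det2_self]
    linarith
  · rw [det2_smul_left, det2_add_left]
    linarith
  · rw [det2_smul_left, det2_add_left, det2_add_left, det2_self]
    apply Type2_hull_le <;> linarith
  · rw [det2_smul_left, det2_add_left]
    apply Type2_hull_ge <;> linarith
  · exact Type2_ne (u := e) (by rw [hen0]; exact pT3.ne')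
  · refine Type2_ne (u := v 4 - v 3) ?_
    have : det2 (v 4 - v 3) (v 3 - v 2) = - TT v 3 := by
      rw [eT3]
      simp only [det2, PiLp.sub_apply]
      ring
    rw [this]
    exact (neg_neg_of_pos pT3).ne
  · exact Type2_ne (u := e) (by rw [hem1]; exact (lt_of_lt_of_le pT0 q1).ne')
  · exact Type2_ne (u := e) (by rw [hem2]; exact (neg_neg_of_pos pT0).ne)
  · apply Type2_hull_le <;> simp only [det2, PiLp.sub_apply] <;> linarith
  · rw [det2_smul_left, det2_add_left, det2_add_left, hen0, eT3]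
    simp only [det2, PiLp.sub_apply]
    linarith
  · rw [hen0]
    exact pT3.le
  · apply Type2_hull_le <;> simp only [det2, PiLp.sub_apply] <;> linarith
  · rw [det2_sub_left, det2_smul_left, det2_smul_left, det2_add_left, det2_add_left]
    simp only [det2, PiLp.sub_apply]
    linarith
  · rw [hen2]
    linarith
  · apply Type2_hull_le <;> simp only [det2, PiLp.sub_apply] <;> linarith
  · rw [det2_smul_left, det2_add_left]
    simp only [det2, PiLp.sub_apply]
    linarith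
  · rw [hem1]
    linarith
  · apply Type2_hull_le <;> simp only [det2, PiLp.sub_apply] <;> linarith
  · rw [det2_sub_left, det2_smul_left, det2_smul_left, det2_add_left, hem2, eT0]
    simp only [det2, PiLp.sub_apply]
    linarith
  · rw [hem2]
    linarith

theorem type2' {v : Fin 5 → Plane} (hv : ConvexPentagon v) (h2 : ZZ v 2 < 0)
    (h0 : TT v 4 ≤ ZZ v 0) :
    Good (convexHull ℝ (Set.range v)) (AA v + TT v 4 * (- ZZ v 2) / ZZ v 0) := by
  have d012 := hv 0 1 2 (by decide) (by decide)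
  have d013 := hv 0 1 3 (by decide) (by decide)
  have d014 := hv 0 1 4 (by decide) (by decide)
  have d023 := hv 0 2 3 (by decide) (by decide)
  have d024 := hv 0 2 4 (by decide) (by decide)
  have d034 := hv 0 3 4 (by decide) (by decide)
  have d123 := hv 1 2 3 (by decide) (by decide)
  have d124 := hv 1 2 4 (by decide) (by decide)
  have d134 := hv 1 3 4 (by decide) (by decide)
  have d234 := hv 2 3 4 (by decide) (by decide)
  -- corner areas
  have eT0 : TT v 0 = dd (v 4) (v 0) (v 1) := rfl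
  have eT1 : TT v 1 = dd (v 0) (v 1) (v 2) := rfl
  have eT2 : TT v 2 = dd (v 1) (v 2) (v 3) := rfl
  have eT3 : TT v 3 = dd (v 2) (v 3) (v 4) := rfl
  have eT4 : TT v 4 = dd (v 3) (v 4) (v 0) := rfl
  have eZ2 : ZZ v 2 = AA v - TT v 2 - TT v 3 - TT v 0 := rfl
  have eZ0 : ZZ v 0 = AA v - TT v 0 - TT v 1 - TT v 3 := rfl
  have eA : AA v = dd (v 0) (v 1) (v 2) + dd (v 0) (v 2) (v 3) + dd (v 0) (v 3) (v 4) := rfl
  simp only [dd_eq] at eT0 eT1 eT2 eT3 eT4 eA d012 d013 d014 d023 d024 d034 d123 d124 d134 d234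
  have pT0 : 0 < TT v 0 := by rw [eT0]; linarith
  have pT1 : 0 < TT v 1 := by rw [eT1]; linarith
  have pT2 : 0 < TT v 2 := by rw [eT2]; linarith
  have pT3 : 0 < TT v 3 := by rw [eT3]; linarith
  have pT4 : 0 < TT v 4 := by rw [eT4]; linarith
  have pZ0 : 0 < ZZ v 0 := by linarith
  obtain ⟨k, hkd⟩ : ∃ k, k = TT v 4 / ZZ v 0 := ⟨_, rfl⟩
  have hk : k * ZZ v 0 = TT v 4 := by rw [hkd]; exact div_mul_cancel₀ _ pZ0.ne'
  have hk0 : 0 < k := by rw [hkd]; positivity
  have hk1 : k ≤ 1 := by rw [hkd]; exact (div_le_one pZ0).2 h0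
  obtain ⟨e, he⟩ : ∃ e : Plane, e = v 1 + k • (v 2 - v 1) - v 3 := ⟨_, rfl⟩
  have e0 : e 0 = v 1 0 + k * (v 2 0 - v 1 0) - v 3 0 := by
    rw [he]; simp [PiLp.sub_apply, PiLp.add_apply, PiLp.smul_apply]
  have e1 : e 1 = v 1 1 + k * (v 2 1 - v 1 1) - v 3 1 := by
    rw [he]; simp [PiLp.sub_apply, PiLp.add_apply, PiLp.smul_apply]
  have hk' := hk
  rw [eZ0, eA, eT0, eT1, eT3, eT4] at hk'
  -- the `X` coordinates
  have X10 : det2 (v 0) e - det2 (v 4) e = TT v 0 := by
    simp only [det2, e0, e1, eT0]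
    linear_combination hk'
  have X40 : (det2 (v 0) e - det2 (v 1) e) * ZZ v 0 = TT v 0 * (ZZ v 0 - ZZ v 2) := by
    have : (det2 (v 0) e - det2 (v 1) e) * ZZ v 0
        = det2 (v 0 - v 1) (v 1 - v 3) * ZZ v 0
          + det2 (v 0 - v 1) (v 2 - v 1) * TT v 4 := by
      rw [← hk]
      simp only [det2, e0, e1, PiLp.sub_apply]
      ring
    rw [this, eZ0, eZ2, eA, eT0, eT1, eT2, eT3, eT4]
    simp only [det2, PiLp.sub_apply]
    ring
  have X24 : det2 (v 1) e - det2 (v 3) e = k * TT v 2 := by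
    simp only [det2, e0, e1, eT2]
    ring
  have X32 : det2 (v 3) e - det2 (v 2) e = (1 - k) * TT v 2 := by
    simp only [det2, e0, e1, eT2]
    ring
  have q1 : TT v 0 ≤ det2 (v 0) e - det2 (v 1) e := by
    have h := X40
    have h5 : TT v 0 * ZZ v 0 ≤ (det2 (v 0) e - det2 (v 1) e) * ZZ v 0 := by
      rw [h]
      have : 0 < TT v 0 * (-ZZ v 2) := mul_pos pT0 (by linarith)
      linarith
    exact le_of_mul_le_mul_right h5 pZ0
  have q2 : 0 < k * TT v 2 := mul_pos hk0 pT2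
  have q3 : 0 ≤ (1 - k) * TT v 2 := mul_nonneg (by linarith) pT2.le
  -- area
  have harea : 2 * (det2 ((1 / 2 : ℝ) • (v 0 + v 1)) e - det2 ((1 / 2 : ℝ) • (v 2 + (v 3 + e))) e)
      = AA v + TT v 4 * (- ZZ v 2) / ZZ v 0 := by
    have h5 : 2 * (det2 ((1 / 2 : ℝ) • (v 0 + v 1)) e
        - det2 ((1 / 2 : ℝ) • (v 2 + (v 3 + e))) e)
        = TT v 2 + k * TT v 2 + (det2 (v 0) e - det2 (v 1) e) := by
      rw [det2_smul_left, det2_smul_left, det2_add_left, det2_add_left, det2_add_left, det2_self]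
      linarith
    rw [h5]
    have h6 : (TT v 2 + k * TT v 2 + (det2 (v 0) e - det2 (v 1) e)) * ZZ v 0
        = (AA v + TT v 4 * (- ZZ v 2) / ZZ v 0) * ZZ v 0 := by
      have h7 : (AA v + TT v 4 * (- ZZ v 2) / ZZ v 0) * ZZ v 0
          = AA v * ZZ v 0 + TT v 4 * (- ZZ v 2) := by
        rw [add_mul, div_mul_cancel₀ _ pZ0.ne']
      rw [h7]
      have h8 : (TT v 2 + k * TT v 2 + (det2 (v 0) e - det2 (v 1) e)) * ZZ v 0
          = TT v 2 * ZZ v 0 + TT v 4 * TT v 2 + TT v 0 * (ZZ v 0 - ZZ v 2) := by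
        rw [← X40, ← hk]
        ring
      rw [h8, eZ0, eZ2, eA, eT0, eT1, eT2, eT3, eT4]
      ring
    exact mul_right_cancel₀ pZ0.ne' h6
  rw [← harea]
  have hen0 : det2 e (v 2 - v 1) = TT v 2 := by
    simp only [det2, e0, e1, eT2, PiLp.sub_apply]
    ring
  have hen1 : det2 e (v 1 - v 0) = det2 (v 0) e - det2 (v 1) e := by
    simp only [det2, PiLp.sub_apply]
    ring
  have hem2 : det2 e (v 3 - v 2) = - ((1 - k) * TT v 2) := by
    simp only [det2, e0, e1, eT2, PiLp.sub_apply]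
    ring
  have hen2 : det2 e (v 0 - v 4) = - TT v 0 := by
    rw [← X10]
    simp only [det2, PiLp.sub_apply]
    ring
  refine good_of_data (n0 := v 2 - v 1) (n1 := v 1 - v 0) (n2 := v 0 - v 4)
    (m1 := v 2 - v 1) (m2 := v 3 - v 2) (c0 := det2 (v 3) (v 2 - v 1))
    (c1 := det2 (v 0) (v 1 - v 0)) (c2 := det2 (v 4) (v 0 - v 4))
    (d1 := det2 (v 1) (v 2 - v 1)) (d2 := det2 (v 2) (v 3 - v 2)) (x0 := det2 (v 1) e)
    ?_ ?_ ?_ ?_ ?_ ?_ ?_ ?_ ?_ ?_ ?_ ?_ ?_ ?_ ?_ ?_ ?_ ?_ ?_ ?_ ?_ ?_ ?_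
  · rw [eZ2, eA, eT0, eT2, eT3] at h2
    apply Type2_hull_ge <;> simp only [det2, PiLp.sub_apply] <;> linarith
  · rw [hen0, eT2]
    rw [eZ2, eA, eT0, eT2, eT3] at h2
    apply Type2_hull_le <;> simp only [det2, PiLp.sub_apply] <;> linarith
  · rw [hen0]
    exact pT2
  · rw [det2_smul_left, det2_add_left]
    linarith
  · rw [det2_smul_left, det2_add_left, det2_add_left, det2_self]
    linarith
  · rw [det2_smul_left, det2_add_left]
    apply Type2_hull_le <;> linarith
  · rw [det2_smul_left, det2_add_left, det2_add_left, det2_self]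
    apply Type2_hull_ge <;> linarith
  · exact Type2_ne (u := e) (by rw [hen1]; exact (lt_of_lt_of_le pT0 q1).ne')
  · exact Type2_ne (u := e) (by rw [hen2]; exact (neg_neg_of_pos pT0).ne)
  · exact Type2_ne (u := e) (by rw [hen0]; exact pT2.ne')
  · refine Type2_ne (u := v 2 - v 1) ?_
    have : det2 (v 2 - v 1) (v 3 - v 2) = TT v 2 := by
      rw [eT2]
      simp only [det2, PiLp.sub_apply]
      ring
    rw [this]
    exact pT2.ne'
  · apply Type2_hull_le <;> simp only [det2, PiLp.sub_apply] <;> linarith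
  · rw [det2_smul_left, det2_add_left]
    simp only [det2, PiLp.sub_apply]
    linarith
  · rw [hen1]
    linarith
  · apply Type2_hull_le <;> simp only [det2, PiLp.sub_apply] <;> linarith
  · rw [det2_sub_left, det2_smul_left, det2_smul_left, det2_add_left, hen2, eT0]
    simp only [det2, PiLp.sub_apply]
    linarith
  · rw [hen2]
    linarith
  · apply Type2_hull_le <;> simp only [det2, PiLp.sub_apply] <;> linarith
  · rw [det2_smul_left, det2_add_left, det2_add_left, hen0, eT2]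
    simp only [det2, PiLp.sub_apply]
    linarith
  · rw [hen0]
    exact pT2.le
  · apply Type2_hull_le <;> simp only [det2, PiLp.sub_apply] <;> linarith
  · rw [det2_sub_left, det2_smul_left, det2_smul_left, det2_add_left, det2_add_left]
    simp only [det2, PiLp.sub_apply]
    linarith
  · rw [hem2]
    linarith

end Pool.Agent.helper42.PD
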