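import Pool.Agent.helper42.PD.Density
import Pool.Agent.helper42.PD.Area
import Pool.Agent.helper42.PD.Type1
import Pool.Agent.helper42.PD.Type2
import Pool.Agent.helper42.PD.IneqP
import Pool.Agent.helper42.PD.IneqN
import Pool.Agent.helper42.PD.Label
import Pool.Agent.helper42.PD.Small

/-!
Assembly of the pentagon theorem.
-/

open MeasureTheory
open scoped ENNReal

namespace Pool.Agent.helper42.PD

theorem dd_rot (a b c : Plane) : dd b c a = dd a b c := by
  simp only [dd_eq]; ring

/-- cyclic shift of the labels -/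
def shift (s : Fin 5) (v : Fin 5 → Plane) : Fin 5 → Plane := fun k => v (k + s)

theorem dd_cyc_pos {v : Fin 5 → Plane} (hv : ConvexPentagon v) (i j k : Fin 5)
    (h : (i < j ∧ j < k) ∨ (j < k ∧ k < i) ∨ (k < i ∧ i < j)) : 0 < dd (v i) (v j) (v k) := by
  rcases h with ⟨h1, h2⟩ | ⟨h1, h2⟩ | ⟨h1, h2⟩
  · exact hv i j k h1 h2
  · have := hv j k i h1 h2
    rwa [dd_rot] at this
  · have := hv k i j h1 h2
    rwa [← dd_rot] at this

theorem shift_convex {v : Fin 5 → Plane} (hv : ConvexPentagon v) (s : Fin 5) :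
    ConvexPentagon (shift s v) := by
  intro i j k hij hjk
  apply dd_cyc_pos hv
  revert i j k s
  decide

theorem shift_TT (s : Fin 5) (v : Fin 5 → Plane) (i : Fin 5) :
    TT (shift s v) i = TT v (i + s) := by
  have h1 : i - 1 + s = i + s - 1 := by revert i s; decide
  have h2 : i + 1 + s = i + s + 1 := by revert i s; decide
  simp only [TT, shift, h1, h2]

theorem shift_range (s : Fin 5) (v : Fin 5 → Plane) :
    Set.range (shift s v) = Set.range v := by
  ext x
  constructor
  · rintro ⟨k, rfl⟩; exact ⟨k + s, rfl⟩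
  · rintro ⟨k, rfl⟩; exact ⟨k - s, by simp [shift]⟩

theorem shift_AA (s : Fin 5) (v : Fin 5 → Plane) : AA (shift s v) = AA v := by
  fin_cases s <;> simp only [AA, shift, dd_eq] <;> simp <;> ring

theorem shift_ZZ (s : Fin 5) (v : Fin 5 → Plane) (j : Fin 5) :
    ZZ (shift s v) j = ZZ v (j + s) := by
  simp only [ZZ, shift_AA, shift_TT]
  have h1 : j + 1 + s = j + s + 1 := by revert j s; decide
  have h2 : j + 3 + s = j + s + 3 := by revert j s; decide
  rw [h1, h2]

/-- The relation between the corner areas and the area of a pentagon (Gauss, Moebius). -/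
theorem gauss (v : Fin 5 → Plane) :
    AA v ^ 2 - AA v * ∑ i, TT v i + ∑ i, TT v i * TT v (i + 1) = 0 := by
  have e0 : (0 : Fin 5) - 1 = 4 := by decide
  have e1 : (1 : Fin 5) - 1 = 0 := by decide
  have e2 : (2 : Fin 5) - 1 = 1 := by decide
  have e3 : (3 : Fin 5) - 1 = 2 := by decide
  have e4 : (4 : Fin 5) - 1 = 3 := by decide
  have f0 : (0 : Fin 5) + 1 = 1 := by decide
  have f1 : (1 : Fin 5) + 1 = 2 := by decide
  have f2 : (2 : Fin 5) + 1 = 3 := by decide
  have f3 : (3 : Fin 5) + 1 = 4 := by decide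
  have f4 : (4 : Fin 5) + 1 = 0 := by decide
  simp only [Fin.sum_univ_five, TT, AA, e0, e1, e2, e3, e4, f0, f1, f2, f3, f4, dd_eq]
  ring

theorem TT_pos {v : Fin 5 → Plane} (hv : ConvexPentagon v) (i : Fin 5) : 0 < TT v i := by
  apply dd_cyc_pos hv
  revert i
  decide

theorem AA_pos {v : Fin 5 → Plane} (hv : ConvexPentagon v) : 0 < AA v := by
  have h1 := hv 0 1 2 (by decide) (by decide)
  have h2 := hv 0 2 3 (by decide) (by decide)
  have h3 := hv 0 3 4 (by decide) (by decide)
  simp only [AA]; linarith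

theorem star_pos {v : Fin 5 → Plane} (hv : ConvexPentagon v) (i : Fin 5) :
    0 < AA v - TT v (i + 1) - TT v (i + 4) := by
  have h : 0 < dd (v i) (v (i + 2)) (v (i + 3)) := by
    apply dd_cyc_pos hv
    revert i
    decide
  have e : dd (v i) (v (i + 2)) (v (i + 3)) = AA v - TT v (i + 1) - TT v (i + 4) := by
    have := shift_AA i v
    rw [← this]
    have h0 : ∀ i : Fin 5, (0 : Fin 5) + i = i := by decide
    have a1 : ∀ i : Fin 5, (i + 1 : Fin 5) - 1 = i := by decide
    have a2 : ∀ i : Fin 5, (i + 4 : Fin 5) - 1 = i + 3 := by decide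
    have a3 : ∀ i : Fin 5, (i + 1 : Fin 5) + 1 = i + 2 := by decide
    have a4 : ∀ i : Fin 5, (i + 4 : Fin 5) + 1 = i := by decide
    have b1 : ∀ i : Fin 5, (1 : Fin 5) + i = i + 1 := by decide
    have b2 : ∀ i : Fin 5, (2 : Fin 5) + i = i + 2 := by decide
    have b3 : ∀ i : Fin 5, (3 : Fin 5) + i = i + 3 := by decide
    have b4 : ∀ i : Fin 5, (4 : Fin 5) + i = i + 4 := by decide
    simp only [AA, TT, shift, h0, a1, a2, a3, a4, b1, b2, b3, b4, dd_eq]
    ring
  rwa [e] at h

/-- The number `zeta`. -/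
noncomputable def zeta : ℝ := (3 * Real.sqrt 5 - 5) / 20

theorem type1_shift {v : Fin 5 → Plane} (hv : ConvexPentagon v) (s : Fin 5)
    (h1 : 0 ≤ ZZ v (s + 1)) (h3 : 0 ≤ ZZ v (s + 3)) {lam : ℝ} (hl0 : 0 ≤ lam) (hl1 : lam ≤ 1) :
    Good (convexHull ℝ (Set.range v))
      (AA v + lam ^ 2 * (ZZ v (s + 1) * TT v (s + 2) / TT v (s + 1))
        + (1 - lam) ^ 2 * (ZZ v (s + 3) * TT v (s + 3) / TT v (s + 4))) := by
  have b1 : ∀ s : Fin 5, (1 : Fin 5) + s = s + 1 := by decide
  have b2 : ∀ s : Fin 5, (2 : Fin 5) + s = s + 2 := by decide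
  have b3 : ∀ s : Fin 5, (3 : Fin 5) + s = s + 3 := by decide
  have b4 : ∀ s : Fin 5, (4 : Fin 5) + s = s + 4 := by decide
  have := type1 (shift_convex hv s) (by rwa [shift_ZZ, b1]) (by rwa [shift_ZZ, b3]) hl0 hl1
  simpa only [shift_range, shift_AA, shift_ZZ, shift_TT, b1, b2, b3, b4] using this

theorem zeta_pos : 0 < zeta := by
  have h : (2 : ℝ) < Real.sqrt 5 := by
    rw [show (2 : ℝ) = Real.sqrt 4 by rw [show (4 : ℝ) = 2 ^ 2 by norm_num]; simp]
    exact Real.sqrt_lt_sqrt (by norm_num) (by norm_num)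
  unfold zeta
  linarith

/-- The numbers `t i` and `z i` of a pentagon. -/
theorem normalized {v : Fin 5 → Plane} (hv : ConvexPentagon v) :
    (∀ i, 0 < TT v i / AA v) ∧
    (∑ i, TT v i / AA v - ∑ i, TT v i / AA v * (TT v (i + 1) / AA v) = 1) ∧
    (∀ i, TT v (i + 1) / AA v + TT v (i + 4) / AA v < 1) ∧
    (∀ j, ZZ v j / AA v = 1 - TT v j / AA v - TT v (j + 1) / AA v - TT v (j + 3) / AA v) := by
  have hA := AA_pos hv
  have hT := TT_pos hv
  refine ⟨fun i => div_pos (hT i) hA, ?_, ?_, ?_⟩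
  · have hg := gauss v
    have e1 : ∑ i, TT v i / AA v = (∑ i, TT v i) / AA v := by rw [Finset.sum_div]
    have e2 : ∑ i, TT v i / AA v * (TT v (i + 1) / AA v)
        = (∑ i, TT v i * TT v (i + 1)) / AA v ^ 2 := by
      rw [Finset.sum_div]; apply Finset.sum_congr rfl; intros; field_simp
    rw [e1, e2]
    field_simp
    linarith
  · intro i
    have := star_pos hv i
    rw [← add_div, div_lt_one hA]
    linarith
  · intro j
    simp only [ZZ]
    field_simp

theorem key_le {A E : ℝ} (hA : 0 < A) (hE : E ≤ zeta) : A + A * E ≤ A * (1 + zeta) := by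
  nlinarith

theorem good_pentagon_neg {v : Fin 5 → Plane} (hv : ConvexPentagon v) (h2 : ZZ v 2 < 0) :
    Good (convexHull ℝ (Set.range v)) (AA v * (1 + zeta)) := by
  have hA := AA_pos hv
  have hT := TT_pos hv
  obtain ⟨h1, hrel, hu, hz⟩ := normalized hv
  have hpos : ∀ {j : Fin 5}, 0 ≤ ZZ v j / AA v → 0 ≤ ZZ v j := by
    intro j h
    by_contra hcon
    have := div_neg_of_neg_of_pos (not_le.mp hcon) hA
    linarith
  have hneg : ∀ {j : Fin 5}, ZZ v j / AA v < 0 → ZZ v j < 0 := by
    intro j h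
    by_contra hcon
    have := div_nonneg (not_lt.mp hcon) hA.le
    linarith
  have hle : ∀ {i j : Fin 5}, TT v i / AA v ≤ ZZ v j / AA v → TT v i ≤ ZZ v j := by
    intro i j h
    exact (div_le_div_iff_of_pos_right hA).mp h
  have hcase := ineqN (fun i => TT v i / AA v) h1 hrel hu (fun j => ZZ v j / AA v) hz
    (div_neg_of_neg_of_pos h2 hA)
  have b3 : ∀ s : Fin 5, s + 3 + 4 = s + 2 := by decide
  rcases hcase with ⟨a, b, c⟩ | ⟨a, b, c⟩ | ⟨a, c⟩ | ⟨a, c⟩ | ⟨a, b, c⟩ | ⟨a, b, c⟩
  · -- vertex 3, lam = 0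
    have g := type1_shift hv 3 (lam := 0) (hpos b) (hpos a) le_rfl zero_le_one
    refine g.mono (le_trans (le_of_eq ?_) (key_le hA c))
    have e1 : (3 : Fin 5) + 3 = 1 := by decide
    have e2 : (3 : Fin 5) + 4 = 2 := by decide
    rw [e1, e2]
    have := hT 2
    field_simp
    ring
  · -- vertex 2, lam = 1
    have g := type1_shift hv 2 (lam := 1) (hpos a) (hpos b) zero_le_one le_rfl
    refine g.mono (le_trans (le_of_eq ?_) (key_le hA c))
    have e1 : (2 : Fin 5) + 1 = 3 := by decide
    have e2 : (2 : Fin 5) + 2 = 4 := by decide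
    rw [e1, e2]
    have := hT 3
    field_simp
    ring
  · have g := type2 hv h2 (hle a)
    have hz4 : 0 < ZZ v 4 := lt_of_lt_of_le (hT 1) (hle a)
    refine g.mono (le_trans (le_of_eq ?_) (key_le hA c))
    field_simp
  · have g := type2' hv h2 (hle a)
    have hz4 : 0 < ZZ v 0 := lt_of_lt_of_le (hT 4) (hle a)
    refine g.mono (le_trans (le_of_eq ?_) (key_le hA c))
    field_simp
  · have e1 : (2 : Fin 5) + 4 = 1 := by decide
    have e2 : (1 : Fin 5) + 4 = 0 := by decide
    have e3 : (4 : Fin 5) + 4 = 3 := by decide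
    have g := type2 (shift_convex hv 4) (by rw [shift_ZZ, e1]; exact hneg a)
      (by rw [shift_ZZ, shift_TT, e2, e3]; exact hle b)
    rw [shift_range, shift_AA, shift_TT, shift_ZZ, shift_ZZ, e1, e2, e3] at g
    have hz4 : 0 < ZZ v 3 := lt_of_lt_of_le (hT 0) (hle b)
    refine g.mono (le_trans (le_of_eq ?_) (key_le hA c))
    field_simp
  · have e1 : (2 : Fin 5) + 1 = 3 := by decide
    have e2 : (4 : Fin 5) + 1 = 0 := by decide
    have e3 : (0 : Fin 5) + 1 = 1 := by decide
    have g := type2' (shift_convex hv 1) (by rw [shift_ZZ, e1]; exact hneg a)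
      (by rw [shift_ZZ, shift_TT, e2, e3]; exact hle b)
    rw [shift_range, shift_AA, shift_TT, shift_ZZ, shift_ZZ, e1, e2, e3] at g
    have hz4 : 0 < ZZ v 1 := lt_of_lt_of_le (hT 0) (hle b)
    refine g.mono (le_trans (le_of_eq ?_) (key_le hA c))
    field_simp

theorem good_pentagon {v : Fin 5 → Plane} (hv : ConvexPentagon v) :
    Good (convexHull ℝ (Set.range v)) (AA v * (1 + zeta)) := by
  have hA := AA_pos hv
  have hT := TT_pos hv
  set t : Fin 5 → ℝ := fun i => TT v i / AA v with ht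
  set z : Fin 5 → ℝ := fun j => ZZ v j / AA v with hz
  have htpos : ∀ i, 0 < t i := fun i => div_pos (hT i) hA
  have hTt : ∀ i, TT v i = AA v * t i := fun i => by simp only [ht]; field_simp
  have hZz : ∀ i, ZZ v i = AA v * z i := fun i => by simp only [hz]; field_simp
  have hrel : ∑ i, t i - ∑ i, t i * t (i + 1) = 1 := by
    have hg := gauss v
    simp only [hTt] at hg
    have e1 : ∑ i, AA v * t i = AA v * ∑ i, t i := by rw [Finset.mul_sum]
    have e2 : ∑ i, AA v * t i * (AA v * t (i + 1)) = AA v ^ 2 * ∑ i, t i * t (i + 1) := by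
      rw [Finset.mul_sum]; apply Finset.sum_congr rfl; intros; ring
    rw [e1, e2] at hg
    have : AA v ^ 2 * (1 - ∑ i, t i + ∑ i, t i * t (i + 1)) = 0 := by linarith
    rcases mul_eq_zero.mp this with h | h
    · exact absurd h (by positivity)
    · linarith
  have hzt : ∀ j, z j = 1 - t j - t (j + 1) - t (j + 3) := by
    intro j
    simp only [hz, ht, ZZ]
    field_simp
  have key : ∀ E : ℝ, E ≤ zeta → AA v + AA v * E ≤ AA v * (1 + zeta) :=
    fun E hE => key_le hA hE
  by_cases hneg : ∃ j, z j < 0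
  · obtain ⟨j, hj⟩ := hneg
    -- shift so that the negative defect is at 2
    obtain ⟨s, hs⟩ : ∃ s : Fin 5, (2 : Fin 5) + s = j := by
      have : ∀ j : Fin 5, ∃ s : Fin 5, (2 : Fin 5) + s = j := by decide
      exact this j
    have hz2 : z (2 + s) < 0 := by rw [hs]; exact hj
    have hg := good_pentagon_neg (shift_convex hv s)
      (by rw [shift_ZZ, hZz]; exact mul_neg_of_pos_of_neg hA hz2)
    rwa [shift_range, shift_AA] at hg
  · push Not at hneg
    by_cases hzero : ∃ j, z j = 0
    · obtain ⟨j, hj⟩ := hzero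
      obtain ⟨s, hs⟩ : ∃ s : Fin 5, s + 1 = j := by
        have : ∀ j : Fin 5, ∃ s : Fin 5, s + 1 = j := by decide
        exact this j
      have g := type1_shift hv s (lam := 1) (by rw [hZz]; exact mul_nonneg hA.le (hneg _))
        (by rw [hZz]; exact mul_nonneg hA.le (hneg _)) zero_le_one le_rfl
      refine g.mono (le_trans (le_of_eq ?_) (key 0 zeta_pos.le))
      rw [hZz (s + 1), hs, hj]
      ring
    · push Not at hzero
      have hzpos : ∀ j, 0 < z j := fun j => lt_of_le_of_ne (hneg j) (Ne.symm (hzero j))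
      obtain ⟨i, lam, h0, h1, hE⟩ := ineqP t htpos hrel z hzt hzpos
      have g := type1_shift hv i (by rw [hZz]; exact (mul_pos hA (hzpos _)).le)
        (by rw [hZz]; exact (mul_pos hA (hzpos _)).le) h0 h1
      refine g.mono (le_trans (le_of_eq ?_) (key _ hE))
      simp only [hTt, hZz]
      have := htpos (i + 1)
      have := htpos (i + 4)
      field_simp
      ring

theorem one_add_zeta : 1 / (1 + zeta) = (5 - Real.sqrt 5) / 3 := by
  have h5 : Real.sqrt 5 * Real.sqrt 5 = 5 := Real.mul_self_sqrt (by norm_num)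
  have hz := zeta_pos
  rw [div_eq_div_iff (by linarith) (by norm_num)]
  unfold zeta
  linear_combination (3 / 20 : ℝ) * h5

theorem lt_one : (5 - Real.sqrt 5) / 3 < 1 := by
  have h : (2 : ℝ) < Real.sqrt 5 := by
    rw [show (2 : ℝ) = Real.sqrt 4 by rw [show (4 : ℝ) = 2 ^ 2 by norm_num]; simp]
    exact Real.sqrt_lt_sqrt (by norm_num) (by norm_num)
  linarith

/-- Every convex polygon with at most five vertices has packing density at least
`(5 - √5)/3 = 0.9213…`. -/
theorem main (S : Finset Plane) (hS : S.card ≤ 5)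
    (hne : (interior (convexHull ℝ (S : Set Plane))).Nonempty) :
    ENNReal.ofReal ((5 - Real.sqrt 5) / 3) ≤ packingDensity (convexHull ℝ (S : Set Plane)) := by
  have hconv : Convex ℝ (convexHull ℝ (S : Set Plane)) := convex_convexHull ℝ _
  have hcomp : IsCompact (convexHull ℝ (S : Set Plane)) :=
    S.finite_toSet.isCompact_convexHull (𝕜 := ℝ)
  obtain ⟨n, v, hn3, hnS, hhull, hv⟩ := exists_ccw S hne
  have hn5 : n ≤ 5 := hnS.trans hS
  have hcases : n = 3 ∨ n = 4 ∨ n = 5 := by omega
  rcases hcases with rfl | rfl | rfl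
  · have hpos := hv 0 1 2 (by decide) (by decide)
    have hG := good_triangle hpos
    have hB := volume_triangle_ge hpos
    have hr : ({v 0, v 1, v 2} : Set Plane) = Set.range v := by
      ext x
      simp only [Set.mem_insert_iff, Set.mem_singleton_iff, Set.mem_range]
      constructor
      · rintro (rfl | rfl | rfl)
        · exact ⟨0, rfl⟩
        · exact ⟨1, rfl⟩
        · exact ⟨2, rfl⟩
      · rintro ⟨i, rfl⟩
        fin_cases i <;> simp
    rw [hr] at hB
    rw [hhull] at hG hB
    have := hG.packingDensity_ge hconv hcomp hne hpos hB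
    refine le_trans (ENNReal.ofReal_le_ofReal ?_) this
    have e : 2 * (dd (v 0) (v 1) (v 2) / 2) / dd (v 0) (v 1) (v 2) = 1 := by field_simp
    rw [e]
    exact lt_one.le
  · have h1 := hv 0 1 2 (by decide) (by decide)
    have h2 := hv 0 2 3 (by decide) (by decide)
    have hG := good_quad hv
    have hB := volume_quad_ge hv
    rw [hhull] at hG hB
    have := hG.packingDensity_ge hconv hcomp hne (by linarith) hB
    refine le_trans (ENNReal.ofReal_le_ofReal ?_) this
    have e : 2 * ((dd (v 0) (v 1) (v 2) + dd (v 0) (v 2) (v 3)) / 2) /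
        (dd (v 0) (v 1) (v 2) + dd (v 0) (v 2) (v 3)) = 1 := by
      have : dd (v 0) (v 1) (v 2) + dd (v 0) (v 2) (v 3) ≠ 0 := by linarith
      field_simp
    rw [e]
    exact lt_one.le
  · have hA := AA_pos hv
    have hG := good_pentagon hv
    have hB := volume_pentagon_ge hv
    rw [hhull] at hG hB
    have hz := zeta_pos
    have := hG.packingDensity_ge hconv hcomp hne (by positivity) hB
    refine le_trans (le_of_eq ?_) this
    congr 1
    rw [← one_add_zeta]
    field_simp

end Pool.Agent.helper42.PD
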